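import Mathlib

/-!
# Zero-cycles on products of two elliptic curves: definitions for the statement
-/

set_option autoImplicit false

namespace Pool.Agent.Run7.h780.ZS

open WeierstrassCurve

/-- The curve `y² = x³ + a x + b`. -/
def E {F : Type} [Field F] (a b : F) : WeierstrassCurve F := ⟨0, 0, 0, a, b⟩

/-- The group of the points of `y² = x³ + a x + b` with coordinates in `F`. -/
abbrev Pt {F : Type} [Field F] (a b : F) : Type := (E a b).toAffine.Point

/-- The coordinates of a point, `none` for the origin. -/
def coords {F : Type} [Field F] {a b : F} : Pt a b → Option (F × F)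
  | Affine.Point.zero => none
  | Affine.Point.some x y _ => some (x, y)

/-- An algebraic closure `Ω` of the field `k(t)`. -/
abbrev Om (k : Type) [Field k] : Type := AlgebraicClosure (RatFunc k)

/-- The embedding of the constants in `Ω`. -/
noncomputable abbrev io (k : Type) [Field k] : k →+* Om k := algebraMap k (Om k)

/-- The variable `t`, an element of `Ω`. -/
noncomputable def tv (k : Type) [Field k] : Om k := algebraMap (RatFunc k) (Om k) RatFunc.X

/-- The point `P` with coordinates in `Ω` specialises at the valuation ring `w` to the point `p` with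
coordinates in `k`. -/
def Specializes {k : Type} [Field k] (w : ValuationSubring (Om k)) {a b : k}
    (P : Pt (io k a) (io k b)) (p : Pt a b) : Prop :=
  match coords P, coords p with
  | none, none => True
  | none, some _ => False
  | some z, none => z.1 ∉ w
  | some z, some c => w.valuation (z.1 - io k c.1) < 1 ∧ w.valuation (z.2 - io k c.2) < 1

/-- The family `P` of points of `E(a, b) × E(c, d)` over `Ω` is stable under the automorphisms of `Ω` over
`k(t)`: it is an effective zero-cycle on `E(a, b) × E(c, d)` over `k(t)`. -/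
def Stable {k : Type} [Field k] {a b c d : k} {n : ℕ}
    (P : Fin n → Pt (io k a) (io k b) × Pt (io k c) (io k d)) : Prop :=
  ∀ σ : Om k ≃ₐ[RatFunc k] Om k, ∃ π : Equiv.Perm (Fin n), ∀ i,
    coords (P (π i)).1 = (coords (P i).1).map (Prod.map σ σ) ∧
    coords (P (π i)).2 = (coords (P i).2).map (Prod.map σ σ)

/-- The group of the zero-cycles on `E(a, b) × E(c, d)` over `k` which are rationally equivalent to zero.
It is generated by the differences of the specialisations at `t = 0` and at `t = ∞` of the effective
zero-cycles over `k(t)`. -/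
noncomputable def RatEquivZero {k : Type} [Field k] (a b c d : k) :
    AddSubgroup ((Pt a b × Pt c d) →₀ ℤ) :=
  AddSubgroup.closure {z | ∃ (n : ℕ) (P : Fin n → Pt (io k a) (io k b) × Pt (io k c) (io k d))
    (w w' : ValuationSubring (Om k)) (p p' : Fin n → Pt a b × Pt c d), Stable P ∧
    (∀ e : k, io k e ∈ w) ∧ w.valuation (tv k) < 1 ∧
    (∀ e : k, io k e ∈ w') ∧ w'.valuation (tv k)⁻¹ < 1 ∧
    (∀ i, Specializes w (P i).1 (p i).1 ∧ Specializes w (P i).2 (p i).2) ∧
    (∀ i, Specializes w' (P i).1 (p' i).1 ∧ Specializes w' (P i).2 (p' i).2) ∧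
    z = ∑ i, (Finsupp.single (p i) 1 - Finsupp.single (p' i) 1)}

/-- The zero-cycle `([P] - [0]) × ([Q] - [0])`. -/
noncomputable def cyc {k : Type} [Field k] {a b c d : k} (P : Pt a b) (Q : Pt c d) :
    (Pt a b × Pt c d) →₀ ℤ :=
  Finsupp.single (P, Q) 1 - Finsupp.single (P, 0) 1 - Finsupp.single (0, Q) 1 +
    Finsupp.single (0, 0) 1

/-- The point `θ P` is defined over the field `F`. -/
def DefinedOver {k : Type} [Field k] {p : ℕ} [Fact p.Prime]
    (F : IntermediateField ℚ_[p] (PadicAlgCl p)) (θ : k →+* PadicAlgCl p) {a b : k}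
    (P : Pt a b) : Prop :=
  ∀ z ∈ coords P, θ z.1 ∈ F ∧ θ z.2 ∈ F

end Pool.Agent.Run7.h780.ZS
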