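import Mathlib

/-!
# Algebraic numbers at large primes
-/

set_option autoImplicit false
set_option linter.all false

namespace Pool.Agent.Run7.h780.ZC

lemma norm_le_of_int {p : ℕ} [Fact p.Prime] {x : PadicAlgCl p} (hx : IsIntegral ℤ x) :
    ‖x‖ ≤ 1 := by
  have h1 : IsIntegral (Valued.v (R := PadicAlgCl p)).integer x := hx.tower_top
  have h2 := (Valuation.integer.integers (Valued.v (R := PadicAlgCl p))).mem_of_integral h1
  have h3 : Valued.v x ≤ 1 := h2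
  rw [← PadicAlgCl.valuation_coe]
  exact_mod_cast h3

lemma norm_int_one {p : ℕ} [hp : Fact p.Prime] {y : ℤ} (hy : y ≠ 0) (h : y.natAbs < p) :
    ‖(y : PadicAlgCl p)‖ = 1 := by
  have e : (y : PadicAlgCl p) = algebraMap ℚ_[p] (PadicAlgCl p) (y : ℚ_[p]) := by simp
  rw [e, show ‖algebraMap ℚ_[p] (PadicAlgCl p) (y : ℚ_[p])‖ = ‖(y : ℚ_[p])‖ from
    PadicAlgCl.norm_extends p _]
  apply le_antisymm (Padic.norm_int_le_one y)
  rw [← not_lt, Padic.norm_intCast_lt_one_iff]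
  intro hd
  have := Nat.le_of_dvd (Int.natAbs_pos.2 hy) (Int.natCast_dvd.1 hd)
  omega

lemma exists_le (z : AlgebraicClosure ℚ) : ∃ p₀ : ℕ, ∀ p : ℕ, p₀ ≤ p → ∀ [Fact p.Prime]
    (θ : AlgebraicClosure ℚ →+* PadicAlgCl p), ‖θ z‖ ≤ 1 := by
  have h : IsAlgebraic ℤ z := by
    have h2 := (AlgebraicClosure.isAlgebraic ℚ).isAlgebraic z
    have h3 : (DivisionRing.toRatAlgebra : Algebra ℚ (AlgebraicClosure ℚ)) =
      AlgebraicClosure.instAlgebra ℚ := Subsingleton.elim _ _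
    have h1 : IsAlgebraic ℚ z := by
      rw [h3]
      exact h2
    exact (IsFractionRing.isAlgebraic_iff ℤ ℚ (AlgebraicClosure ℚ)).2 h1
  obtain ⟨y, hy, hyz⟩ := h.exists_integral_multiple
  refine ⟨y.natAbs + 1, fun p hp _ θ => ?_⟩
  have h2 : IsIntegral ℤ (θ (y • z)) := by
    have := hyz.map (θ.toIntAlgHom)
    exact this
  have h3 := norm_le_of_int h2
  rw [zsmul_eq_mul, map_mul, map_intCast, norm_mul, norm_int_one hy (by omega), one_mul] at h3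
  exact h3

lemma exists_good (z : AlgebraicClosure ℚ) : ∃ p₀ : ℕ, ∀ p : ℕ, p₀ ≤ p → ∀ [Fact p.Prime]
    (θ : AlgebraicClosure ℚ →+* PadicAlgCl p), ‖θ z‖ ≤ 1 ∧ (z ≠ 0 → ‖θ z‖ = 1) := by
  obtain ⟨p₁, h₁⟩ := exists_le z
  obtain ⟨p₂, h₂⟩ := exists_le z⁻¹
  refine ⟨max p₁ p₂, fun p hp _ θ => ⟨h₁ p (le_of_max_le_left hp) θ, fun hz => ?_⟩⟩
  apply le_antisymm (h₁ p (le_of_max_le_left hp) θ)
  have h3 := h₂ p (le_of_max_le_right hp) θ
  rw [map_inv₀, norm_inv] at h3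
  have h4 : 0 < ‖θ z‖ := norm_pos_iff.2 ((map_ne_zero θ).2 hz)
  rwa [inv_le_one₀ h4] at h3

lemma exists_good_finset (Z : Finset (AlgebraicClosure ℚ)) : ∃ p₀ : ℕ, ∀ p : ℕ, p₀ ≤ p →
    ∀ [Fact p.Prime] (θ : AlgebraicClosure ℚ →+* PadicAlgCl p), ∀ z ∈ Z,
      ‖θ z‖ ≤ 1 ∧ (z ≠ 0 → ‖θ z‖ = 1) := by
  choose f hf using exists_good
  refine ⟨Z.sup f, fun p hp _ θ z hz => ?_⟩
  exact hf z p ((Finset.le_sup hz).trans hp) θ

end Pool.Agent.Run7.h780.ZC
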