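import Pool.Agent.Run7.h780.ZC.Key2
import Pool.Agent.Run7.h780.ZC.Nrm

/-!
# Zero-cycles on products of two elliptic curves over the algebraic numbers
-/

set_option autoImplicit false
set_option linter.all false

namespace Pool.Agent.Run7.h780.ZC

open WeierstrassCurve Pool.Agent.H901R3.MS Pool.Agent.W275.FML
open Pool.Agent.Run7.h507.Loc1 (plp rs Bp nrm exists_frob rs_zero rs_eq Gp)
open scoped Classical

section loc
variable {p : ℕ} [hpf : Fact p.Prime] {θ : (AlgebraicClosure ℚ) →+* PadicAlgCl p}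

lemma r_ne {x : PadicAlgCl p} (h : ‖x‖ = 1) : (plp p).r x ≠ 0 := by
  intro h0
  have := (v_zero h.le).1 h0
  linarith

/-- a point of infinite order -/
lemma exists_inf2 {a b : (AlgebraicClosure ℚ)} (na : ‖θ a‖ ≤ 1) (nb : ‖θ b‖ ≤ 1) (hD : Disc a b) :
    ∃ P : Pt a b, ∀ n : ℕ, n ≠ 0 → n • P ≠ 0 := by
  obtain ⟨x, hx⟩ : ∃ x : (AlgebraicClosure ℚ), x = ((p : (AlgebraicClosure ℚ)) ^ 4)⁻¹ := ⟨_, rfl⟩
  obtain ⟨y, hy⟩ := IsAlgClosed.exists_pow_nat_eq (x ^ 3 + a * x + b) (n := 2) (by norm_num)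
  have hns : (CV a b).toAffine.Nonsingular x y := (nonsingular_iff hD).2 hy
  refine ⟨Affine.Point.some _ _ hns, fun n hn h0 => ?_⟩
  have hp1 : (1 : ℝ) < p := by exact_mod_cast hpf.out.one_lt
  have hp0 : (0 : ℝ) < p := by linarith
  have g := ns_map θ (rfl : θ a = θ a) (rfl : θ b = θ b) hns
  have hxn : ‖θ x‖ = (p : ℝ) ^ 4 := by
    rw [hx, map_inv₀, map_pow, map_natCast, norm_inv, norm_pow, norm_p, inv_pow, inv_inv]
  have hx1 : 1 < ‖θ x‖ := by
    rw [hxn]; exact one_lt_pow₀ hp1 (by norm_num)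
  have hyn := size_y na nb (eqn_of g) hx1
  have hE : E1 (plp p) (Affine.Point.some _ _ g : Pt (θ a) (θ b)) := by
    intro u w h e
    rw [Affine.Point.some.injEq] at e
    rw [← e.1, mem_v, not_le]
    exact hx1
  have htt : ‖tt (Affine.Point.some _ _ g : Pt (θ a) (θ b))‖ < (p : ℝ)⁻¹ := by
    show ‖θ x / θ y‖ < _
    have h1 : ‖θ x / θ y‖ ^ 2 = ((p : ℝ)⁻¹ ^ 2) ^ 2 := by
      rw [norm_div, div_pow, hyn, hxn]
      field_simp
    have h2 : ‖θ x / θ y‖ = (p : ℝ)⁻¹ ^ 2 :=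
      (pow_left_inj₀ (norm_nonneg _) (by positivity) two_ne_zero).1 h1
    rw [h2]
    have h3 : (p : ℝ)⁻¹ < 1 := inv_lt_one_of_one_lt₀ hp1
    have h4 : (0 : ℝ) < (p : ℝ)⁻¹ := by positivity
    nlinarith
  apply cE1_nontorsion na nb hE htt (Affine.Point.some_ne_zero _) hn
  have h1 := congrArg (pmap θ (rfl : θ a = θ a) (rfl : θ b = θ b)) h0
  rw [map_nsmul, map_zero, pmap_some] at h1
  exact h1

/-- the points defined over `F` are a subgroup -/
lemma ratF_iff {a b : (AlgebraicClosure ℚ)} {F : IntermediateField ℚ_[p] (PadicAlgCl p)} (ha : θ a ∈ F)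
    (hb : θ b ∈ F) (P : Pt a b) : RatF F θ P ↔
      P ∈ (pmap (algebraMap F (PadicAlgCl p)) (a := ⟨θ a, ha⟩) (b := ⟨θ b, hb⟩)
        (rfl : _ = θ a) (rfl : _ = θ b)).range.comap (pmap θ rfl rfl) := by
  constructor
  · intro h
    rcases P with _ | ⟨x, y, hxy⟩
    · exact AddSubgroup.zero_mem _
    · obtain ⟨hx, hy⟩ := h (x, y) rfl
      simp only at hx hy
      have g := ns_map θ (rfl : θ a = θ a) (rfl : θ b = θ b) hxy
      have g' : (CV (⟨θ a, ha⟩ : F) (⟨θ b, hb⟩ : F)).toAffine.Nonsingular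
          (⟨θ x, hx⟩ : F) (⟨θ y, hy⟩ : F) :=
        ns_desc (algebraMap F (PadicAlgCl p)) (rfl : _ = θ a) (rfl : _ = θ b) g
      refine ⟨Affine.Point.some _ _ g', ?_⟩
      rw [pmap_some, pmap_some, Affine.Point.some.injEq]
      exact ⟨rfl, rfl⟩
  · rintro ⟨R, hR⟩
    rintro ⟨x, y⟩ hz
    rcases P with _ | ⟨x', y', h⟩
    · simp [coords] at hz
    · simp only [coords, Option.mem_def, Option.some.injEq, Prod.mk.injEq] at hz
      obtain ⟨rfl, rfl⟩ := hz
      rcases R with _ | ⟨X, Y, hXY⟩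
      · rw [pmap_some] at hR
        exact absurd (hR.symm.trans (map_zero (pmap (algebraMap F (PadicAlgCl p))
          (rfl : _ = θ a) (rfl : _ = θ b)))) (Affine.Point.some_ne_zero _)
      · rw [pmap_some, pmap_some, Affine.Point.some.injEq] at hR
        refine ⟨?_, ?_⟩
        · show θ x' ∈ F
          rw [← hR.1]; exact X.2
        · show θ y' ∈ F
          rw [← hR.2]; exact Y.2

end loc

/-- **the local statement** -/
theorem local2 {a b c d : (AlgebraicClosure ℚ)} (hD : Disc a b) (hD' : Disc c d) :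
    ∃ p₀ : ℕ, ∀ p : ℕ, p₀ ≤ p → ∀ [Fact p.Prime] (θ : (AlgebraicClosure ℚ) →+* PadicAlgCl p)
      (F : IntermediateField ℚ_[p] (PadicAlgCl p)) [FiniteDimensional ℚ_[p] F] (P : Pt a b),
      ∃ Q : Pt c d, cyc P Q ∈ RatEquivZero a b c d ∧ ∀ m : ℤ, m ≠ 0 → ¬ RatF F θ (m • Q) := by
  obtain ⟨e₁, e₂, e₃, he⟩ := exists_Rt hD
  obtain ⟨f₁, f₂, f₃, hf⟩ := exists_Rt hD'
  obtain ⟨al, be, γ, c0, M, -⟩ := exists_Mob (by norm_num : (3 : (AlgebraicClosure ℚ)) ≠ 0) he hf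
  obtain ⟨BB, hBB⟩ := exists_bil hD hD'
  have hγ : γ ^ 3 + a * γ + b ≠ 0 := by
    intro h
    have h1 : (al * γ + be) ^ 3 = c0 * (γ ^ 3 + a * γ + b) := by
      linear_combination γ * M.i1 + M.i0 + γ ^ 2 * M.i2 + γ ^ 3 * M.i3
    rw [h, mul_zero] at h1
    exact M.nd (pow_eq_zero_iff (by norm_num) |>.1 h1)
  obtain ⟨p₁, hp₁⟩ := exists_good_finset {a, b, c, d, al, be, γ, c0,
    2 * (4 * a ^ 3 + 27 * b ^ 2), γ ^ 3 + a * γ + b}
  refine ⟨p₁, fun p hp _ θ F _ P => ?_⟩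
  have hg := hp₁ p hp θ
  have na := (hg a (by simp)).1
  have nb := (hg b (by simp)).1
  have nG := (hg γ (by simp)).1
  have ma := mem_v.2 na
  have mb := mem_v.2 nb
  have mG := mem_v.2 nG
  have h2A : (2 : PadicAlgCl p) ∈ (plp p).A := by exact_mod_cast (plp p).nat_mem 2
  have h4A : (4 : PadicAlgCl p) ∈ (plp p).A := by exact_mod_cast (plp p).nat_mem 4
  have h27A : (27 : PadicAlgCl p) ∈ (plp p).A := by exact_mod_cast (plp p).nat_mem 27
  have r4 : (plp p).r (4 : PadicAlgCl p) = 4 := by exact_mod_cast (plp p).r_nat 4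
  have r27 : (plp p).r (27 : PadicAlgCl p) = 27 := by exact_mod_cast (plp p).r_nat 27
  have key : ∀ P : Pt a b, (∀ n : ℕ, n ≠ 0 → n • P ≠ 0) →
      ∃ Q : Pt c d, BB P Q = 0 ∧ ∀ m : ℤ, m ≠ 0 → ¬ RatF F θ (m • Q) := by
    intro P hnt
    refine key2 M hD hD' BB hBB na nb (hg c (by simp)).1 (hg d (by simp)).1
      (hg al (by simp)).1 (hg be (by simp)).1 nG (hg c0 (by simp)).1 ?_ ?_ ?_ F P hnt
    · have h1 := r_ne ((hg (2 * (4 * a ^ 3 + 27 * b ^ 2)) (by simp)).2 hD)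
      unfold Disc
      simp only [map_mul, map_add, map_pow, map_ofNat] at h1
      rw [(plp p).r_mul h2A ((plp p).A.add_mem ((plp p).A.mul_mem h4A ((plp p).A.pow_mem ma 3))
          ((plp p).A.mul_mem h27A ((plp p).A.pow_mem mb 2))),
        (plp p).r_add ((plp p).A.mul_mem h4A ((plp p).A.pow_mem ma 3))
          ((plp p).A.mul_mem h27A ((plp p).A.pow_mem mb 2)),
        (plp p).r_mul h4A ((plp p).A.pow_mem ma 3), (plp p).r_mul h27A ((plp p).A.pow_mem mb 2),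
        (plp p).r_pow ma, (plp p).r_pow mb, r4, r27, (plp p).r_two] at h1
      exact h1
    · have h1 := r_ne ((hg (γ ^ 3 + a * γ + b) (by simp)).2 hγ)
      simp only [map_mul, map_add, map_pow] at h1
      rw [(plp p).r_add ((plp p).A.add_mem ((plp p).A.pow_mem mG 3) ((plp p).A.mul_mem ma mG)) mb,
        (plp p).r_add ((plp p).A.pow_mem mG 3) ((plp p).A.mul_mem ma mG), (plp p).r_pow mG,
        (plp p).r_mul ma mG] at h1
      exact h1
    · exact r_ne ((hg c0 (by simp)).2 M.c0_ne)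
  have hmem : ∀ Q, BB P Q = 0 → cyc P Q ∈ RatEquivZero a b c d := by
    intro Q hQ
    rw [hBB] at hQ
    exact (QuotientAddGroup.eq_zero_iff _).1 hQ
  by_cases hnt : ∀ n : ℕ, n ≠ 0 → n • P ≠ 0
  · obtain ⟨Q, hQ, hQm⟩ := key P hnt
    exact ⟨Q, hmem Q hQ, hQm⟩
  · push Not at hnt
    obtain ⟨n, hn, hn0⟩ := hnt
    obtain ⟨P0, hP0⟩ := exists_inf2 na nb hD
    obtain ⟨Q, hQ, hQm⟩ := key P0 hP0
    refine ⟨n • Q, hmem _ ?_, ?_⟩
    · rw [map_nsmul, ← AddMonoidHom.nsmul_apply, ← map_nsmul, hn0, map_zero,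
        AddMonoidHom.zero_apply]
    · intro m hm
      have e2 : m • (n • Q) = (m * (n : ℤ)) • Q := by
        rw [← natCast_zsmul Q n, ← mul_smul]
      rw [e2]
      apply hQm
      apply mul_ne_zero hm
      exact_mod_cast hn

/-- sequences of elements independent modulo subgroups -/
theorem exists_indep2 {G : Type} [AddCommGroup G] (p : G → Prop) (V : Set G)
    (h : ∀ S : Finset G, ∃ Q : G, p Q ∧
      ∀ m : ℤ, m ≠ 0 → ∀ v ∈ V, ∀ w ∈ AddSubgroup.closure (S : Set G), m • Q ≠ v + w) :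
    ∃ Q : ℕ → G, (∀ n, p (Q n)) ∧ ∀ g : ℕ →₀ ℤ, g ≠ 0 → (g.sum fun n m => m • Q n) ∉ V := by
  choose q hq1 hq2 using h
  let F : ℕ → Finset G := fun n => Nat.rec ∅ (fun _ S => insert (q S) S) n
  have hF : ∀ n, F (n + 1) = insert (q (F n)) (F n) := fun n => rfl
  have hmem : ∀ n m, m < n → q (F m) ∈ F n := by
    intro n
    induction n with
    | zero => intro m hm; omega
    | succ n ih =>
      intro m hm
      rw [hF]
      rcases Nat.lt_succ_iff_lt_or_eq.1 hm with h | h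
      · exact Finset.mem_insert_of_mem (ih m h)
      · rw [h]; exact Finset.mem_insert_self _ _
  refine ⟨fun n => q (F n), fun n => hq1 _, ?_⟩
  intro g hg hV
  have hne : g.support.Nonempty := Finsupp.support_nonempty_iff.2 hg
  obtain ⟨m, hm⟩ : ∃ m, m = g.support.max' hne := ⟨_, rfl⟩
  have hmm : m ∈ g.support := hm ▸ Finset.max'_mem _ hne
  refine hq2 (F m) (g m) (Finsupp.mem_support_iff.1 hmm) _ hV
    (-∑ i ∈ g.support.erase m, g i • q (F i)) ?_ ?_
  · apply AddSubgroup.neg_mem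
    apply AddSubgroup.sum_mem
    intro j hj
    rw [Finset.mem_erase] at hj
    apply AddSubgroup.zsmul_mem
    apply AddSubgroup.subset_closure
    apply hmem
    have h2 : j ≤ m := hm ▸ Finset.le_max' _ _ hj.2
    omega
  · rw [Finsupp.sum, ← Finset.add_sum_erase _ (fun i => g i • q (F i)) hmm]
    abel

/-- **the theorem** -/
theorem main2 {a b c d : (AlgebraicClosure ℚ)} (hD : Disc a b) (hD' : Disc c d) :
    ∃ p₀ : ℕ, ∀ p : ℕ, p₀ ≤ p → ∀ [Fact p.Prime] (θ : (AlgebraicClosure ℚ) →+* PadicAlgCl p)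
      (F : IntermediateField ℚ_[p] (PadicAlgCl p)) [FiniteDimensional ℚ_[p] F] (P : Pt a b),
      ∃ Q : ℕ → Pt c d, (∀ n, cyc P (Q n) ∈ RatEquivZero a b c d) ∧
        ∀ g : ℕ →₀ ℤ, g ≠ 0 → ¬ RatF F θ (g.sum fun n m => m • Q n) := by
  obtain ⟨p₀, hp₀⟩ := local2 hD hD'
  refine ⟨p₀, fun p hp _ θ F _ P => ?_⟩
  refine exists_indep2 (fun Q : Pt c d => cyc P Q ∈ RatEquivZero a b c d) {Z | RatF F θ Z} ?_
  intro S
  -- a larger field
  obtain ⟨T, hT⟩ : ∃ T : Set (PadicAlgCl p), T = {θ c, θ d} ∪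
      ((fun Z : Pt c d => (coords Z).elim 0 fun z => θ z.1) '' (S : Set (Pt c d)) ∪
      (fun Z : Pt c d => (coords Z).elim 0 fun z => θ z.2) '' (S : Set (Pt c d))) := ⟨_, rfl⟩
  have hTf : T.Finite := by
    rw [hT]
    exact (Set.toFinite _).union ((S.finite_toSet.image _).union (S.finite_toSet.image _))
  have : Finite T := hTf.to_subtype
  have hfd : FiniteDimensional ℚ_[p] (IntermediateField.adjoin ℚ_[p] T) :=
    IntermediateField.finiteDimensional_adjoin fun x _ => Algebra.IsIntegral.isIntegral x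
  obtain ⟨F', hF'⟩ : ∃ F' : IntermediateField ℚ_[p] (PadicAlgCl p),
    F' = F ⊔ IntermediateField.adjoin ℚ_[p] T := ⟨_, rfl⟩
  have : FiniteDimensional ℚ_[p] F' := by
    rw [hF']
    infer_instance
  have hle : F ≤ F' := hF' ▸ le_sup_left
  have hTF : ∀ x ∈ T, x ∈ F' := fun x hx =>
    (hF' ▸ le_sup_right : IntermediateField.adjoin ℚ_[p] T ≤ F')
      (IntermediateField.subset_adjoin _ _ hx)
  have hc : θ c ∈ F' := hTF _ (by rw [hT]; simp)
  have hd : θ d ∈ F' := hTF _ (by rw [hT]; simp)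
  obtain ⟨Q, hQ, hQm⟩ := hp₀ p hp θ F' P
  refine ⟨Q, hQ, fun m hm v hv w hw he => hQm m hm ?_⟩
  rw [he, ratF_iff hc hd]
  apply AddSubgroup.add_mem
  · rw [← ratF_iff hc hd]
    intro z hz
    have hv' : RatF F θ v := hv
    exact ⟨hle (hv' z hz).1, hle (hv' z hz).2⟩
  · refine (AddSubgroup.closure_le _).2 ?_ hw
    intro R hR
    rw [SetLike.mem_coe, ← ratF_iff hc hd]
    intro z hz
    constructor
    · apply hTF
      rw [hT]
      refine Or.inr (Or.inl ⟨R, hR, ?_⟩)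
      simp only [Option.mem_def.1 hz, Option.elim_some]
    · apply hTF
      rw [hT]
      refine Or.inr (Or.inr ⟨R, hR, ?_⟩)
      simp only [Option.mem_def.1 hz, Option.elim_some]

end Pool.Agent.Run7.h780.ZC
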