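import Pool.Agent.Run7.h780.ZC.Curve

/-!
# Existence of the Möbius transformations
-/

set_option autoImplicit false
set_option linter.all false

namespace Pool.Agent.Run7.h780.ZC

open WeierstrassCurve Pool.Agent.H901R3.MS

variable {k : Type} [Field k]

/-- `e₁, e₂, e₃` are the different roots of `x³ + a x + b` -/
structure Rt (a b e₁ e₂ e₃ : k) : Prop where
  sum : e₁ + e₂ + e₃ = 0
  ha : a = e₁ * e₂ + e₁ * e₃ + e₂ * e₃
  hb : b = -(e₁ * e₂ * e₃)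
  n12 : e₁ ≠ e₂
  n13 : e₁ ≠ e₃
  n23 : e₂ ≠ e₃

lemma Rt.swap23 {a b e₁ e₂ e₃ : k} (h : Rt a b e₁ e₂ e₃) : Rt a b e₁ e₃ e₂ :=
  ⟨by rw [← h.sum]; ring, by rw [h.ha]; ring, by rw [h.hb]; ring, h.n13, h.n12, h.n23.symm⟩

lemma Rt.swap12 {a b e₁ e₂ e₃ : k} (h : Rt a b e₁ e₂ e₃) : Rt a b e₂ e₁ e₃ :=
  ⟨by rw [← h.sum]; ring, by rw [h.ha]; ring, by rw [h.hb]; ring, h.n12.symm, h.n23, h.n13⟩

lemma Rt.root1 {a b e₁ e₂ e₃ : k} (h : Rt a b e₁ e₂ e₃) : e₁ ^ 3 + a * e₁ + b = 0 := by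
  rw [h.ha, h.hb]
  linear_combination e₁ ^ 2 * h.sum

lemma Rt.fac {a b e₁ e₂ e₃ : k} (h : Rt a b e₁ e₂ e₃) (x : k) :
    x ^ 3 + a * x + b = (x - e₁) * (x - e₂) * (x - e₃) := by
  rw [h.ha, h.hb]
  linear_combination x ^ 2 * h.sum

theorem exists_Rt [IsAlgClosed k] [CharZero k] {a b : k} (hD : Disc a b) :
    ∃ e₁ e₂ e₃ : k, Rt a b e₁ e₂ e₃ := by
  obtain ⟨e, he⟩ : ∃ e : k, e ^ 3 + a * e + b = 0 := by
    obtain ⟨z, hz⟩ := IsAlgClosed.exists_root (Polynomial.X ^ 3 + Polynomial.C a * Polynomial.X +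
      Polynomial.C b) (by
        have : (Polynomial.X ^ 3 + Polynomial.C a * Polynomial.X + Polynomial.C b).degree = 3 := by
          compute_degree!
        rw [this]; norm_num)
    exact ⟨z, by simpa using hz⟩
  obtain ⟨r, hr⟩ := IsAlgClosed.exists_pow_nat_eq (-3 * e ^ 2 - 4 * a) (n := 2) (by norm_num)
  have h2 : (2 : k) ≠ 0 := two_ne_zero
  set e₂ : k := (-e + r) / 2 with he2
  set e₃ : k := (-e - r) / 2 with he3
  have hs : e + e₂ + e₃ = 0 := by rw [he2, he3]; field_simp; ring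
  have hp : e₂ * e₃ = e ^ 2 + a := by
    have : e₂ * e₃ = (e ^ 2 - r ^ 2) / 4 := by rw [he2, he3]; field_simp; ring
    rw [this, hr]
    field_simp
    ring
  have ha : a = e * e₂ + e * e₃ + e₂ * e₃ := by
    linear_combination -hp - e * hs
  have hb : b = -(e * e₂ * e₃) := by
    linear_combination he + e * hp
  have hdisc : (2 : k) * (4 * a ^ 3 + 27 * b ^ 2) =
      -2 * ((e - e₂) * (e - e₃) * (e₂ - e₃)) ^ 2 := by
    have h1 : e₃ = -e - e₂ := by linear_combination hs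
    rw [ha, hb, h1]
    ring
  refine ⟨e, e₂, e₃, hs, ha, hb, ?_, ?_, ?_⟩
  · intro h
    apply hD
    rw [hdisc, h]; ring
  · intro h
    apply hD
    rw [hdisc, h]; ring
  · intro h
    apply hD
    rw [hdisc, h]; ring

/-- a quadratic polynomial with three roots -/
lemma quad_zero {q₂ q₁ q₀ x₁ x₂ x₃ : k} (h12 : x₁ ≠ x₂) (h13 : x₁ ≠ x₃) (h23 : x₂ ≠ x₃)
    (h1 : q₂ * x₁ ^ 2 + q₁ * x₁ + q₀ = 0) (h2 : q₂ * x₂ ^ 2 + q₁ * x₂ + q₀ = 0)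
    (h3 : q₂ * x₃ ^ 2 + q₁ * x₃ + q₀ = 0) : q₂ = 0 ∧ q₁ = 0 ∧ q₀ = 0 := by
  have a1 : q₂ * (x₁ + x₂) + q₁ = 0 := by
    apply mul_left_cancel₀ (sub_ne_zero.2 h12)
    linear_combination h1 - h2
  have a2 : q₂ * (x₁ + x₃) + q₁ = 0 := by
    apply mul_left_cancel₀ (sub_ne_zero.2 h13)
    linear_combination h1 - h3
  have a3 : q₂ = 0 := by
    apply mul_left_cancel₀ (sub_ne_zero.2 h23)
    linear_combination a1 - a2
  rw [a3, zero_mul, zero_add] at a1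
  rw [a3, a1] at h1
  exact ⟨a3, a1, by linear_combination h1⟩

lemma mob_of {a b c d e₁ e₂ e₃ f₁ f₂ f₃ : k} (h : Rt a b e₁ e₂ e₃) (h' : Rt c d f₁ f₂ f₃)
    (hΔ : (e₁ - e₂) * (f₁ - f₃) - (e₁ - e₃) * (f₁ - f₂) ≠ 0) :
    ∃ al be γ c0 : k, Mob a b c d al be γ c0 ∧ ∀ K : Subfield k, e₁ ∈ K → e₂ ∈ K → e₃ ∈ K →
      f₁ ∈ K → f₂ ∈ K → f₃ ∈ K → al ∈ K ∧ be ∈ K ∧ γ ∈ K ∧ c0 ∈ K := by
  set Δ := (e₁ - e₂) * (f₁ - f₃) - (e₁ - e₃) * (f₁ - f₂) with hΔd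
  set al := ((e₁ * f₁ - e₂ * f₂) * (f₁ - f₃) - (e₁ * f₁ - e₃ * f₃) * (f₁ - f₂)) / Δ with hal
  set γ := ((e₁ - e₂) * (e₁ * f₁ - e₃ * f₃) - (e₁ - e₃) * (e₁ * f₁ - e₂ * f₂)) / Δ with hγ
  set be := e₁ * f₁ - al * e₁ - γ * f₁ with hbe
  have halΔ : al * Δ = (e₁ * f₁ - e₂ * f₂) * (f₁ - f₃) - (e₁ * f₁ - e₃ * f₃) * (f₁ - f₂) := by
    rw [hal, div_mul_cancel₀ _ hΔ]
  have hγΔ : γ * Δ = (e₁ - e₂) * (e₁ * f₁ - e₃ * f₃) - (e₁ - e₃) * (e₁ * f₁ - e₂ * f₂) := by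
    rw [hγ, div_mul_cancel₀ _ hΔ]
  have g1 : al * e₁ + be = f₁ * (e₁ - γ) := by rw [hbe]; ring
  have g2 : al * e₂ + be = f₂ * (e₂ - γ) := by
    apply mul_right_cancel₀ hΔ
    rw [hbe]
    linear_combination (e₂ - e₁) * halΔ + (f₂ - f₁) * hγΔ
  have g3 : al * e₃ + be = f₃ * (e₃ - γ) := by
    apply mul_right_cancel₀ hΔ
    rw [hbe]
    linear_combination (e₃ - e₁) * halΔ + (f₃ - f₁) * hγΔ
  set c0 := al ^ 3 + c * al + d with hc0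
  have r1 := h'.root1
  have r2 := h'.swap12.root1
  have r3 := h'.swap23.swap12.root1
  have s1 := h.root1
  have s2 := h.swap12.root1
  have s3 := h.swap23.swap12.root1
  -- the polynomial of degree two vanishes at the roots
  have key : ∀ e f : k, e ^ 3 + a * e + b = 0 → f ^ 3 + c * f + d = 0 → al * e + be = f * (e - γ) →
      (3 * al ^ 2 * be + c * (be - 2 * γ * al) - 3 * γ * d) * e ^ 2 +
      (3 * al * be ^ 2 + c * (al * γ ^ 2 - 2 * γ * be) + 3 * γ ^ 2 * d - c0 * a) * e +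
      (be ^ 3 + c * be * γ ^ 2 - d * γ ^ 3 - c0 * b) = 0 := by
    intro e f he hf hg
    have h1 : (al * e + be) ^ 3 + c * (al * e + be) * (e - γ) ^ 2 + d * (e - γ) ^ 3 = 0 := by
      rw [hg]
      linear_combination (e - γ) ^ 3 * hf
    linear_combination h1 - c0 * he + e ^ 3 * hc0
  obtain ⟨q2, q1, q0⟩ := quad_zero h.n12 h.n13 h.n23 (key _ _ s1 r1 g1) (key _ _ s2 r2 g2)
    (key _ _ s3 r3 g3)
  have nd : al * γ + be ≠ 0 := by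
    intro hz
    have t : ∀ e f : k, al * e + be = f * (e - γ) → e = γ ∨ f = al := by
      intro e f hg
      have : (e - γ) * (f - al) = 0 := by linear_combination hz - hg
      rcases mul_eq_zero.1 this with h1 | h1
      · exact Or.inl (sub_eq_zero.1 h1)
      · exact Or.inr (sub_eq_zero.1 h1)
    rcases t _ _ g1 with u1 | u1
    · rcases t _ _ g2 with u2 | u2
      · exact h.n12 (u1.trans u2.symm)
      · rcases t _ _ g3 with u3 | u3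
        · exact h.n13 (u1.trans u3.symm)
        · exact h'.n23 (u2.trans u3.symm)
    · rcases t _ _ g2 with u2 | u2
      · rcases t _ _ g3 with u3 | u3
        · exact h.n23 (u2.trans u3.symm)
        · exact h'.n13 (u1.trans u3.symm)
      · exact h'.n12 (u1.trans u2.symm)
  have hc0n : c0 ≠ 0 := by
    intro hz
    have h1 : (al - f₁) * (al - f₂) * (al - f₃) = 0 := by
      rw [← h'.fac, ← hc0, hz]
    have t : ∀ e f : k, al * e + be = f * (e - γ) → al ≠ f := by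
      intro e f hg hf
      apply nd
      rw [← hf] at hg
      linear_combination hg
    rcases mul_eq_zero.1 h1 with h2 | h2
    · rcases mul_eq_zero.1 h2 with h3 | h3
      · exact t _ _ g1 (sub_eq_zero.1 h3)
      · exact t _ _ g2 (sub_eq_zero.1 h3)
    · exact t _ _ g3 (sub_eq_zero.1 h2)
  refine ⟨al, be, γ, c0, ⟨hc0n, rfl, q2, by linear_combination q1, by linear_combination q0, nd⟩, ?_⟩
  intro K k1 k2 k3 l1 l2 l3
  have mΔ : Δ ∈ K := K.sub_mem (K.mul_mem (K.sub_mem k1 k2) (K.sub_mem l1 l3))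
    (K.mul_mem (K.sub_mem k1 k3) (K.sub_mem l1 l2))
  have mal : al ∈ K := K.div_mem (K.sub_mem
    (K.mul_mem (K.sub_mem (K.mul_mem k1 l1) (K.mul_mem k2 l2)) (K.sub_mem l1 l3))
    (K.mul_mem (K.sub_mem (K.mul_mem k1 l1) (K.mul_mem k3 l3)) (K.sub_mem l1 l2))) mΔ
  have mγ : γ ∈ K := K.div_mem (K.sub_mem
    (K.mul_mem (K.sub_mem k1 k2) (K.sub_mem (K.mul_mem k1 l1) (K.mul_mem k3 l3)))
    (K.mul_mem (K.sub_mem k1 k3) (K.sub_mem (K.mul_mem k1 l1) (K.mul_mem k2 l2)))) mΔ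
  have mc : c ∈ K := by
    rw [h'.ha]
    exact K.add_mem (K.add_mem (K.mul_mem l1 l2) (K.mul_mem l1 l3)) (K.mul_mem l2 l3)
  have md : d ∈ K := by
    rw [h'.hb]
    exact K.neg_mem (K.mul_mem (K.mul_mem l1 l2) l3)
  exact ⟨mal, K.sub_mem (K.sub_mem (K.mul_mem k1 l1) (K.mul_mem mal k1)) (K.mul_mem mγ l1), mγ,
    K.add_mem (K.add_mem (K.pow_mem mal 3) (K.mul_mem mc mal)) md⟩

lemma two_zero {e₁ e₂ e₃ f₁ f₂ f₃ : k} (h3 : (3 : k) ≠ 0) (hs : e₁ + e₂ + e₃ = 0)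
    (n23 : e₂ ≠ e₃) (hB : f₁ ≠ f₃)
    (h1 : (e₁ - e₂) * (f₁ - f₃) - (e₁ - e₃) * (f₁ - f₂) = 0)
    (h2 : (e₁ - e₂) * (f₁ - f₂) - (e₁ - e₃) * (f₁ - f₃) = 0) : e₁ = 0 := by
  have h4 : (f₁ - f₃) * (((e₁ - e₂) - (e₁ - e₃)) * ((e₁ - e₂) + (e₁ - e₃))) = 0 := by
    linear_combination (e₁ - e₂) * h1 + (e₁ - e₃) * h2
  have h5 := (mul_eq_zero.1 h4).resolve_left (sub_ne_zero.2 hB)
  have h6 : (e₁ - e₂) - (e₁ - e₃) ≠ 0 := by
    intro h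
    apply n23
    linear_combination -h
  have h7 := (mul_eq_zero.1 h5).resolve_left h6
  have h8 : 3 * e₁ = 0 := by linear_combination h7 + hs
  exact (mul_eq_zero.1 h8).resolve_left h3

theorem exists_Mob {a b c d e₁ e₂ e₃ f₁ f₂ f₃ : k} (h3 : (3 : k) ≠ 0) (h : Rt a b e₁ e₂ e₃)
    (h' : Rt c d f₁ f₂ f₃) :
    ∃ al be γ c0 : k, Mob a b c d al be γ c0 ∧ ∀ K : Subfield k, e₁ ∈ K → e₂ ∈ K → e₃ ∈ K →
      f₁ ∈ K → f₂ ∈ K → f₃ ∈ K → al ∈ K ∧ be ∈ K ∧ γ ∈ K ∧ c0 ∈ K := by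
  by_cases h1 : (e₁ - e₂) * (f₁ - f₃) - (e₁ - e₃) * (f₁ - f₂) = 0
  · by_cases h2 : (e₁ - e₂) * (f₁ - f₂) - (e₁ - e₃) * (f₁ - f₃) = 0
    · have e10 := two_zero h3 h.sum h.n23 h'.n13 h1 h2
      by_cases h4 : (e₂ - e₁) * (f₁ - f₃) - (e₂ - e₃) * (f₁ - f₂) = 0
      · by_cases h5 : (e₂ - e₁) * (f₁ - f₂) - (e₂ - e₃) * (f₁ - f₃) = 0
        · have e20 := two_zero h3 h.swap12.sum h.n13 h'.n13 h4 h5
          exact absurd (e10.trans e20.symm) h.n12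
        · obtain ⟨al, be, γ, c0, M, hK⟩ := mob_of h.swap12 h'.swap23 h5
          exact ⟨al, be, γ, c0, M, fun K k1 k2 k3 l1 l2 l3 => hK K k2 k1 k3 l1 l3 l2⟩
      · obtain ⟨al, be, γ, c0, M, hK⟩ := mob_of h.swap12 h' h4
        exact ⟨al, be, γ, c0, M, fun K k1 k2 k3 l1 l2 l3 => hK K k2 k1 k3 l1 l2 l3⟩
    · obtain ⟨al, be, γ, c0, M, hK⟩ := mob_of h h'.swap23 h2
      exact ⟨al, be, γ, c0, M, fun K k1 k2 k3 l1 l2 l3 => hK K k1 k2 k3 l1 l3 l2⟩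
  · exact mob_of h h' h1

end Pool.Agent.Run7.h780.ZC
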