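import Pool.Agent.Run7.h780.ZC.Pts
import Pool.Agent.TH954.STor

/-!
# Torsion points and extensions of algebraically closed fields
-/

set_option autoImplicit false
set_option linter.all false

namespace Pool.Agent.Run7.h780.ZC

open WeierstrassCurve Pool.Agent.H901R3.MS
open scoped Classical

section
variable {F M : Type} [Field F] [IsAlgClosed F] [CharZero F] [Field M] [IsAlgClosed M] [CharZero M]

lemma disc_map (f : F →+* M) {a b : F} {a' b' : M} (ha : f a = a') (hb : f b = b')
    (hD : Disc a b) : Disc a' b' := by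
  unfold Disc at hD ⊢
  intro h
  apply hD
  apply f.injective
  rw [map_zero, ← h, ← ha, ← hb]
  simp only [map_mul, map_add, map_pow, map_ofNat]

/-- torsion points of prime order come from an algebraically closed subfield -/
lemma prime_tor (f : F →+* M) {a b : F} {a' b' : M} (ha : f a = a') (hb : f b = b')
    (hD : Disc a b) {l : ℕ} (hl : l.Prime) (T : Pt a' b') (hT : l • T = 0) :
    ∃ T0 : Pt a b, pmap f ha hb T0 = T := by
  by_contra hne
  push Not at hne
  have : Fact l.Prime := ⟨hl⟩
  have hD' := disc_map f ha hb hD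
  obtain ⟨fA, gA⟩ := Pool.Agent.TH954.torCount F a b hD l hl.one_le
  obtain ⟨fB, -⟩ := Pool.Agent.TH954.torCount M a' b' hD' l hl.one_le
  have gB := Pool.Agent.TH954.card_torsion_lt hD' hl.one_le
  set A := {P : Pt a b | l • P = 0} with hA
  set B := {P : Pt a' b' | l • P = 0} with hB
  -- the multiples of `T` are in different classes
  have hmul : ∀ m : ℕ, ¬ l ∣ m → ∀ T0, pmap f ha hb T0 ≠ m • T := by
    intro m hm T0 h0
    have hco : Nat.Coprime m l := (Nat.Prime.coprime_iff_not_dvd hl).2 hm |>.symm
    have hbez := Nat.gcd_eq_gcd_ab m l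
    rw [hco] at hbez
    apply hne (m.gcdA l • T0)
    rw [map_zsmul, h0]
    have e1 : ((m : ℤ) * m.gcdA l + (l : ℤ) * m.gcdB l) • T = T := by
      rw [← hbez, Nat.cast_one]
      exact one_zsmul T
    have e2 : ((l : ℤ) * m.gcdB l) • T = 0 := by
      rw [mul_comm, mul_smul, natCast_zsmul, hT, smul_zero]
    rw [add_smul, e2, add_zero, mul_comm, mul_smul, natCast_zsmul] at e1
    exact e1
  have hinj : Set.InjOn (fun p : ℕ × Pt a b =>
      p.1 • T + pmap f ha hb p.2) ((Finset.range l : Set ℕ) ×ˢ A) := by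
    have hkey : ∀ m m' : ℕ, m < l → m' < m → ∀ T0 T1,
        m • T + pmap f ha hb T0 ≠ m' • T + pmap f ha hb T1 := by
      intro m m' hm hmm T0 T1 h
      apply hmul (m - m') (fun hd => by
        have := Nat.le_of_dvd (by omega) hd
        omega) (T1 - T0)
      have h1 : m • T = (m - m') • T + m' • T := by
        rw [← add_smul]
        congr 1
        omega
      rw [h1] at h
      rw [map_sub]
      have h2 := congrArg (fun z => z - m' • T - pmap f ha hb T0) h
      rw [show m' • T + pmap f ha hb T1 - m' • T - pmap f ha hb T0 =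
        pmap f ha hb T1 - pmap f ha hb T0 by abel] at h2
      rw [← h2]
      abel
    rintro ⟨m, T0⟩ ⟨hm, -⟩ ⟨m', T1⟩ ⟨hm', -⟩ h
    rw [Finset.mem_coe, Finset.mem_range] at hm hm'
    simp only at h hm hm'
    rcases lt_trichotomy m m' with h1 | h1 | h1
    · exact absurd h.symm (hkey m' m hm' h1 T1 T0)
    · subst h1
      have := pmap_injective f ha hb (add_left_cancel h)
      rw [this]
    · exact absurd h (hkey m m' hm h1 T0 T1)
  have hmap : (fun p : ℕ × Pt a b =>
      p.1 • T + pmap f ha hb p.2) '' ((Finset.range l : Set ℕ) ×ˢ A) ⊆ B := by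
    rintro _ ⟨⟨m, T0⟩, ⟨-, hT0⟩, rfl⟩
    change l • (m • T + pmap f ha hb T0) = 0
    have hT0' : l • T0 = 0 := hT0
    rw [smul_add, ← mul_smul, mul_comm, mul_smul, hT, smul_zero, zero_add, ← map_nsmul, hT0',
      map_zero]
  have hcard := Set.ncard_le_ncard hmap fB
  rw [Set.InjOn.ncard_image hinj, Set.ncard_prod, Set.ncard_coe_finset, Finset.card_range]
    at hcard
  have h2 := hl.two_le
  have h3 : l * l ^ 2 ≤ l * A.ncard := Nat.mul_le_mul_left _ gA
  have h4 : 2 * l ^ 2 ≤ l * l ^ 2 := Nat.mul_le_mul_right _ h2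
  omega

/-- torsion points come from an algebraically closed subfield -/
theorem tor_mem (f : F →+* M) {a b : F} {a' b' : M} (ha : f a = a') (hb : f b = b')
    (hD : Disc a b) : ∀ (n : ℕ), 1 ≤ n → ∀ (T : Pt a' b'), n • T = 0 →
    ∃ T0 : Pt a b, pmap f ha hb T0 = T := by
  intro n
  induction n using Nat.strong_induction_on with
  | _ n ih =>
    intro hn T hT
    by_cases h1 : n = 1
    · subst h1
      rw [one_smul] at hT
      exact ⟨0, by rw [hT, map_zero]⟩
    · have hl := Nat.minFac_prime h1
      obtain ⟨m, hm⟩ := Nat.minFac_dvd n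
      have hm1 : 1 ≤ m := by
        rcases Nat.eq_zero_or_pos m with h | h
        · rw [h, mul_zero] at hm
          omega
        · exact h
      have hmn : m < n := by
        have := hl.two_le
        nlinarith
      obtain ⟨T0, hT0⟩ := prime_tor f ha hb hD hl (m • T) (by
        rw [← mul_smul, ← hm, hT])
      obtain ⟨S0, hS0⟩ := Pool.Agent.TH954.exists_nsmul_eq hD hm1 T0
      obtain ⟨R0, hR0⟩ := ih m hmn hm1 (T - pmap f ha hb S0) (by
        rw [smul_sub, ← map_nsmul, hS0, hT0, sub_self])
      exact ⟨R0 + S0, by rw [map_add, hR0, sub_add_cancel]⟩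

end

end Pool.Agent.Run7.h780.ZC
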