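import Pool.Agent.Run7.h780.ZC.Ker
import Pool.Agent.Run7.h780.ZC.Tor
import Pool.Agent.Run7.h780.ZC.Mob
import Pool.Agent.Run7.h507.Loc1

/-!
# The algebraic closure of `ℚ_p`: residues, the kernel of the reduction
-/

set_option autoImplicit false
set_option linter.all false

namespace Pool.Agent.Run7.h780.ZC

open WeierstrassCurve Pool.Agent.H901R3.MS Pool.Agent.W275.FML Polynomial
open Pool.Agent.Run7.h507.Loc1 (plp rs Bp nrm exists_frob rs_zero rs_eq)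
open scoped Classical

/-- Teichmüller representatives -/
lemma surj_gen {K κ : Type} [Field K] [IsAlgClosed K] [Field κ] (A : Subring K) (ρ : A →+* κ)
    {q : ℕ} (hq1 : 1 < q) (hA : ∀ a : K, a ^ q = a → a ∈ A) {c : κ} (hc : c ^ q = c) :
    ∃ a : A, ρ a = c := by
  obtain ⟨P, hP⟩ : ∃ P : K[X], P = X ^ q - X := ⟨_, rfl⟩
  have hPm : P.Monic := by
    rw [hP]
    exact monic_X_pow_sub (by rw [degree_X]; exact_mod_cast hq1)
  have hsp : P = (P.roots.map fun a => X - C a).prod :=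
    (IsAlgClosed.splits P).eq_prod_roots_of_monic hPm
  have hroot : ∀ a ∈ P.roots, a ∈ A := by
    intro a ha
    have h1 := (mem_roots hPm.ne_zero).1 ha
    rw [IsRoot.def, hP, eval_sub, eval_pow, eval_X, sub_eq_zero] at h1
    exact hA a h1
  obtain ⟨s, hs⟩ : ∃ s : Multiset A, s = P.roots.attach.map fun a => (⟨a.1, hroot a.1 a.2⟩ : A) :=
    ⟨_, rfl⟩
  have hPA : (X ^ q - X : A[X]) = (s.map fun a => X - C a).prod := by
    apply map_injective A.subtype Subtype.val_injective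
    rw [Polynomial.map_sub, Polynomial.map_pow, map_X, ← hP, Polynomial.map_multiset_prod]
    conv_lhs => rw [hsp]
    congr 1
    rw [hs, Multiset.map_map, Multiset.map_map]
    conv_lhs => rw [← Multiset.attach_map_val P.roots, Multiset.map_map]
    apply Multiset.map_congr rfl
    intro a _
    simp
  have h5 := congrArg (fun f => eval c (f.map ρ)) hPA
  simp only [Polynomial.map_sub, Polynomial.map_pow, map_X, eval_sub, eval_pow, eval_X,
    Polynomial.map_multiset_prod, eval_multiset_prod, Multiset.map_map] at h5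
  rw [hc, sub_self, eq_comm, Multiset.prod_eq_zero_iff, Multiset.mem_map] at h5
  obtain ⟨a, -, ha⟩ := h5
  refine ⟨a, ?_⟩
  simp only [Function.comp_apply, Polynomial.map_sub, map_X, map_C, eval_sub, eval_X, eval_C] at ha
  exact (sub_eq_zero.1 ha).symm

section
variable {p : ℕ} [hpf : Fact p.Prime]

lemma mem_v {x : PadicAlgCl p} : x ∈ (plp p).A ↔ ‖x‖ ≤ 1 := Iff.rfl

lemma v_zero {x : PadicAlgCl p} (hx : ‖x‖ ≤ 1) : (plp p).r x = 0 ↔ ‖x‖ < 1 := by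
  rw [(plp p).r_of (mem_v.2 hx)]
  exact rs_zero p ⟨x, hx⟩

lemma v_eq {x y : PadicAlgCl p} (hx : ‖x‖ ≤ 1) (hy : ‖y‖ ≤ 1) :
    (plp p).r x = (plp p).r y ↔ ‖x - y‖ < 1 := by
  rw [(plp p).r_of (mem_v.2 hx), (plp p).r_of (mem_v.2 hy)]
  exact rs_eq p ⟨x, hx⟩ ⟨y, hy⟩

lemma na_le {x y : PadicAlgCl p} {r : ℝ} (hx : ‖x‖ ≤ r) (hy : ‖y‖ ≤ r) : ‖x + y‖ ≤ r :=
  (IsUltrametricDist.norm_add_le_max x y).trans (max_le hx hy)

lemma na_lt {x y : PadicAlgCl p} {r : ℝ} (hx : ‖x‖ < r) (hy : ‖y‖ < r) : ‖x + y‖ < r :=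
  (IsUltrametricDist.norm_add_le_max x y).trans_lt (max_lt hx hy)

lemma na_one {m : PadicAlgCl p} (hm : ‖m‖ < 1) : ‖1 + m‖ = 1 := by
  apply le_antisymm (na_le (by rw [norm_one]) hm.le)
  by_contra hcon
  rw [not_le] at hcon
  have h : ‖(1 + m) + (-m)‖ < 1 := na_lt hcon (by rw [norm_neg]; exact hm)
  rw [add_neg_cancel_right, norm_one] at h
  exact lt_irrefl _ h

lemma norm_nat (n : ℕ) : ‖(n : PadicAlgCl p)‖ ≤ 1 := (plp p).nat_mem n

lemma norm_p : ‖(p : PadicAlgCl p)‖ = (p : ℝ)⁻¹ := by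
  have e : (p : PadicAlgCl p) = algebraMap ℚ_[p] (PadicAlgCl p) (p : ℚ_[p]) := by simp
  rw [e, show ‖algebraMap ℚ_[p] (PadicAlgCl p) (p : ℚ_[p])‖ = ‖(p : ℚ_[p])‖ from
    PadicAlgCl.norm_extends p _, Padic.norm_p]

/-- residues are fixed by a power of Frobenius -/
lemma exists_pow (c : AlgebraicClosure (ZMod p)) : ∃ n : ℕ, 1 ≤ n ∧ c ^ p ^ n = c := by
  let E := IntermediateField.adjoin (ZMod p) {c}
  have hint : IsIntegral (ZMod p) c := Algebra.IsIntegral.isIntegral c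
  have : FiniteDimensional (ZMod p) E := IntermediateField.adjoin.finiteDimensional hint
  have : Finite E := Module.finite_of_finite (ZMod p)
  have := Fintype.ofFinite E
  have hcard := Module.card_eq_pow_finrank (K := ZMod p) (V := E)
  rw [ZMod.card] at hcard
  refine ⟨Module.finrank (ZMod p) E, Module.finrank_pos, ?_⟩
  have h1 := FiniteField.pow_card (⟨c, IntermediateField.mem_adjoin_simple_self (ZMod p) c⟩ : E)
  rw [hcard] at h1
  exact congrArg Subtype.val h1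

/-- every residue lifts -/
lemma v_surj (c : AlgebraicClosure (ZMod p)) : ∃ x : PadicAlgCl p, ‖x‖ ≤ 1 ∧ (plp p).r x = c := by
  obtain ⟨n, hn, hc⟩ := exists_pow c
  have hq1 : 1 < p ^ n := Nat.one_lt_pow (by omega) hpf.out.one_lt
  obtain ⟨a, ha⟩ := surj_gen (Bp p) (rs p) hq1 (fun a h1 => by
    show ‖a‖ ≤ 1
    by_contra hcon
    rw [not_le] at hcon
    have h2 : ‖a‖ ^ (p ^ n) = ‖a‖ := by rw [← norm_pow, h1]
    have h3 : ‖a‖ < ‖a‖ ^ (p ^ n) := by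
      calc ‖a‖ = ‖a‖ ^ 1 := (pow_one _).symm
        _ < ‖a‖ ^ (p ^ n) := pow_lt_pow_right₀ hcon hq1
    linarith) hc
  refine ⟨a, a.2, ?_⟩
  rw [(plp p).r_of (mem_v.2 a.2)]
  exact ha

/-! ### The kernel of the reduction -/

variable {a b : PadicAlgCl p} (ha : ‖a‖ ≤ 1) (hb : ‖b‖ ≤ 1)

lemma cE1_zero : E1 (plp p) (0 : Pt a b) := by
  intro x y h e
  exact absurd e.symm (Affine.Point.some_ne_zero h)

include ha hb

lemma ctt_props {P : Pt a b} (hP : E1 (plp p) P) :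
    ‖tt P‖ < 1 ∧ (tt P = 0 → P = 0) ∧ E1 (plp p) (-P) ∧ tt (-P) = -tt P := by
  obtain ⟨h1, h2, h3, h4, h5⟩ := (tadd (plp p) (mem_v.2 ha) (mem_v.2 hb)).1 P hP
  exact ⟨(v_zero h1).1 h2, h3, h4, h5⟩

lemma ctt_add {P Q : Pt a b} (hP : E1 (plp p) P) (hQ : E1 (plp p) Q) :
    E1 (plp p) (P + Q) ∧ ∃ g : PadicAlgCl p, ‖g‖ < 1 ∧ tt (P + Q) = tt P + tt Q + tt P * tt Q * g := by
  obtain ⟨h1, g, h2, h3, h4⟩ := (tadd (plp p) (mem_v.2 ha) (mem_v.2 hb)).2 P Q hP hQ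
  exact ⟨h1, g, (v_zero h2).1 h3, h4⟩

lemma ctt_nsmul {P : Pt a b} (hP : E1 (plp p) P) (j : ℕ) :
    E1 (plp p) (j • P) ∧ ∃ g : PadicAlgCl p, ‖g‖ < 1 ∧ tt (j • P) = j * tt P + tt P ^ 2 * g := by
  have hT := (ctt_props ha hb hP).1
  induction j with
  | zero =>
    refine ⟨by rw [zero_nsmul]; exact cE1_zero, 0, by simp, ?_⟩
    rw [zero_nsmul]
    change (0 : PadicAlgCl p) = _
    push_cast
    ring
  | succ j ih =>
    obtain ⟨hj, g, g1, hg⟩ := ih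
    obtain ⟨h1, g', g2, hg'⟩ := ctt_add ha hb hj hP
    rw [succ_nsmul]
    refine ⟨h1, g + ((j : PadicAlgCl p) + tt P * g) * g', ?_, ?_⟩
    · refine na_lt g1 ?_
      rw [norm_mul]
      have h2 : ‖(j : PadicAlgCl p) + tt P * g‖ ≤ 1 := by
        refine na_le (norm_nat j) ?_
        rw [norm_mul]
        exact mul_le_one₀ hT.le (norm_nonneg _) g1.le
      calc ‖(j : PadicAlgCl p) + tt P * g‖ * ‖g'‖ ≤ 1 * ‖g'‖ := by gcongr
        _ < 1 := by rw [one_mul]; exact g2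
    · rw [hg', hg]; push_cast; ring

/-- multiples by powers of `p` are small -/
lemma ctt_small {P : Pt a b} (hP : E1 (plp p) P) {ε : ℝ} (hε : 0 < ε) :
    ∃ m : ℕ, m ≠ 0 ∧ ∀ j : ℕ, ‖tt ((j * m) • P)‖ < ε := by
  have hT := (ctt_props ha hb hP).1
  obtain ⟨ρ, hρ⟩ : ∃ ρ, ρ = max (p : ℝ)⁻¹ ‖tt P‖ := ⟨_, rfl⟩
  have hp1 : (p : ℝ)⁻¹ < 1 := by
    apply inv_lt_one_of_one_lt₀
    exact_mod_cast hpf.out.one_lt
  have hρ1 : ρ < 1 := hρ ▸ max_lt hp1 hT
  have hρ0 : 0 ≤ ρ := hρ ▸ le_max_of_le_right (norm_nonneg _)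
  have key : ∀ n : ℕ, ‖tt (p ^ n • P)‖ ≤ ρ ^ n * ‖tt P‖ := by
    intro n
    induction n with
    | zero => rw [pow_zero, one_smul, pow_zero, one_mul]
    | succ n ih =>
      have hE := (ctt_nsmul ha hb hP (p ^ n)).1
      obtain ⟨-, g, g1, hg⟩ := ctt_nsmul ha hb hE p
      rw [pow_succ, mul_comm, mul_smul, hg]
      have h1 : ‖(p : PadicAlgCl p) * tt (p ^ n • P)‖ ≤ ρ * ‖tt (p ^ n • P)‖ := by
        rw [norm_mul, norm_p]
        gcongr
        exact hρ ▸ le_max_left _ _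
      have h0 : ‖tt (p ^ n • P)‖ ≤ ‖tt P‖ := by
        refine ih.trans ?_
        exact mul_le_of_le_one_left (norm_nonneg _) (pow_le_one₀ hρ0 hρ1.le)
      have h2 : ‖tt (p ^ n • P) ^ 2 * g‖ ≤ ρ * ‖tt (p ^ n • P)‖ := by
        rw [norm_mul, norm_pow]
        calc ‖tt (p ^ n • P)‖ ^ 2 * ‖g‖ ≤ ‖tt (p ^ n • P)‖ ^ 2 * 1 := by gcongr
          _ = ‖tt (p ^ n • P)‖ * ‖tt (p ^ n • P)‖ := by ring
          _ ≤ ρ * ‖tt (p ^ n • P)‖ := by
            gcongr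
            exact h0.trans (hρ ▸ le_max_right _ _)
      calc _ ≤ ρ * ‖tt (p ^ n • P)‖ := na_le h1 h2
        _ ≤ ρ * (ρ ^ n * ‖tt P‖) := by gcongr
        _ = ρ ^ (n + 1) * ‖tt P‖ := by ring
  obtain ⟨n, hn⟩ := exists_pow_lt_of_lt_one hε hρ1
  refine ⟨p ^ n, pow_ne_zero _ hpf.out.ne_zero, fun j => ?_⟩
  rw [mul_smul]
  have hE := (ctt_nsmul ha hb hP (p ^ n)).1
  obtain ⟨-, g, g1, hg⟩ := ctt_nsmul ha hb hE j
  rw [hg]
  have h3 : ‖tt (p ^ n • P)‖ < ε := by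
    refine (key n).trans_lt ?_
    calc ρ ^ n * ‖tt P‖ ≤ ρ ^ n * 1 := by gcongr
      _ < ε := by rw [mul_one]; exact hn
  have hT' := (ctt_props ha hb hE).1
  apply na_lt
  · rw [norm_mul]
    exact (mul_le_of_le_one_left (norm_nonneg _) (norm_nat j)).trans_lt h3
  · rw [norm_mul, norm_pow]
    calc ‖tt (p ^ n • P)‖ ^ 2 * ‖g‖ ≤ ‖tt (p ^ n • P)‖ ^ 2 * 1 := by gcongr
      _ = ‖tt (p ^ n • P)‖ * ‖tt (p ^ n • P)‖ := by ring
      _ ≤ 1 * ‖tt (p ^ n • P)‖ := by gcongr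
      _ < ε := by rw [one_mul]; exact h3

/-- no torsion close to the origin -/
theorem cE1_nontorsion {P : Pt a b} (hP : E1 (plp p) P) (hs : ‖tt P‖ < (p : ℝ)⁻¹) (h0 : P ≠ 0)
    {n : ℕ} (hn : n ≠ 0) : n • P ≠ 0 := by
  have hp0 : (0 : ℝ) < (p : ℝ)⁻¹ := by
    have := hpf.out.pos
    positivity
  -- powers of p
  have key : ∀ k : ℕ, E1 (plp p) (p ^ k • P) ∧ ‖tt (p ^ k • P)‖ = (p : ℝ)⁻¹ ^ k * ‖tt P‖ := by
    intro k
    induction k with
    | zero => rw [pow_zero, one_smul, pow_zero, one_mul]; exact ⟨hP, rfl⟩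
    | succ k ih =>
      obtain ⟨hE, ih⟩ := ih
      obtain ⟨hE', g, g1, hg⟩ := ctt_nsmul ha hb hE p
      rw [pow_succ, mul_comm, mul_smul]
      refine ⟨hE', ?_⟩
      rw [hg]
      obtain ⟨z, hz⟩ : ∃ z, z = tt (p ^ k • P) := ⟨_, rfl⟩
      rw [← hz] at ih ⊢
      have hzp : ‖z‖ < (p : ℝ)⁻¹ := by
        rw [ih]
        refine lt_of_le_of_lt ?_ hs
        apply mul_le_of_le_one_left (norm_nonneg _)
        apply pow_le_one₀ hp0.le
        have : (1 : ℝ) ≤ p := by exact_mod_cast hpf.out.one_le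
        exact inv_le_one_of_one_le₀ this
      have e : (p : PadicAlgCl p) * z + z ^ 2 * g = (p * z) * (1 + z * g / p) := by
        have : (p : PadicAlgCl p) ≠ 0 := by
          intro h
          have h2 := norm_p (p := p)
          rw [h, norm_zero] at h2
          linarith
        field_simp
      rw [e, norm_mul, na_one, mul_one, norm_mul, norm_p, ih]
      · ring
      · rw [norm_div, norm_mul, norm_p, div_lt_one hp0]
        calc ‖z‖ * ‖g‖ ≤ ‖z‖ * 1 := by gcongr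
          _ < _ := by rw [mul_one]; exact hzp
  obtain ⟨m, hm⟩ := pow_padicValNat_dvd (p := p) (n := n)
  obtain ⟨k, hk⟩ : ∃ k, k = padicValNat p n := ⟨_, rfl⟩
  rw [← hk] at hm
  have hmp : ¬ p ∣ m := by
    intro hd
    have : p ^ (k + 1) ∣ n := by
      rw [pow_succ]
      conv_rhs => rw [hm]
      exact mul_dvd_mul_left _ hd
    exact pow_succ_padicValNat_not_dvd hn (hk ▸ this)
  intro h1
  rw [hm, mul_comm, mul_smul] at h1
  obtain ⟨hR, hRn⟩ := key k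
  obtain ⟨-, g, g1, hg⟩ := ctt_nsmul ha hb hR m
  rw [h1] at hg
  change (0 : PadicAlgCl p) = _ at hg
  have hpos : 0 < ‖tt P‖ := norm_pos_iff.2 fun h => h0 ((ctt_props ha hb hP).2.1 h)
  have hR0 : tt (p ^ k • P) ≠ 0 := by
    intro h2
    rw [h2, norm_zero] at hRn
    have : 0 < (p : ℝ)⁻¹ ^ k * ‖tt P‖ := by positivity
    linarith
  have h3 : (m : PadicAlgCl p) + tt (p ^ k • P) * g = 0 := by
    have : tt (p ^ k • P) * ((m : PadicAlgCl p) + tt (p ^ k • P) * g) = 0 := by rw [hg]; ring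
    exact (mul_eq_zero.1 this).resolve_left hR0
  have h4 : ‖(m : PadicAlgCl p)‖ = 1 := by
    have h5 : ‖((m : ℚ_[p]))‖ = 1 := by
      have := (Padic.norm_natCast_lt_one_iff (p := p) (n := m)).not.2 hmp
      have h5 : ‖(m : ℚ_[p])‖ ≤ 1 := by exact_mod_cast Padic.norm_int_le_one (p := p) (m : ℤ)
      exact le_antisymm h5 (not_lt.1 this)
    have e : (m : PadicAlgCl p) = algebraMap ℚ_[p] (PadicAlgCl p) (m : ℚ_[p]) := by simp
    rw [e, show ‖algebraMap ℚ_[p] (PadicAlgCl p) (m : ℚ_[p])‖ = ‖(m : ℚ_[p])‖ from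
      PadicAlgCl.norm_extends p _, h5]
  have h5 : (m : PadicAlgCl p) = -(tt (p ^ k • P) * g) := by linear_combination h3
  rw [h5, norm_neg, norm_mul] at h4
  have h6 : ‖tt (p ^ k • P)‖ * ‖g‖ < 1 := by
    calc ‖tt (p ^ k • P)‖ * ‖g‖ ≤ 1 * ‖g‖ := by
          gcongr
          exact (ctt_props ha hb hR).1.le
      _ < 1 := by rw [one_mul]; exact g1
  linarith

end

end Pool.Agent.Run7.h780.ZC
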