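import Pool.Agent.Run7.h780.ZC.Geo

/-!
# Rational equivalences on a product of two elliptic curves: the quotient and the curves of genus two
-/

set_option autoImplicit false
set_option linter.all false

namespace Pool.Agent.Run7.h780.ZC

open WeierstrassCurve Pool.Agent.H901R3.MS
open scoped Classical

variable {k : Type} [Field k]

/-- the Chow group of zero-cycles -/
abbrev CH (a b c d : k) : Type := ((Pt a b × Pt c d) →₀ ℤ) ⧸ RatEquivZero a b c d

variable [IsAlgClosed k] [CharZero k]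

/-- the class of `([P] - [0]) × ([Q] - [0])` is bilinear -/
theorem exists_bil {a b c d : k} (hD : Disc a b) (hD' : Disc c d) :
    ∃ B : Pt a b →+ Pt c d →+ CH a b c d, ∀ P Q,
      B P Q = QuotientAddGroup.mk (cyc P Q) := by
  have h1 : ∀ (P : Pt a b) (Q₁ Q₂ : Pt c d),
      (QuotientAddGroup.mk (cyc P (Q₁ + Q₂)) : CH a b c d) =
        QuotientAddGroup.mk (cyc P Q₁) + QuotientAddGroup.mk (cyc P Q₂) := by
    intro P Q₁ Q₂
    have k1 := bilin2 hD hD' P Q₁ Q₂
    have k2 := bilin2 hD hD' (0 : Pt a b) Q₁ Q₂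
    rw [← QuotientAddGroup.mk_add, QuotientAddGroup.eq]
    have k3 := AddSubgroup.sub_mem _ k1 k2
    convert k3 using 1
    unfold cyc
    abel
  have h2 : ∀ (P₁ P₂ : Pt a b) (Q : Pt c d),
      (QuotientAddGroup.mk (cyc (P₁ + P₂) Q) : CH a b c d) =
        QuotientAddGroup.mk (cyc P₁ Q) + QuotientAddGroup.mk (cyc P₂ Q) := by
    intro P₁ P₂ Q
    have k1 := bilin1 hD hD' P₁ P₂ Q
    have k2 := bilin1 hD hD' P₁ P₂ (0 : Pt c d)
    rw [← QuotientAddGroup.mk_add, QuotientAddGroup.eq]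
    have k3 := AddSubgroup.sub_mem _ k1 k2
    convert k3 using 1
    unfold cyc
    abel
  refine ⟨AddMonoidHom.mk' (fun P => AddMonoidHom.mk' (fun Q => QuotientAddGroup.mk (cyc P Q))
    (fun Q₁ Q₂ => h1 P Q₁ Q₂)) (fun P₁ P₂ => ?_), fun P Q => rfl⟩
  ext Q
  exact h2 P₁ P₂ Q

/-- The data of a curve of genus two: the Möbius transformation `μ x = (al x + be) / (x - γ)` maps the
roots of `x³ + a x + b` to the roots of `u³ + c u + d`. -/
structure Mob (a b c d al be γ c0 : k) : Prop where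
  c0_ne : c0 ≠ 0
  i3 : al ^ 3 + c * al + d = c0
  i2 : 3 * al ^ 2 * be + c * (be - 2 * γ * al) - 3 * γ * d = 0
  i1 : 3 * al * be ^ 2 + c * (al * γ ^ 2 - 2 * γ * be) + 3 * γ ^ 2 * d = c0 * a
  i0 : be ^ 3 + c * be * γ ^ 2 - d * γ ^ 3 = c0 * b
  nd : al * γ + be ≠ 0

/-- the point on the second curve -/
lemma Mob.ns {a b c d al be γ c0 : k} (M : Mob a b c d al be γ c0) (hD' : Disc c d)
    {F : Type} [Field F] (f : k →+* F) {x y s : F} (hx : x ≠ f γ)
    (hE : Eqn (f a) (f b) x y) (hs : s ^ 2 = f c0 * (x - f γ)) :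
    (CV (f c) (f d)).toAffine.Nonsingular ((f al * x + f be) / (x - f γ))
      (s * y / (x - f γ) ^ 2) := by
  have hD'' : Disc (f c) (f d) := by
    unfold Disc at *
    have h : (2 : F) * (4 * f c ^ 3 + 27 * f d ^ 2) = f (2 * (4 * c ^ 3 + 27 * d ^ 2)) := by
      simp only [map_add, map_mul, map_pow, map_ofNat]
    rw [h]
    exact (map_ne_zero _).2 hD'
  rw [nonsingular_iff hD'']
  have h0 : x - f γ ≠ 0 := sub_ne_zero.2 hx
  have j3 := congrArg f M.i3
  have j2 := congrArg f M.i2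
  have j1 := congrArg f M.i1
  have j0 := congrArg f M.i0
  simp only [map_add, map_mul, map_pow, map_sub, map_ofNat, map_zero] at j3 j2 j1 j0
  unfold Eqn at *
  have key : (f al * x + f be) ^ 3 + f c * (f al * x + f be) * (x - f γ) ^ 2 +
      f d * (x - f γ) ^ 3 = f c0 * y ^ 2 := by
    rw [hE]
    linear_combination x ^ 3 * j3 + x ^ 2 * j2 + x * j1 + j0
  have e1 : (s * y / (x - f γ) ^ 2) ^ 2 = f c0 * y ^ 2 / (x - f γ) ^ 3 := by
    rw [div_pow, mul_pow, hs]
    field_simp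
  rw [e1, ← key]
  field_simp

/-- the relation on the curve of genus two -/
theorem curve_rel {a b c d al be γ c0 : k} (M : Mob a b c d al be γ c0) (hD : Disc a b)
    (hD' : Disc c d) (B : Pt a b →+ Pt c d →+ CH a b c d)
    (hB : ∀ P Q, B P Q = QuotientAddGroup.mk (cyc P Q)) {x y s : k}
    (hP : (CV a b).toAffine.Nonsingular x y) (hx : x ≠ γ) (hs : s ^ 2 = c0 * (x - γ))
    (hQ : (CV c d).toAffine.Nonsingular ((al * x + be) / (x - γ)) (s * y / (x - γ) ^ 2)) :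
    2 • B (Affine.Point.some x y hP) (Affine.Point.some _ _ hQ) = 0 := by
  obtain ⟨w, w', v, v', S⟩ := exists_St k
  obtain ⟨red, hr⟩ := exists_red S.s0 hD
  obtain ⟨red', hr'⟩ := exists_red S.s1 hD
  obtain ⟨rdd, hq⟩ := exists_red S.s0 hD'
  obtain ⟨rdd', hq'⟩ := exists_red S.s1 hD'
  have cA : ∀ e : k, io k e ∈ v.A := fun e => (S.s0.mem _).2 (S.s0.cst e)
  have cA' : ∀ e : k, io k e ∈ v'.A := fun e => (S.s1.mem _).2 (S.s1.cst e)
  -- a root of the cubic
  obtain ⟨e1, he1⟩ : ∃ e1 : k, e1 ^ 3 + a * e1 + b = 0 := by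
    obtain ⟨z, hz⟩ := IsAlgClosed.exists_root (Polynomial.X ^ 3 + Polynomial.C a * Polynomial.X +
      Polynomial.C b) (by
        have : (Polynomial.X ^ 3 + Polynomial.C a * Polynomial.X + Polynomial.C b).degree = 3 := by
          compute_degree!
        rw [this]; norm_num)
    exact ⟨z, by simpa using hz⟩
  have hT1 : (CV a b).toAffine.Nonsingular e1 0 := (nonsingular_iff hD).2 (by
    unfold Eqn; rw [he1]; ring)
  have he1γ : e1 ≠ γ := by
    intro h
    rw [h] at he1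
    apply M.nd
    have h3 : (al * γ + be) ^ 3 = 0 := by
      linear_combination γ ^ 3 * M.i3 + γ ^ 2 * M.i2 + γ * M.i1 + M.i0 + c0 * he1
    exact pow_eq_zero_iff (by norm_num) |>.1 h3
  obtain ⟨s1, hs1⟩ := IsAlgClosed.exists_pow_nat_eq (c0 * (e1 - γ)) (n := 2) (by norm_num)
  have hT2 : (CV c d).toAffine.Nonsingular ((al * e1 + be) / (e1 - γ)) 0 := by
    have := M.ns hD' (RingHom.id k) (x := e1) (y := 0) (s := s1) he1γ (by
      unfold Eqn; simp only [RingHom.id_apply]; rw [he1]; ring) hs1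
    simpa using this
  -- the family
  obtain ⟨s', hsσ, m1, r1, m2, r2⟩ := interp S s s1
  set X : Om k := io k γ + s' ^ 2 / io k c0 with hX
  have hc0 : io k c0 ≠ 0 := (map_ne_zero _).2 M.c0_ne
  have hXs : s' ^ 2 = io k c0 * (X - io k γ) := by
    rw [hX]
    field_simp
    ring
  have hXσ : ∀ σ : Om k ≃ₐ[RatFunc k] Om k, σ X = X := by
    intro σ
    have k1 : σ (io k γ) = io k γ := sigma_io σ γ
    have k2 : σ (io k c0) = io k c0 := sigma_io σ c0
    rw [hX, map_add, map_div₀, map_pow, hsσ, k1, k2]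
  have hrc : v.r (io k c0) ≠ 0 := by rw [S.s0.con]; exact M.c0_ne
  have hrc' : v'.r (io k c0) ≠ 0 := by rw [S.s1.con]; exact M.c0_ne
  have hXA : X ∈ v.A := v.A.add_mem (cA γ) (v.div_mem (v.A.pow_mem m1 2) hrc)
  have hXA' : X ∈ v'.A := v'.A.add_mem (cA' γ) (v'.div_mem (v'.A.pow_mem m2 2) hrc')
  have hXr : v.r X = x := by
    rw [hX, v.r_add (cA γ) (v.div_mem (v.A.pow_mem m1 2) hrc), v.r_div (v.A.pow_mem m1 2) hrc,
      v.r_pow m1, r1, S.s0.con, S.s0.con, hs]
    have := M.c0_ne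
    field_simp
    ring
  have hXr' : v'.r X = e1 := by
    rw [hX, v'.r_add (cA' γ) (v'.div_mem (v'.A.pow_mem m2 2) hrc'),
      v'.r_div (v'.A.pow_mem m2 2) hrc', v'.r_pow m2, r2, S.s1.con, S.s1.con, hs1]
    have := M.c0_ne
    field_simp
    ring
  have hdr : v.r (X - io k γ) ≠ 0 := by
    rw [v.r_sub hXA (cA γ), hXr, S.s0.con]
    exact sub_ne_zero.2 hx
  have hdr' : v'.r (X - io k γ) ≠ 0 := by
    rw [v'.r_sub hXA' (cA' γ), hXr', S.s1.con]
    exact sub_ne_zero.2 he1γ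
  have hXγ : X ≠ io k γ := sub_ne_zero.1 (v.ne_zero_of_r_ne hdr)
  have hdA : X - io k γ ∈ v.A := v.A.sub_mem hXA (cA γ)
  have hdA' : X - io k γ ∈ v'.A := v'.A.sub_mem hXA' (cA' γ)
  obtain ⟨Y, hns, hYσ⟩ := lift_x hD X hXσ
  have hns2 := M.ns hD' (io k) (x := X) (y := Y) (s := s') hXγ (eqn_of hns) hXs
  set X2 : Om k := (io k al * X + io k be) / (X - io k γ) with hX2
  set Y2 : Om k := s' * Y / (X - io k γ) ^ 2 with hY2
  have hX2A : X2 ∈ v.A := v.div_mem (v.A.add_mem (v.A.mul_mem (cA al) hXA) (cA be)) hdr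
  have hX2A' : X2 ∈ v'.A := v'.div_mem (v'.A.add_mem (v'.A.mul_mem (cA' al) hXA') (cA' be)) hdr'
  have hX2r : v.r X2 = (al * x + be) / (x - γ) := by
    rw [hX2, v.r_div (v.A.add_mem (v.A.mul_mem (cA al) hXA) (cA be)) hdr,
      v.r_add (v.A.mul_mem (cA al) hXA) (cA be), v.r_mul (cA al) hXA, v.r_sub hXA (cA γ), hXr,
      S.s0.con, S.s0.con, S.s0.con]
  have hX2r' : v'.r X2 = (al * e1 + be) / (e1 - γ) := by
    rw [hX2, v'.r_div (v'.A.add_mem (v'.A.mul_mem (cA' al) hXA') (cA' be)) hdr',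
      v'.r_add (v'.A.mul_mem (cA' al) hXA') (cA' be), v'.r_mul (cA' al) hXA', v'.r_sub hXA' (cA' γ),
      hXr', S.s1.con, S.s1.con, S.s1.con]
  have hX2σ : ∀ σ : Om k ≃ₐ[RatFunc k] Om k, σ X2 = X2 := by
    intro σ
    have k1 : σ (io k γ) = io k γ := sigma_io σ γ
    have k2 : σ (io k al) = io k al := sigma_io σ al
    have k3 : σ (io k be) = io k be := sigma_io σ be
    rw [hX2, map_div₀, map_sub, map_add, map_mul, hXσ, k1, k2, k3]
  set P' : Pt (io k a) (io k b) := Affine.Point.some X Y hns with hP'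
  set Q' : Pt (io k c) (io k d) := Affine.Point.some X2 Y2 hns2 with hQ'
  have hσ : ∀ σ : Om k ≃ₐ[RatFunc k] Om k, (gal σ P' = P' ∧ gal σ Q' = Q') ∨
      (gal σ P' = -P' ∧ gal σ Q' = -Q') := by
    intro σ
    have k1 : σ (io k γ) = io k γ := sigma_io σ γ
    have hY2σ : σ Y2 = s' * σ Y / (X - io k γ) ^ 2 := by
      rw [hY2, map_div₀, map_mul, map_pow, map_sub, hsσ, hXσ, k1]
    rcases (hYσ σ).1 with h | h
    · left
      constructor
      · rw [hP', gal_some, Affine.Point.some.injEq]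
        exact ⟨hXσ σ, h⟩
      · rw [hQ', gal_some, Affine.Point.some.injEq]
        exact ⟨hX2σ σ, by rw [hY2σ, h, hY2]⟩
    · right
      constructor
      · rw [hP', gal_some, neg_some' hns (neg_ns hns), Affine.Point.some.injEq]
        exact ⟨hXσ σ, h⟩
      · rw [hQ', gal_some, neg_some' hns2 (neg_ns hns2), Affine.Point.some.injEq]
        exact ⟨hX2σ σ, by rw [hY2σ, h, hY2]; ring⟩
  have hmem := pair_mem S hr hr' hq hq' P' (-P') Q' (-Q') (fun σ => by
    rcases hσ σ with ⟨h1, h2⟩ | ⟨h1, h2⟩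
    · left
      rw [map_neg, map_neg, h1, h2]
      exact ⟨rfl, rfl, rfl, rfl⟩
    · right
      rw [map_neg, map_neg, h1, h2, neg_neg, neg_neg]
      exact ⟨rfl, rfl, rfl, rfl⟩)
  set P : Pt a b := Affine.Point.some x y hP with hPd
  set Q : Pt c d := Affine.Point.some _ _ hQ with hQd
  -- specialisation at `t = 0`
  have h0 : (red P' = P ∧ rdd Q' = Q) ∨ (red P' = -P ∧ rdd Q' = -Q) := by
    obtain ⟨hYA, hY⟩ := red_of_x hr hns hXA hP hXr
    have hY2r : v.r Y2 = s * v.r Y / (x - γ) ^ 2 := by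
      have hd2 : v.r ((X - io k γ) ^ 2) ≠ 0 := by
        rw [v.r_pow hdA]; exact pow_ne_zero _ hdr
      rw [hY2, v.r_div (v.A.mul_mem m1 hYA) hd2, v.r_mul m1 hYA, v.r_pow hdA, v.r_sub hXA (cA γ),
        hXr, r1, S.s0.con]
    obtain ⟨-, h', e'⟩ := hq.2 X2 Y2 hns2 hX2A
    rcases hY with ⟨h1, h2⟩ | ⟨h1, h2⟩
    · left
      refine ⟨h2, ?_⟩
      rw [hQ', e', hQd, Affine.Point.some.injEq]
      exact ⟨hX2r, by rw [hY2r, h1]⟩
    · right
      refine ⟨h2, ?_⟩
      rw [hQ', e', hQd, neg_some' hQ (neg_ns hQ), Affine.Point.some.injEq]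
      exact ⟨hX2r, by rw [hY2r, h1]; ring⟩
  -- specialisation at `t = ∞`
  set T1 : Pt a b := Affine.Point.some e1 0 hT1 with hT1d
  set T2 : Pt c d := Affine.Point.some _ 0 hT2 with hT2d
  have hT1n : -T1 = T1 := by
    rw [hT1d, neg_some' hT1 (neg_ns hT1), Affine.Point.some.injEq]
    exact ⟨rfl, neg_zero⟩
  have hT2n : -T2 = T2 := by
    rw [hT2d, neg_some' hT2 (neg_ns hT2), Affine.Point.some.injEq]
    exact ⟨rfl, neg_zero⟩
  have h1 : red' P' = T1 ∧ rdd' Q' = T2 := by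
    obtain ⟨hYA, hY⟩ := red_of_x hr' hns hXA' hT1 hXr'
    have hY0 : v'.r Y = 0 := by
      rcases hY with ⟨h1, -⟩ | ⟨h1, -⟩
      · exact h1
      · rw [h1, neg_zero]
    have hP1 : red' P' = T1 := by
      rcases hY with ⟨-, h1⟩ | ⟨-, h1⟩
      · exact h1
      · rw [h1]; exact hT1n
    refine ⟨hP1, ?_⟩
    have hY2r : v'.r Y2 = 0 := by
      have hd2 : v'.r ((X - io k γ) ^ 2) ≠ 0 := by
        rw [v'.r_pow hdA']; exact pow_ne_zero _ hdr'
      rw [hY2, v'.r_div (v'.A.mul_mem m2 hYA) hd2, v'.r_mul m2 hYA, hY0, mul_zero, zero_div]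
    obtain ⟨-, h', e'⟩ := hq'.2 X2 Y2 hns2 hX2A'
    rw [hQ', e', hT2d, Affine.Point.some.injEq]
    exact ⟨hX2r', hY2r⟩
  rw [map_neg, map_neg, map_neg, map_neg, h1.1, h1.2, hT1n, hT2n] at hmem
  -- in the quotient
  have hPQ : Finsupp.single (P, Q) 1 + Finsupp.single (-P, -Q) 1 - Finsupp.single (T1, T2) 1 -
      Finsupp.single (T1, T2) 1 ∈ RatEquivZero a b c d := by
    rcases h0 with ⟨h2, h3⟩ | ⟨h2, h3⟩
    · rw [h2, h3] at hmem
      exact hmem
    · rw [h2, h3, neg_neg, neg_neg] at hmem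
      convert hmem using 1
      abel
  have hgen : ∀ (P : Pt a b) (Q : Pt c d), 2 • B P Q =
      (QuotientAddGroup.mk (Finsupp.single (P, Q) 1 + Finsupp.single (-P, -Q) 1 -
        2 • Finsupp.single (0, 0) 1) : CH a b c d) := by
    intro P Q
    have e1 : 2 • B P Q = B P Q + B (-P) (-Q) := by
      rw [two_nsmul, map_neg, map_neg, AddMonoidHom.neg_apply, neg_neg]
    rw [e1, hB, hB, ← QuotientAddGroup.mk_add, QuotientAddGroup.eq]
    have k1 := bilin1 hD hD' P (-P) 0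
    have k2 := bilin2 hD hD' 0 Q (-Q)
    rw [add_neg_cancel] at k1 k2
    have k3 := AddSubgroup.add_mem _ k1 k2
    convert k3 using 1
    unfold cyc
    rw [two_nsmul]
    abel
  have hfin : 2 • B P Q = 2 • B T1 T2 := by
    rw [hgen, hgen, QuotientAddGroup.eq, hT1n, hT2n]
    have := AddSubgroup.neg_mem _ hPQ
    convert this using 1
    abel
  rw [hfin, two_nsmul]
  have e2 : B T1 T2 + B T1 T2 = B (T1 + T1) T2 := by
    rw [map_add, AddMonoidHom.add_apply]
  rw [e2]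
  have e3 : T1 + T1 = 0 := by
    conv_lhs => rw [← hT1n]
    conv_lhs => rw [← hT1n]
    rw [hT1n]
    nth_rewrite 1 [← hT1n]
    rw [neg_add_cancel]
  rw [e3, map_zero, AddMonoidHom.zero_apply]

end Pool.Agent.Run7.h780.ZC
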