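import Pool.Agent.Run7.h780.ZC.Cp
import Pool.Agent.H341R2.Stepanov

/-!
# Points over finite fields, Frobenius elements
-/

set_option autoImplicit false
set_option linter.all false

namespace Pool.Agent.Run7.h780.ZC

open WeierstrassCurve Pool.Agent.H901R3.MS Polynomial
open Pool.Agent.Run7.h507.Loc1 (plp rs Bp nrm exists_frob rs_zero rs_eq Gp)
open scoped Classical

section count
variable {F : Type} [Field F] [Fintype F] {a b : F}

/-- a point whose abscissa is a given nonsquare shift -/
lemma exists_nonsquare' (hchar : ringChar F ≠ 2) (hp : 3000 ≤ Fintype.card F) {γ c0 : F}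
    (hγ : γ ^ 3 + a * γ + b ≠ 0) (hc : c0 ≠ 0) :
    ∃ x y : F, y ^ 2 = x ^ 3 + a * x + b ∧ y ≠ 0 ∧ x ≠ γ ∧ ¬ IsSquare (c0 * (x - γ)) := by
  by_contra hcon
  push Not at hcon
  set χ := quadraticChar (F) with hχ
  set f : (F)[X] := X ^ 3 + C a * X + C b with hf
  set l : (F)[X] := C c0 * (X - C γ) with hl
  have hfe : ∀ x, f.eval x = x ^ 3 + a * x + b := fun x => by simp [hf]
  have hle : ∀ x, l.eval x = c0 * (x - γ) := fun x => by simp [hl]
  have hfd : f.natDegree = 3 := by rw [hf]; compute_degree!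
  have hld : l.natDegree = 1 := by
    rw [hl, natDegree_C_mul hc, natDegree_X_sub_C]
  have hfl : (f * l).natDegree = 4 := by
    rw [natDegree_mul (by intro h0; rw [h0] at hfd; simp at hfd)
      (by intro h0; rw [h0] at hld; simp at hld), hfd, hld]
  -- not squares
  have hnsf : ∀ (c : F) (g : (F)[X]), f ≠ C c * g ^ 2 := by
    intro c g hg
    have h1 := congrArg natDegree hg
    rw [hfd] at h1
    by_cases hc' : c = 0
    · rw [hc', C_0, zero_mul, natDegree_zero] at h1; omega
    · rw [natDegree_C_mul hc', natDegree_pow] at h1; omega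
  have hnsfl : ∀ (c : F) (g : (F)[X]), f * l ≠ C c * g ^ 2 := by
    intro c g hg
    have h1 : (X - C γ) ∣ C c * g ^ 2 := by
      rw [← hg, hl]
      exact Dvd.intro_left (f * C c0) (by ring)
    have hc' : c ≠ 0 := by
      rintro rfl
      rw [C_0, zero_mul] at hg
      rw [hg, natDegree_zero] at hfl
      omega
    have h2 : (X - C γ) ∣ g := by
      rw [dvd_iff_isRoot, IsRoot.def, eval_mul, eval_C, eval_pow] at h1
      rw [dvd_iff_isRoot, IsRoot.def]
      exact pow_eq_zero_iff (two_ne_zero) |>.1 ((mul_eq_zero.1 h1).resolve_left hc')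
    obtain ⟨g', rfl⟩ := h2
    have h3 : (X - C γ) * (f * C c0) = (X - C γ) * (C c * (X - C γ) * g' ^ 2) := by
      calc (X - C γ) * (f * C c0) = f * l := by rw [hl]; ring
        _ = C c * ((X - C γ) * g') ^ 2 := hg
        _ = _ := by ring
    have h4 := mul_left_cancel₀ (X_sub_C_ne_zero γ) h3
    have h5 := congrArg (eval γ) h4
    have h6 : eval γ (C c * (X - C γ) * g' ^ 2) = 0 := by simp
    rw [h6, eval_mul, hfe, eval_C] at h5
    exact mul_ne_zero hγ hc h5
  have w1 := Pool.Agent.H341R2.weil_bound hchar f (by omega) hnsf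
  have w2 := Pool.Agent.H341R2.weil_bound hchar (f * l) (by omega) hnsfl
  rw [hfd] at w1
  rw [hfl] at w2
  -- the sum of the linear polynomial is zero
  have w3 : ∑ x : F, (χ (l.eval x) : ℝ) = 0 := by
    have e1 : ∑ x : F, (χ (l.eval x) : ℤ) = 0 := by
      have e2 : ∑ x : F, χ (l.eval x) = ∑ z : F, χ z := by
        refine Fintype.sum_bijective (fun x => l.eval x) ?_ _ _ (fun x => rfl)
        constructor
        · intro x y hxy
          simp only [hle] at hxy
          have := mul_left_cancel₀ hc hxy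
          exact sub_left_injective this
        · intro z
          refine ⟨z / c0 + γ, ?_⟩
          simp only [hle]
          field_simp
          ring
      rw [e2]
      exact MulChar.sum_eq_zero_of_ne_one (quadraticChar_ne_one hchar)
    exact_mod_cast e1
  have hχ0 : χ (0 : F) = 0 := quadraticChar_zero
  -- pointwise inequality
  have hpt : ∀ x : F, ((1 + (χ (f.eval x) : ℝ)) * (1 - (χ (l.eval x) : ℝ))) ≤
      (if f.eval x = 0 then 2 else 0) + (if l.eval x = 0 then 2 else 0) := by
    intro x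
    have hv : ∀ z : F, (χ z : ℝ) = 0 ∨ (χ z : ℝ) = 1 ∨ (χ z : ℝ) = -1 := by
      intro z
      by_cases hz : z = 0
      · left; rw [hz, hχ0]; norm_num
      · right
        rcases quadraticChar_dichotomy hz with h | h
        · left; rw [hχ, h]; norm_num
        · right; rw [hχ, h]; norm_num
    have hb : ∀ z : F, |(χ z : ℝ)| ≤ 1 := by
      intro z
      rcases hv z with h | h | h <;> rw [h] <;> norm_num
    by_cases hf0 : f.eval x = 0
    · rw [if_pos hf0, hf0]
      have := abs_le.1 (hb (l.eval x))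
      have h0 : (χ (0 : F) : ℝ) = 0 := by rw [hχ0]; norm_num
      rw [h0]
      split_ifs <;> linarith [this.1]
    · by_cases hl0 : l.eval x = 0
      · rw [if_neg hf0, if_pos hl0, hl0]
        have := abs_le.1 (hb (f.eval x))
        have h0 : (χ (0 : F) : ℝ) = 0 := by rw [hχ0]; norm_num
        rw [h0]
        linarith [this.2]
      · rw [if_neg hf0, if_neg hl0]
        rcases quadraticChar_dichotomy hf0 with h1 | h1
        · have hsq : IsSquare (f.eval x) := (quadraticChar_one_iff_isSquare hf0).1 h1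
          obtain ⟨y, hy⟩ := hsq
          have hxγ : x ≠ γ := by
            intro h0
            apply hl0
            rw [hle, h0, sub_self, mul_zero]
          have hy0 : y ≠ 0 := by
            rintro rfl
            apply hf0
            rw [hy, mul_zero]
          have h2 := hcon x y (by rw [← hfe, hy]; ring) hy0 hxγ
          have h3 : χ (l.eval x) = 1 := by
            rw [quadraticChar_one_iff_isSquare hl0, hle]
            exact h2
          rw [h3]
          norm_num
        · rw [hχ, h1]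
          norm_num
  have hsum := Finset.sum_le_sum (s := Finset.univ) fun x _ => hpt x
  have hLHS : ∑ x : F, ((1 + (χ (f.eval x) : ℝ)) * (1 - (χ (l.eval x) : ℝ))) =
      (Fintype.card F : ℝ) + ∑ x : F, (χ (f.eval x) : ℝ) - ∑ x : F, (χ (l.eval x) : ℝ) -
        ∑ x : F, (χ ((f * l).eval x) : ℝ) := by
    have e1 : ∀ x : F, ((1 + (χ (f.eval x) : ℝ)) * (1 - (χ (l.eval x) : ℝ))) =
        1 + (χ (f.eval x) : ℝ) - (χ (l.eval x) : ℝ) - (χ ((f * l).eval x) : ℝ) := by
      intro x
      rw [Polynomial.eval_mul (p := f) (q := l), map_mul]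
      push_cast
      ring
    rw [Finset.sum_congr rfl fun x _ => e1 x, Finset.sum_sub_distrib, Finset.sum_sub_distrib,
      Finset.sum_add_distrib, Finset.sum_const, Finset.card_univ, nsmul_eq_mul, mul_one]
  have hRHS : ∑ x : F, (((if f.eval x = 0 then 2 else 0) : ℝ) +
      (if l.eval x = 0 then 2 else 0)) ≤ 8 := by
    rw [Finset.sum_add_distrib]
    have r1 : ∑ x : F, (if f.eval x = 0 then (2 : ℝ) else 0) ≤ 6 := by
      rw [← Finset.sum_filter, Finset.sum_const, nsmul_eq_mul]
      have hf0 : f ≠ 0 := by intro h0; rw [h0] at hfd; simp at hfd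
      have : (Finset.univ.filter fun x : F => f.eval x = 0).card ≤ 3 := by
        calc (Finset.univ.filter fun x : F => f.eval x = 0).card ≤ f.roots.toFinset.card := by
              apply Finset.card_le_card
              intro x hx
              rw [Multiset.mem_toFinset, mem_roots hf0]
              exact (Finset.mem_filter.1 hx).2
          _ ≤ Multiset.card f.roots := Multiset.toFinset_card_le _
          _ ≤ f.natDegree := card_roots' _
          _ = 3 := hfd
      have h2 : ((Finset.univ.filter fun x : F => f.eval x = 0).card : ℝ) ≤ 3 := by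
        exact_mod_cast this
      linarith
    have r2 : ∑ x : F, (if l.eval x = 0 then (2 : ℝ) else 0) ≤ 2 := by
      rw [← Finset.sum_filter, Finset.sum_const, nsmul_eq_mul]
      have : (Finset.univ.filter fun x : F => l.eval x = 0).card ≤ 1 := by
        refine le_trans (Finset.card_le_card (t := {γ}) ?_) (by simp)
        intro x hx
        rw [Finset.mem_filter, hle] at hx
        rw [Finset.mem_singleton]
        exact sub_eq_zero.1 ((mul_eq_zero.1 hx.2).resolve_left hc)
      have h2 : ((Finset.univ.filter fun x : F => l.eval x = 0).card : ℝ) ≤ 1 := by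
        exact_mod_cast this
      linarith
    linarith
  rw [hLHS, w3] at hsum
  have hsq : Real.sqrt (Fintype.card F : ℝ) * 40 ≤ (Fintype.card F : ℝ) := by
    have h1 : Real.sqrt (Fintype.card F : ℝ) ^ 2 = (Fintype.card F : ℝ) := Real.sq_sqrt (by positivity)
    have h2 : (40 : ℝ) ≤ Real.sqrt (Fintype.card F : ℝ) := by
      rw [show (40 : ℝ) = Real.sqrt (40 ^ 2) by rw [Real.sqrt_sq (by norm_num)]]
      apply Real.sqrt_le_sqrt
      have : ((3000 : ℕ) : ℝ) ≤ (Fintype.card F : ℝ) := by exact_mod_cast hp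
      norm_num at this ⊢
      linarith
    nlinarith
  have h40 : (40 : ℝ) ≤ Real.sqrt (Fintype.card F : ℝ) := by
    rw [show (40 : ℝ) = Real.sqrt (40 ^ 2) by rw [Real.sqrt_sq (by norm_num)]]
    apply Real.sqrt_le_sqrt
    have : ((3000 : ℕ) : ℝ) ≤ (Fintype.card F : ℝ) := by exact_mod_cast hp
    norm_num at this ⊢
    linarith
  have a1 := (abs_le.1 w1).1
  have a2 := (abs_le.1 w2).2
  rw [← hχ] at a1 a2
  push_cast at a1 a2
  linarith

end count

/-- a permutation of a finite set with an odd number of elements has an orbit of odd length -/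
lemma exists_odd {X : Type} [Finite X] (hX : Odd (Nat.card X)) (π : Equiv.Perm X) :
    ∃ (x : X) (r : ℕ), Odd r ∧ (π ^ r) x = x := by
  have hfin : IsOfFinOrder π := isOfFinOrder_of_finite π
  have hpos : orderOf π ≠ 0 := hfin.orderOf_pos.ne'
  obtain ⟨s, m, hm, hsm⟩ := Nat.exists_eq_two_pow_mul_odd hpos
  have h2 : (π ^ m) ^ (2 ^ s) = 1 := by
    rw [← pow_mul, mul_comm, ← hsm, pow_orderOf_eq_one]
  have hG : IsPGroup 2 (Subgroup.zpowers (π ^ m)) := by
    rintro ⟨g, hg⟩
    obtain ⟨j, rfl⟩ := hg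
    refine ⟨s, ?_⟩
    apply Subtype.ext
    show ((π ^ m) ^ j) ^ (2 ^ s) = 1
    rw [← zpow_natCast, ← zpow_mul, mul_comm, zpow_mul, zpow_natCast, h2, one_zpow]
  obtain ⟨x, hx⟩ := hG.nonempty_fixed_point_of_prime_not_dvd_card X
    (fun h => by
      have := hX.not_two_dvd_nat
      exact this h)
  refine ⟨x, m, hm, ?_⟩
  exact hx ⟨π ^ m, Subgroup.mem_zpowers _⟩

section frob
variable {p : ℕ} [hpf : Fact p.Prime]

lemma r_frob {σ : Gp p} (hσ : ∀ x : PadicAlgCl p, ‖x‖ ≤ 1 → ‖σ x - x ^ p‖ < 1)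
    {x : PadicAlgCl p} (hx : ‖x‖ ≤ 1) (n : ℕ) :
    (plp p).r ((σ ^ n) x) = (plp p).r x ^ (p ^ n) := by
  induction n with
  | zero => rw [pow_zero, pow_zero, pow_one]; rfl
  | succ n ih =>
    have h1 : ‖(σ ^ n) x‖ ≤ 1 := by rw [nrm]; exact hx
    have h2 : (σ ^ (n + 1)) x = σ ((σ ^ n) x) := by rw [pow_succ']; rfl
    have h3 : ‖σ ((σ ^ n) x)‖ ≤ 1 := by rw [nrm]; exact h1
    have h4 : ‖((σ ^ n) x) ^ p‖ ≤ 1 := by rw [norm_pow]; exact pow_le_one₀ (norm_nonneg _) h1
    rw [h2, (v_eq h3 h4).2 (hσ _ h1), (plp p).r_pow (mem_v.2 h1), ih, ← pow_mul, ← pow_succ]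

/-- a power of an automorphism fixes a given element -/
lemma fin_order (σ : Gp p) (x : PadicAlgCl p) : ∃ n : ℕ, n ≠ 0 ∧ (σ ^ n) x = x := by
  have hint : IsIntegral ℚ_[p] x := Algebra.IsIntegral.isIntegral x
  have hmem : ∀ n : ℕ, (σ ^ n) x ∈ (minpoly ℚ_[p] x).rootSet (PadicAlgCl p) := by
    intro n
    rw [mem_rootSet]
    refine ⟨minpoly.ne_zero hint, ?_⟩
    rw [← AlgEquiv.coe_algHom, Polynomial.aeval_algHom_apply, minpoly.aeval, map_zero]
  have hfin : ((minpoly ℚ_[p] x).rootSet (PadicAlgCl p)).Finite := rootSet_finite _ _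
  have := hfin.to_subtype
  obtain ⟨i, j, hij, he⟩ := Finite.exists_ne_map_eq_of_infinite
    (fun n : ℕ => (⟨(σ ^ n) x, hmem n⟩ : (minpoly ℚ_[p] x).rootSet (PadicAlgCl p)))
  have he' : (σ ^ i) x = (σ ^ j) x := congrArg Subtype.val he
  have key : ∀ i j : ℕ, i < j → (σ ^ i) x = (σ ^ j) x → ∃ n : ℕ, n ≠ 0 ∧ (σ ^ n) x = x := by
    intro i j hij h
    refine ⟨j - i, by omega, ?_⟩
    apply (σ ^ i).injective
    rw [h]
    have : σ ^ j = σ ^ i * σ ^ (j - i) := by rw [← pow_add]; congr 1; omega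
    rw [this]
    rfl
  rcases lt_or_gt_of_ne hij with h | h
  · exact key i j h he'
  · exact key j i h he'.symm

lemma pow_fix {σ : Gp p} {x : PadicAlgCl p} {n : ℕ} (h : (σ ^ n) x = x) (m : ℕ) :
    (σ ^ (n * m)) x = x := by
  induction m with
  | zero => rfl
  | succ m ih =>
    rw [Nat.mul_succ, pow_add]
    show (σ ^ (n * m)) ((σ ^ n) x) = x
    rw [h, ih]

/-- a power of an automorphism fixes finitely many elements -/
lemma fin_order_set (σ : Gp p) (T : Finset (PadicAlgCl p)) :
    ∃ n : ℕ, n ≠ 0 ∧ ∀ x ∈ T, ∀ m : ℕ, (σ ^ (n * m)) x = x := by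
  choose f hf hf' using fin_order σ
  refine ⟨∏ x ∈ T, f x, Finset.prod_ne_zero_iff.2 fun x _ => hf x, fun x hx m => ?_⟩
  obtain ⟨c, hc⟩ := Finset.dvd_prod_of_mem f hx
  rw [hc, mul_assoc]
  exact pow_fix (hf' x) _

/-- a power of an automorphism fixes finitely many elements and a finite extension -/
lemma fin_order_field (σ : Gp p) (T : Finset (PadicAlgCl p))
    (F : IntermediateField ℚ_[p] (PadicAlgCl p)) [FiniteDimensional ℚ_[p] F] :
    ∃ n : ℕ, n ≠ 0 ∧ ∀ m : ℕ, (∀ x ∈ T, (σ ^ (n * m)) x = x) ∧ ∀ x ∈ F, (σ ^ (n * m)) x = x := by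
  let B := Module.finBasis ℚ_[p] F
  obtain ⟨n, hn, h⟩ := fin_order_set σ (T ∪ Finset.univ.image fun i => (B i : PadicAlgCl p))
  refine ⟨n, hn, fun m => ⟨fun x hx => h x (Finset.mem_union_left _ hx) m, fun x hx => ?_⟩⟩
  have hfg : ((σ ^ (n * m) : Gp p).toLinearMap ∘ₗ F.val.toLinearMap : F →ₗ[ℚ_[p]] PadicAlgCl p) =
      F.val.toLinearMap := B.ext fun i =>
    h _ (Finset.mem_union_right _ (Finset.mem_image_of_mem _ (Finset.mem_univ i))) m
  exact LinearMap.congr_fun hfg ⟨x, hx⟩

end frob

end Pool.Agent.Run7.h780.ZC
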