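import Pool.Agent.Run7.h780.ZC.Defs

/-!
# Functoriality of the points
-/

set_option autoImplicit false
set_option linter.all false

namespace Pool.Agent.Run7.h780.ZC

open WeierstrassCurve Pool.Agent.H901R3.MS

section cast
variable {F : Type} [Field F] [DecidableEq F] {W W' : WeierstrassCurve F}

/-- transport of points along an equality of curves -/
noncomputable def castPt (h : W = W') : W.toAffine.Point ≃+ W'.toAffine.Point := by
  subst h
  exact AddEquiv.refl _

theorem castPt_some (h : W = W') (x y : F) (hx : W.toAffine.Nonsingular x y)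
    (hx' : W'.toAffine.Nonsingular x y) :
    castPt h (Affine.Point.some x y hx) = Affine.Point.some x y hx' := by
  subst h
  rfl

theorem castPt_symm_some (h : W = W') (x y : F) (hx : W.toAffine.Nonsingular x y)
    (hx' : W'.toAffine.Nonsingular x y) :
    (castPt h).symm (Affine.Point.some x y hx') = Affine.Point.some x y hx := by
  subst h
  rfl

end cast

section map
variable {F K : Type} [Field F] [Field K] [DecidableEq F] [DecidableEq K]

theorem ns_map (f : F →+* K) {a b : F} {a' b' : K} (ha : f a = a') (hb : f b = b') {x y : F}
    (h : (CV a b).toAffine.Nonsingular x y) : (CV a' b').toAffine.Nonsingular (f x) (f y) := by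
  have e : (CV a b).map f = CV a' b' := by
    ext <;> simp [CV, WeierstrassCurve.map, ha, hb]
  rw [← e]
  exact (WeierstrassCurve.Affine.map_nonsingular _ f.injective _ _).mpr h

theorem ns_desc (f : F →+* K) {a b : F} {a' b' : K} (ha : f a = a') (hb : f b = b') {x y : F}
    (h : (CV a' b').toAffine.Nonsingular (f x) (f y)) : (CV a b).toAffine.Nonsingular x y := by
  have e : (CV a b).map f = CV a' b' := by
    ext <;> simp [CV, WeierstrassCurve.map, ha, hb]
  rw [← e] at h
  exact (WeierstrassCurve.Affine.map_nonsingular _ f.injective _ _).mp h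

/-- the map of points given by a homomorphism of fields -/
theorem exists_pmap (f : F →+* K) {a b : F} {a' b' : K} (ha : f a = a') (hb : f b = b') :
    ∃ g : Pt a b →+ Pt a' b', ∀ x y (h : (CV a b).toAffine.Nonsingular x y),
      g (Affine.Point.some x y h) = Affine.Point.some (f x) (f y) (ns_map f ha hb h) := by
  letI := f.toAlgebra
  have e1 : (CV a b).baseChange F = CV a b := by
    ext <;> simp [CV, WeierstrassCurve.baseChange, WeierstrassCurve.map]
  have e2 : (CV a b).baseChange K = CV a' b' := by
    have : algebraMap F K = f := rfl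
    ext <;> simp [CV, WeierstrassCurve.baseChange, WeierstrassCurve.map, this, ha, hb]
  refine ⟨((castPt e2).toAddMonoidHom.comp (Affine.Point.map (W' := CV a b) (R := F) (S := F)
    (Algebra.ofId F K))).comp (castPt e1).symm.toAddMonoidHom, fun x y h => ?_⟩
  have h' : ((CV a b).baseChange F).toAffine.Nonsingular x y := by rw [e1]; exact h
  have e3 : (castPt e1).symm (Affine.Point.some x y h) = Affine.Point.some x y h' :=
    castPt_symm_some e1 x y h' h
  show (castPt e2) (Affine.Point.map (W' := CV a b) (R := F) (S := F) (Algebra.ofId F K)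
    ((castPt e1).symm (Affine.Point.some x y h))) = _
  rw [e3, Affine.Point.map_some]
  exact castPt_some e2 _ _ _ _

/-- the map of points given by a homomorphism of fields -/
noncomputable def pmap (f : F →+* K) {a b : F} {a' b' : K} (ha : f a = a') (hb : f b = b') :
    Pt a b →+ Pt a' b' := (exists_pmap f ha hb).choose

theorem pmap_some (f : F →+* K) {a b : F} {a' b' : K} (ha : f a = a') (hb : f b = b') {x y : F}
    (h : (CV a b).toAffine.Nonsingular x y) :
    pmap f ha hb (Affine.Point.some x y h) = Affine.Point.some (f x) (f y) (ns_map f ha hb h) :=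
  (exists_pmap f ha hb).choose_spec x y h

theorem pmap_injective (f : F →+* K) {a b : F} {a' b' : K} (ha : f a = a') (hb : f b = b') :
    Function.Injective (pmap f ha hb) := by
  intro P Q h
  rcases P with _ | ⟨x, y, hP⟩ <;> rcases Q with _ | ⟨x', y', hQ⟩
  · rfl
  · exfalso
    have h0 : pmap f ha hb (0 : Pt a b) = 0 := map_zero _
    change pmap f ha hb 0 = _ at h
    rw [h0, pmap_some] at h
    exact Affine.Point.some_ne_zero _ h.symm
  · exfalso
    have h0 : pmap f ha hb (0 : Pt a b) = 0 := map_zero _
    change _ = pmap f ha hb 0 at h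
    rw [h0, pmap_some] at h
    exact Affine.Point.some_ne_zero _ h
  · rw [pmap_some, pmap_some, Affine.Point.some.injEq] at h
    obtain ⟨h1, h2⟩ := h
    have h1' := f.injective h1
    have h2' := f.injective h2
    subst h1' h2'
    rfl

theorem coords_pmap (f : F →+* K) {a b : F} {a' b' : K} (ha : f a = a') (hb : f b = b')
    (P : Pt a b) : coords (pmap f ha hb P) = (coords P).map (Prod.map f f) := by
  rcases P with _ | ⟨x, y, hP⟩
  · have h0 : pmap f ha hb (0 : Pt a b) = 0 := map_zero _
    change coords (pmap f ha hb 0) = _
    rw [h0]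
    rfl
  · rw [pmap_some]
    rfl

theorem coords_injective {a b : F} : Function.Injective (coords : Pt a b → Option (F × F)) := by
  intro P Q h
  rcases P with _ | ⟨x, y, hxy⟩ <;> rcases Q with _ | ⟨x', y', hxy'⟩
  · rfl
  · simp [coords] at h
  · simp [coords] at h
  · simp only [coords, Option.some.injEq, Prod.mk.injEq] at h
    obtain ⟨rfl, rfl⟩ := h
    rfl

theorem pmap_unique (f : F →+* K) {a b : F} {a' b' : K} (ha : f a = a') (hb : f b = b')
    (P : Pt a b) (Q : Pt a' b') (h : coords Q = (coords P).map (Prod.map f f)) :
    Q = pmap f ha hb P := by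
  apply coords_injective
  rw [coords_pmap, h]

end map

end Pool.Agent.Run7.h780.ZC
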