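import Pool.Agent.Run7.h780.ZC.Plc
import Pool.Agent.Run7.h780.ZC.Pts
import Pool.Agent.TH954.STor

/-!
# Rational equivalences on a product of two elliptic curves: bilinearity
-/

set_option autoImplicit false
set_option linter.all false

namespace Pool.Agent.Run7.h780.ZC

open WeierstrassCurve Pool.Agent.H901R3.MS
open scoped Classical

variable {k : Type} [Field k]

/-- the place `v` belongs to the valuation ring `w` and is the identity on the constants -/
structure Sp (w : ValuationSubring (Om k)) (v : Place (Om k) k) : Prop where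
  mem : ∀ x, x ∈ v.A ↔ x ∈ w
  con : ∀ e : k, v.r (io k e) = e
  val : ∀ x, w.valuation x < 1 ↔ x ∈ v.A ∧ v.r x = 0
  cst : ∀ e : k, io k e ∈ w

/-- the map `red` is the reduction at `v` -/
def IsRed (v : Place (Om k) k) {a b : k} (red : Pt (io k a) (io k b) →+ Pt a b) : Prop :=
  (∀ x y (h : (CV (io k a) (io k b)).toAffine.Nonsingular x y), x ∉ v.A →
    red (Affine.Point.some x y h) = 0) ∧
  ∀ x y (h : (CV (io k a) (io k b)).toAffine.Nonsingular x y), x ∈ v.A →
    y ∈ v.A ∧ ∃ h', red (Affine.Point.some x y h) = Affine.Point.some (v.r x) (v.r y) h'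

theorem exists_red {w : ValuationSubring (Om k)} {v : Place (Om k) k} (hv : Sp w v) {a b : k}
    (hD : Disc a b) : ∃ red : Pt (io k a) (io k b) →+ Pt a b, IsRed v red := by
  have key : ∀ (A' B' : k), v.r (io k a) = A' → v.r (io k b) = B' → Disc A' B' →
      ∃ red : Pt (io k a) (io k b) →+ Pt A' B',
      (∀ x y (h : (CV (io k a) (io k b)).toAffine.Nonsingular x y), x ∉ v.A →
        red (Affine.Point.some x y h) = 0) ∧
      ∀ x y (h : (CV (io k a) (io k b)).toAffine.Nonsingular x y), x ∈ v.A →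
        y ∈ v.A ∧ ∃ h', red (Affine.Point.some x y h) = Affine.Point.some (v.r x) (v.r y) h' := by
    rintro _ _ rfl rfl hdisc
    obtain ⟨red, -, h2, h3⟩ := t_R6K t_R1K t_R2K t_R3K t_R4K t_R5K (Om k) k v
      (io k a) (io k b) ((hv.mem _).2 (hv.cst a)) ((hv.mem _).2 (hv.cst b)) hdisc
    exact ⟨red, fun x y h hx => h2 x y h hx, fun x y h hx => h3 x y h hx⟩
  exact key a b (hv.con a) (hv.con b) hD

lemma spec_red {w : ValuationSubring (Om k)} {v : Place (Om k) k} (hv : Sp w v) {a b : k}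
    {red : Pt (io k a) (io k b) →+ Pt a b} (hr : IsRed v red) (P : Pt (io k a) (io k b)) :
    Specializes w P (red P) := by
  rcases P with _ | ⟨x, y, h⟩
  · have h0 : red 0 = 0 := map_zero red
    change Specializes w 0 (red 0)
    rw [h0]
    exact trivial
  · by_cases hx : x ∈ v.A
    · obtain ⟨hy, h', e⟩ := hr.2 x y h hx
      rw [e]
      change w.valuation (x - io k (v.r x)) < 1 ∧ w.valuation (y - io k (v.r y)) < 1
      have key : ∀ z ∈ v.A, w.valuation (z - io k (v.r z)) < 1 := by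
        intro z hz
        have h1 := (hv.mem _).2 (hv.cst (v.r z))
        rw [hv.val]
        refine ⟨v.A.sub_mem hz h1, ?_⟩
        rw [v.r_sub hz h1, hv.con, sub_self]
      exact ⟨key x hx, key y hy⟩
    · rw [hr.1 x y h hx]
      change x ∉ w
      rwa [← hv.mem]

/-- the constant points -/
noncomputable def cst {a b : k} : Pt a b →+ Pt (io k a) (io k b) := pmap (io k) rfl rfl

lemma red_cst {w : ValuationSubring (Om k)} {v : Place (Om k) k} (hv : Sp w v) {a b : k}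
    {red : Pt (io k a) (io k b) →+ Pt a b} (hr : IsRed v red) (P : Pt a b) :
    red (cst P) = P := by
  rcases P with _ | ⟨x, y, h⟩
  · change red (cst 0) = 0
    rw [map_zero, map_zero]
  · rw [cst, pmap_some]
    obtain ⟨hy, h', e⟩ := hr.2 _ _ (ns_map (io k) rfl rfl h) ((hv.mem _).2 (hv.cst x))
    rw [e, Affine.Point.some.injEq]
    exact ⟨hv.con x, hv.con y⟩

lemma sigma_io (σ : Om k ≃ₐ[RatFunc k] Om k) (e : k) : (σ : Om k →+* Om k) (io k e) = io k e := by
  rw [io_eq]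
  exact σ.commutes _

/-- the action of the automorphisms over `k(t)` -/
noncomputable def gal {a b : k} (σ : Om k ≃ₐ[RatFunc k] Om k) :
    Pt (io k a) (io k b) →+ Pt (io k a) (io k b) :=
  pmap (σ : Om k →+* Om k) (sigma_io σ a) (sigma_io σ b)

lemma gal_some {a b : k} (σ : Om k ≃ₐ[RatFunc k] Om k) {x y : Om k}
    (h : (CV (io k a) (io k b)).toAffine.Nonsingular x y) :
    gal σ (Affine.Point.some x y h) = Affine.Point.some (σ x) (σ y)
      (ns_map (σ : Om k →+* Om k) (sigma_io σ a) (sigma_io σ b) h) := by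
  rw [gal, pmap_some]
  rfl

lemma coords_gal {a b : k} (σ : Om k ≃ₐ[RatFunc k] Om k) (P : Pt (io k a) (io k b)) :
    coords (gal σ P) = (coords P).map (Prod.map σ σ) := by
  rw [gal, coords_pmap]
  rfl

lemma gal_cst {a b : k} (σ : Om k ≃ₐ[RatFunc k] Om k) (P : Pt a b) : gal σ (cst P) = cst P := by
  rcases P with _ | ⟨x, y, h⟩
  · change gal σ (cst 0) = cst 0
    rw [map_zero, map_zero]
  · rw [cst, pmap_some, gal_some, Affine.Point.some.injEq]
    exact ⟨sigma_io σ x, sigma_io σ y⟩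

/-- the setting: the two places and the reductions -/
structure St (w w' : ValuationSubring (Om k)) (v v' : Place (Om k) k) : Prop where
  s0 : Sp w v
  s1 : Sp w' v'
  t0 : w.valuation (tv k) < 1
  t1 : w'.valuation (tv k)⁻¹ < 1

theorem exists_St (k : Type) [Field k] [IsAlgClosed k] : ∃ (w w' : ValuationSubring (Om k))
    (v v' : Place (Om k) k), St w w' v v' := by
  obtain ⟨w, w', v, v', h1, h2, h3, h4, ⟨h5, h6, h7⟩, h8, h9, h10⟩ := exists_places k
  exact ⟨w, w', v, v', ⟨⟨h5, h6, h7, h1⟩, ⟨h8, h9, h10, h3⟩, h2, h4⟩⟩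

/-- a family with two members -/
lemma pair_mem {w w' : ValuationSubring (Om k)} {v v' : Place (Om k) k} (S : St w w' v v')
    {a b c d : k} {red : Pt (io k a) (io k b) →+ Pt a b} {red' : Pt (io k a) (io k b) →+ Pt a b}
    {rdd : Pt (io k c) (io k d) →+ Pt c d} {rdd' : Pt (io k c) (io k d) →+ Pt c d}
    (h1 : IsRed v red) (h2 : IsRed v' red') (h3 : IsRed v rdd) (h4 : IsRed v' rdd')
    (P₁ P₂ : Pt (io k a) (io k b)) (Q₁ Q₂ : Pt (io k c) (io k d))
    (hst : ∀ σ : Om k ≃ₐ[RatFunc k] Om k,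
      (gal σ P₁ = P₁ ∧ gal σ Q₁ = Q₁ ∧ gal σ P₂ = P₂ ∧ gal σ Q₂ = Q₂) ∨
      (gal σ P₁ = P₂ ∧ gal σ Q₁ = Q₂ ∧ gal σ P₂ = P₁ ∧ gal σ Q₂ = Q₁)) :
    Finsupp.single (red P₁, rdd Q₁) 1 + Finsupp.single (red P₂, rdd Q₂) 1 -
      Finsupp.single (red' P₁, rdd' Q₁) 1 - Finsupp.single (red' P₂, rdd' Q₂) 1 ∈
      RatEquivZero a b c d := by
  refine AddSubgroup.subset_closure ⟨2, ![(P₁, Q₁), (P₂, Q₂)], w, w',
    ![(red P₁, rdd Q₁), (red P₂, rdd Q₂)], ![(red' P₁, rdd' Q₁), (red' P₂, rdd' Q₂)],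
    ?_, S.s0.cst, S.t0, S.s1.cst, S.t1, ?_, ?_, ?_⟩
  · intro σ
    rcases hst σ with ⟨e1, e2, e3, e4⟩ | ⟨e1, e2, e3, e4⟩
    · refine ⟨1, fun i => ?_⟩
      fin_cases i
      · change coords P₁ = _ ∧ coords Q₁ = _
        rw [← coords_gal, ← coords_gal]
        exact ⟨congrArg coords e1.symm, congrArg coords e2.symm⟩
      · change coords P₂ = _ ∧ coords Q₂ = _
        rw [← coords_gal, ← coords_gal]
        exact ⟨congrArg coords e3.symm, congrArg coords e4.symm⟩
    · refine ⟨Equiv.swap 0 1, fun i => ?_⟩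
      fin_cases i
      · change coords (![(P₁, Q₁), (P₂, Q₂)] (Equiv.swap 0 1 0)).1 = _ ∧
          coords (![(P₁, Q₁), (P₂, Q₂)] (Equiv.swap 0 1 0)).2 = _
        rw [Equiv.swap_apply_left]
        change coords P₂ = _ ∧ coords Q₂ = _
        rw [← coords_gal, ← coords_gal]
        exact ⟨congrArg coords e1.symm, congrArg coords e2.symm⟩
      · change coords (![(P₁, Q₁), (P₂, Q₂)] (Equiv.swap 0 1 1)).1 = _ ∧
          coords (![(P₁, Q₁), (P₂, Q₂)] (Equiv.swap 0 1 1)).2 = _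
        rw [Equiv.swap_apply_right]
        change coords P₁ = _ ∧ coords Q₁ = _
        rw [← coords_gal, ← coords_gal]
        exact ⟨congrArg coords e3.symm, congrArg coords e4.symm⟩
  · intro i
    fin_cases i
    · exact ⟨spec_red S.s0 h1 _, spec_red S.s0 h3 _⟩
    · exact ⟨spec_red S.s0 h1 _, spec_red S.s0 h3 _⟩
  · intro i
    fin_cases i
    · exact ⟨spec_red S.s1 h2 _, spec_red S.s1 h4 _⟩
    · exact ⟨spec_red S.s1 h2 _, spec_red S.s1 h4 _⟩
  · rw [Fin.sum_univ_two]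
    simp only [Matrix.cons_val_zero, Matrix.cons_val_one, Matrix.cons_val_fin_one]
    abel

variable [IsAlgClosed k] [CharZero k]

lemma disc_io {a b : k} (hD : Disc a b) : Disc (io k a) (io k b) := by
  unfold Disc at *
  have h : (2 : Om k) * (4 * io k a ^ 3 + 27 * io k b ^ 2) = io k (2 * (4 * a ^ 3 + 27 * b ^ 2)) := by
    simp only [map_add, map_mul, map_pow, map_ofNat]
  rw [h]
  exact (map_ne_zero _).2 hD

/-- a point with a given abscissa in `k(t)` -/
lemma lift_x {a b : k} (hD : Disc a b) (X : Om k)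
    (hX : ∀ σ : Om k ≃ₐ[RatFunc k] Om k, σ X = X) :
    ∃ (Y : Om k) (h : (CV (io k a) (io k b)).toAffine.Nonsingular X Y),
      ∀ σ : Om k ≃ₐ[RatFunc k] Om k, (σ Y = Y ∨ σ Y = -Y) ∧
        (gal σ (Affine.Point.some X Y h : Pt (io k a) (io k b)) = Affine.Point.some X Y h ∨
        gal σ (Affine.Point.some X Y h : Pt (io k a) (io k b)) = -Affine.Point.some X Y h) := by
  obtain ⟨Y, hY⟩ := IsAlgClosed.exists_pow_nat_eq (X ^ 3 + io k a * X + io k b) (n := 2) (by norm_num)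
  have hns : (CV (io k a) (io k b)).toAffine.Nonsingular X Y := (nonsingular_iff (disc_io hD)).2 hY
  refine ⟨Y, hns, fun σ => ?_⟩
  have h1 : σ Y ^ 2 = Y ^ 2 := by
    rw [← map_pow, hY, map_add, map_add, map_mul, map_pow, hX]
    have e1 : σ (io k a) = io k a := sigma_io σ a
    have e2 : σ (io k b) = io k b := sigma_io σ b
    rw [e1, e2]
  rcases sq_eq_sq_iff_eq_or_eq_neg.mp h1 with h | h
  · refine ⟨Or.inl h, Or.inl ?_⟩
    rw [gal_some, Affine.Point.some.injEq]
    exact ⟨hX σ, h⟩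
  · refine ⟨Or.inr h, Or.inr ?_⟩
    have hns' : (CV (io k a) (io k b)).toAffine.Nonsingular X (-Y) :=
      (nonsingular_iff (disc_io hD)).2 (by unfold Eqn; rw [neg_sq]; exact hY)
    rw [gal_some, neg_some' hns hns', Affine.Point.some.injEq]
    exact ⟨hX σ, h⟩

lemma neg_ns {F : Type} [Field F] {a b x y : F} (h : (CV a b).toAffine.Nonsingular x y) :
    (CV a b).toAffine.Nonsingular x (-y) := by
  have := (Affine.nonsingular_neg x y).2 h
  simpa [Affine.negY, CV] using this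

/-- the reduction of a point with a given abscissa -/
lemma red_of_x {v : Place (Om k) k} {a b : k}
    {red : Pt (io k a) (io k b) →+ Pt a b} (hr : IsRed v red) {X Y : Om k}
    (h : (CV (io k a) (io k b)).toAffine.Nonsingular X Y) (hX : X ∈ v.A) {x y : k}
    (hns : (CV a b).toAffine.Nonsingular x y) (hx : v.r X = x) :
    Y ∈ v.A ∧ ((v.r Y = y ∧ red (Affine.Point.some X Y h) = Affine.Point.some x y hns) ∨
      (v.r Y = -y ∧ red (Affine.Point.some X Y h) = -Affine.Point.some x y hns)) := by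
  obtain ⟨hy, h', e⟩ := hr.2 X Y h hX
  subst hx
  refine ⟨hy, ?_⟩
  have h1 : v.r Y ^ 2 = y ^ 2 := by
    have k1 := eqn_of h'
    have k2 := eqn_of hns
    unfold Eqn at k1 k2
    rw [k1, k2]
  rcases sq_eq_sq_iff_eq_or_eq_neg.mp h1 with h2 | h2
  · left
    refine ⟨h2, ?_⟩
    rw [e, Affine.Point.some.injEq]
    exact ⟨rfl, h2⟩
  · right
    refine ⟨h2, ?_⟩
    rw [e, neg_some' hns (neg_ns hns), Affine.Point.some.injEq]
    exact ⟨rfl, h2⟩

lemma sigma_tv (σ : Om k ≃ₐ[RatFunc k] Om k) : σ (tv k) = tv k := σ.commutes _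

/-- interpolation between two constants -/
lemma interp {w w' : ValuationSubring (Om k)} {v v' : Place (Om k) k} (S : St w w' v v')
    (x x' : k) : ∃ X : Om k, (∀ σ : Om k ≃ₐ[RatFunc k] Om k, σ X = X) ∧ X ∈ v.A ∧ v.r X = x ∧
      X ∈ v'.A ∧ v'.r X = x' := by
  obtain ⟨htA, ht⟩ := (S.s0.val _).1 S.t0
  obtain ⟨htA', ht'⟩ := (S.s1.val _).1 S.t1
  have cA : ∀ e : k, io k e ∈ v.A := fun e => (S.s0.mem _).2 (S.s0.cst e)
  have cA' : ∀ e : k, io k e ∈ v'.A := fun e => (S.s1.mem _).2 (S.s1.cst e)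
  have hd : v.r (1 + tv k) ≠ 0 := by
    rw [v.r_add v.A.one_mem htA, ht, v.r_one, add_zero]
    exact one_ne_zero
  have hd' : v'.r ((tv k)⁻¹ + 1) ≠ 0 := by
    rw [v'.r_add htA' v'.A.one_mem, ht', v'.r_one, zero_add]
    exact one_ne_zero
  have hne : (1 + tv k) ≠ 0 := v.ne_zero_of_r_ne hd
  have hne' : ((tv k)⁻¹ + 1) ≠ 0 := v'.ne_zero_of_r_ne hd'
  have htv : tv k ≠ 0 := tv_ne
  have e : (io k x + tv k * io k x') / (1 + tv k) =
      (io k x * (tv k)⁻¹ + io k x') / ((tv k)⁻¹ + 1) := by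
    rw [div_eq_div_iff hne hne']
    field_simp
  refine ⟨(io k x + tv k * io k x') / (1 + tv k), fun σ => ?_, ?_, ?_, ?_, ?_⟩
  · have e1 : σ (io k x) = io k x := sigma_io σ x
    have e2 : σ (io k x') = io k x' := sigma_io σ x'
    rw [map_div₀, map_add, map_mul, map_add, sigma_tv, map_one, e1, e2]
  · exact v.div_mem (v.A.add_mem (cA x) (v.A.mul_mem htA (cA x'))) hd
  · rw [v.r_div (v.A.add_mem (cA x) (v.A.mul_mem htA (cA x'))) hd,
      v.r_add (cA x) (v.A.mul_mem htA (cA x')), v.r_mul htA (cA x'),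
      v.r_add v.A.one_mem htA, ht, v.r_one, S.s0.con, zero_mul, add_zero, add_zero, div_one]
  · rw [e]
    exact v'.div_mem (v'.A.add_mem (v'.A.mul_mem (cA' x) htA') (cA' x')) hd'
  · rw [e, v'.r_div (v'.A.add_mem (v'.A.mul_mem (cA' x) htA') (cA' x')) hd',
      v'.r_add (v'.A.mul_mem (cA' x) htA') (cA' x'), v'.r_mul (cA' x) htA',
      v'.r_add htA' v'.A.one_mem, ht', v'.r_one, mul_zero, zero_add, zero_add, div_one, S.s1.con]

/-- a family of points between `± A` and `± B` -/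
lemma exists_U {w w' : ValuationSubring (Om k)} {v v' : Place (Om k) k} (S : St w w' v v')
    {a b : k} (hD : Disc a b) {red red' : Pt (io k a) (io k b) →+ Pt a b}
    (hr : IsRed v red) (hr' : IsRed v' red') (A B : Pt a b) :
    ∃ U : Pt (io k a) (io k b), (red U = A ∨ red U = -A) ∧ (red' U = B ∨ red' U = -B) ∧
      ∀ σ : Om k ≃ₐ[RatFunc k] Om k, gal σ U = U ∨ gal σ U = -U := by
  obtain ⟨htA, ht⟩ := (S.s0.val _).1 S.t0
  obtain ⟨htA', ht'⟩ := (S.s1.val _).1 S.t1
  have cA : ∀ e : k, io k e ∈ v.A := fun e => (S.s0.mem _).2 (S.s0.cst e)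
  have cA' : ∀ e : k, io k e ∈ v'.A := fun e => (S.s1.mem _).2 (S.s1.cst e)
  have htn : (tv k)⁻¹ ∉ v.A := by
    intro h
    have h1 := v.r_mul htA h
    rw [mul_inv_cancel₀ tv_ne, ht, zero_mul, v.r_one] at h1
    exact one_ne_zero h1
  have htn' : tv k ∉ v'.A := by
    intro h
    have h1 := v'.r_mul h htA'
    rw [mul_inv_cancel₀ tv_ne, ht', mul_zero, v'.r_one] at h1
    exact one_ne_zero h1
  rcases A with _ | ⟨x, y, h⟩ <;> rcases B with _ | ⟨x', y', h'⟩
  · refine ⟨0, Or.inl (map_zero _), Or.inl (map_zero _), fun σ => Or.inl (map_zero _)⟩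
  · obtain ⟨Y, hns, hσ⟩ := lift_x hD (io k x' + (tv k)⁻¹) (fun σ => by
      have e1 : σ (io k x') = io k x' := sigma_io σ x'
      rw [map_add, map_inv₀, sigma_tv, e1])
    refine ⟨_, Or.inl (hr.1 _ _ hns ?_), ?_, fun σ => (hσ σ).2⟩
    · intro hX
      apply htn
      have := v.A.sub_mem hX (cA x')
      rwa [add_sub_cancel_left] at this
    · obtain ⟨-, h1⟩ := red_of_x hr' hns (v'.A.add_mem (cA' x') htA') h' (by
        rw [v'.r_add (cA' x') htA', ht', S.s1.con, add_zero])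
      rcases h1 with h1 | h1
      · exact Or.inl h1.2
      · exact Or.inr h1.2
  · obtain ⟨Y, hns, hσ⟩ := lift_x hD (io k x + tv k) (fun σ => by
      have e1 : σ (io k x) = io k x := sigma_io σ x
      rw [map_add, sigma_tv, e1])
    refine ⟨_, ?_, Or.inl (hr'.1 _ _ hns ?_), fun σ => (hσ σ).2⟩
    · obtain ⟨-, h1⟩ := red_of_x hr hns (v.A.add_mem (cA x) htA) h (by
        rw [v.r_add (cA x) htA, ht, S.s0.con, add_zero])
      rcases h1 with h1 | h1
      · exact Or.inl h1.2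
      · exact Or.inr h1.2
    · intro hX
      apply htn'
      have := v'.A.sub_mem hX (cA' x)
      rwa [add_sub_cancel_left] at this
  · obtain ⟨X, hX, m1, r1, m2, r2⟩ := interp S x x'
    obtain ⟨Y, hns, hσ⟩ := lift_x hD X hX
    refine ⟨_, ?_, ?_, fun σ => (hσ σ).2⟩
    · obtain ⟨-, h1⟩ := red_of_x hr hns m1 h r1
      rcases h1 with h1 | h1
      · exact Or.inl h1.2
      · exact Or.inr h1.2
    · obtain ⟨-, h1⟩ := red_of_x hr' hns m2 h' r2
      rcases h1 with h1 | h1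
      · exact Or.inl h1.2
      · exact Or.inr h1.2

/-- additivity in the first variable -/
theorem bilin1 {a b c d : k} (hD : Disc a b) (hD' : Disc c d) (P₁ P₂ : Pt a b) (Q : Pt c d) :
    Finsupp.single (P₁, Q) 1 + Finsupp.single (P₂, Q) 1 - Finsupp.single (P₁ + P₂, Q) 1 -
      Finsupp.single (0, Q) 1 ∈ RatEquivZero a b c d := by
  obtain ⟨w, w', v, v', S⟩ := exists_St k
  obtain ⟨red, hr⟩ := exists_red S.s0 hD
  obtain ⟨red', hr'⟩ := exists_red S.s1 hD
  obtain ⟨rdd, hs⟩ := exists_red S.s0 hD'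
  obtain ⟨rdd', hs'⟩ := exists_red S.s1 hD'
  obtain ⟨H, hH⟩ := Pool.Agent.TH954.exists_nsmul_eq hD (n := 2) (by norm_num) (P₁ + P₂)
  rw [two_nsmul] at hH
  obtain ⟨U, hU, hU', hσ⟩ := exists_U S hD hr hr' (P₁ - H) H
  have h := pair_mem S hr hr' hs hs' (cst H + U) (cst H - U) (cst Q) (cst Q) (fun σ => by
    rcases hσ σ with h | h
    · left
      rw [map_add, map_sub, h, gal_cst, gal_cst]
      exact ⟨rfl, rfl, rfl, rfl⟩
    · right
      rw [map_add, map_sub, h, gal_cst, gal_cst]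
      exact ⟨by abel, rfl, by abel, rfl⟩)
  rw [red_cst S.s0 hs, red_cst S.s1 hs', map_add, map_sub, map_add, map_sub, red_cst S.s0 hr,
    red_cst S.s1 hr'] at h
  have e2 : H - (P₁ - H) = P₂ := by
    rw [sub_sub_eq_add_sub, hH]
    abel
  have e3 : H + (P₁ - H) = P₁ := by abel
  rcases hU with hU | hU <;> rcases hU' with hU' | hU' <;> rw [hU, hU'] at h
  · rw [e2, e3, sub_self, hH] at h
    exact h
  · rw [e2, e3, sub_neg_eq_add, ← sub_eq_add_neg, sub_self, hH] at h
    convert h using 1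
    abel
  · rw [sub_neg_eq_add, ← sub_eq_add_neg, e2, e3, sub_self, hH] at h
    convert h using 1
    abel
  · rw [sub_neg_eq_add, ← sub_eq_add_neg, e2, e3, sub_neg_eq_add, ← sub_eq_add_neg, sub_self, hH] at h
    convert h using 1
    abel

/-- additivity in the second variable -/
theorem bilin2 {a b c d : k} (hD : Disc a b) (hD' : Disc c d) (P : Pt a b) (Q₁ Q₂ : Pt c d) :
    Finsupp.single (P, Q₁) 1 + Finsupp.single (P, Q₂) 1 - Finsupp.single (P, Q₁ + Q₂) 1 -
      Finsupp.single (P, 0) 1 ∈ RatEquivZero a b c d := by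
  obtain ⟨w, w', v, v', S⟩ := exists_St k
  obtain ⟨red, hr⟩ := exists_red S.s0 hD
  obtain ⟨red', hr'⟩ := exists_red S.s1 hD
  obtain ⟨rdd, hs⟩ := exists_red S.s0 hD'
  obtain ⟨rdd', hs'⟩ := exists_red S.s1 hD'
  obtain ⟨H, hH⟩ := Pool.Agent.TH954.exists_nsmul_eq hD' (n := 2) (by norm_num) (Q₁ + Q₂)
  rw [two_nsmul] at hH
  obtain ⟨U, hU, hU', hσ⟩ := exists_U S hD' hs hs' (Q₁ - H) H
  have h := pair_mem S hr hr' hs hs' (cst P) (cst P) (cst H + U) (cst H - U) (fun σ => by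
    rcases hσ σ with h | h
    · left
      rw [map_add, map_sub, h, gal_cst, gal_cst]
      exact ⟨rfl, rfl, rfl, rfl⟩
    · right
      rw [map_add, map_sub, h, gal_cst, gal_cst]
      exact ⟨rfl, by abel, rfl, by abel⟩)
  rw [red_cst S.s0 hr, red_cst S.s1 hr', map_add, map_sub, map_add, map_sub, red_cst S.s0 hs,
    red_cst S.s1 hs'] at h
  have e2 : H - (Q₁ - H) = Q₂ := by
    rw [sub_sub_eq_add_sub, hH]
    abel
  have e3 : H + (Q₁ - H) = Q₁ := by abel
  rcases hU with hU | hU <;> rcases hU' with hU' | hU' <;> rw [hU, hU'] at h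
  · rw [e2, e3, sub_self, hH] at h
    exact h
  · rw [e2, e3, sub_neg_eq_add, ← sub_eq_add_neg, sub_self, hH] at h
    convert h using 1
    abel
  · rw [sub_neg_eq_add, ← sub_eq_add_neg, e2, e3, sub_self, hH] at h
    convert h using 1
    abel
  · rw [sub_neg_eq_add, ← sub_eq_add_neg, e2, e3, sub_neg_eq_add, ← sub_eq_add_neg, sub_self, hH] at h
    convert h using 1
    abel

end Pool.Agent.Run7.h780.ZC
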