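import Pool.Agent.Run7.h780.ZC.Ker
import Pool.Agent.Run7.h780.ZC.Pts
import Pool.Agent.TH954.STor

/-!
# The kernel of the reduction is divisible, algebraically closed fields
-/

set_option autoImplicit false
set_option linter.all false

namespace Pool.Agent.Run7.h780.ZC

open WeierstrassCurve Pool.Agent.H901R3.MS Pool.Agent.W275.FML Polynomial
open Pool.Agent.W275.FM (hx hz)
open scoped Classical

section
variable {K κ : Type} [Field K] [Field κ] (v : Place K κ)

lemma exists_max (S : Finset K) (hS : ∃ x ∈ S, x ≠ 0) :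
    ∃ z ∈ S, z ≠ 0 ∧ ∀ w ∈ S, w / z ∈ v.A := by
  induction S using Finset.induction_on with
  | empty => obtain ⟨x, hx, -⟩ := hS; simp at hx
  | insert s S hs ih =>
    by_cases h : ∃ x ∈ S, x ≠ 0
    · obtain ⟨z, hz, hz0, hzw⟩ := ih h
      by_cases h1 : s / z ∈ v.A
      · refine ⟨z, Finset.mem_insert_of_mem hz, hz0, fun w hw => ?_⟩
        rcases Finset.mem_insert.1 hw with h2 | h2
        · rw [h2]; exact h1
        · exact hzw w h2
      · have hs0 : s ≠ 0 := by
          rintro rfl
          rw [zero_div] at h1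
          exact h1 v.A.zero_mem
        have h2 := v.inv_mem_of_notMem h1
        rw [inv_div] at h2
        refine ⟨s, Finset.mem_insert_self _ _, hs0, fun w hw => ?_⟩
        rcases Finset.mem_insert.1 hw with h3 | h3
        · rw [h3, div_self hs0]; exact v.A.one_mem
        · have : w / s = (w / z) * (z / s) := by field_simp
          rw [this]
          exact v.A.mul_mem (hzw w h3) h2
    · push Not at h
      obtain ⟨x, hx, hx0⟩ := hS
      have hxs : x = s := by
        rcases Finset.mem_insert.1 hx with h2 | h2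
        · exact h2
        · exact absurd (h x h2) hx0
      subst hxs
      refine ⟨x, Finset.mem_insert_self _ _, hx0, fun w hw => ?_⟩
      rcases Finset.mem_insert.1 hw with h3 | h3
      · rw [h3, div_self hx0]; exact v.A.one_mem
      · rw [h w h3, zero_div]; exact v.A.zero_mem

variable {v}

/-- reduction of the value of a polynomial -/
lemma r_eval (W : v.A[X]) {x : K} (hx : x ∈ v.A) :
    (W.map v.A.subtype).eval x ∈ v.A ∧
      v.r ((W.map v.A.subtype).eval x) = (W.map v.ρ).eval (v.r x) := by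
  have e : (W.map v.A.subtype).eval x = ((W.eval (⟨x, hx⟩ : v.A) : v.A) : K) := by
    show (W.map v.A.subtype).eval (v.A.subtype ⟨x, hx⟩) = v.A.subtype (W.eval ⟨x, hx⟩)
    rw [eval_map, eval₂_at_apply]
  rw [e]
  refine ⟨Subtype.mem _, ?_⟩
  rw [v.r_of (Subtype.mem _), v.r_of hx, eval_map, eval₂_at_apply]

/-- a polynomial whose roots are integral -/
lemma coeff_mem [IsAlgClosed K] {H : K[X]} (hl : H.leadingCoeff ∈ v.A)
    (hr : ∀ r : K, H.eval r = 0 → r ∈ v.A) (j : ℕ) : H.coeff j ∈ v.A := by
  by_cases h0 : H = 0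
  · rw [h0, coeff_zero]; exact v.A.zero_mem
  have hsp : H = C H.leadingCoeff * (H.roots.map fun a => X - C a).prod :=
    (IsAlgClosed.splits H).eq_prod_roots
  have hmem : H ∈ Polynomial.lifts v.A.subtype := by
    rw [hsp]
    refine Subsemiring.mul_mem _ ⟨C ⟨_, hl⟩, by simp⟩ ?_
    refine Subsemiring.multiset_prod_mem _ _ ?_
    intro f hf
    obtain ⟨a, ha, rfl⟩ := Multiset.mem_map.1 hf
    have ha' : a ∈ v.A := hr a ((mem_roots h0).1 ha)
    refine ⟨X - C ⟨a, ha'⟩, ?_⟩
    simp
  obtain ⟨f, hf⟩ := (mem_lifts _).1 hmem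
  rw [← hf, coeff_map]
  exact (f.coeff j).2

end

section div
variable {K κ : Type} [Field K] [IsAlgClosed K] [CharZero K] [Field κ] [IsAlgClosed κ]
  {v : Place K κ} (hsurj : ∀ c : κ, ∃ x ∈ v.A, v.r x = c) {a b : K} (ha : a ∈ v.A) (hb : b ∈ v.A)
  (hD : Disc a b) (hDr : Disc (v.r a) (v.r b)) {red : Pt a b →+ Pt (v.r a) (v.r b)}
  (hred : IsRedK v a b red)

lemma red_zero_iff' {K κ : Type} [Field K] [Field κ] {v : Place K κ} {a b : K}
    {red : Pt a b →+ Pt (v.r a) (v.r b)} (hred : IsRedK v a b red) (P : Pt a b) :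
    red P = 0 ↔ E1 v P := by
  constructor
  · rintro h x y hxy rfl hx
    obtain ⟨-, g, hg⟩ := hred.2.2 x y hxy hx
    rw [hg] at h
    exact Affine.Point.some_ne_zero g h
  · intro h
    rcases P with _ | ⟨x, y, hxy⟩
    · exact hred.1
    · exact hred.2.1 x y hxy (h x y hxy rfl)

include hsurj ha hb hD hDr hred

/-- the reduction is surjective -/
lemma red_surj' (r : Pt (v.r a) (v.r b)) : ∃ R : Pt a b, red R = r := by
  rcases r with _ | ⟨x', y', g⟩
  · exact ⟨0, map_zero _⟩
  · obtain ⟨x, hx, hxr⟩ := hsurj x'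
    obtain ⟨y, hy⟩ := IsAlgClosed.exists_pow_nat_eq (x ^ 3 + a * x + b) (n := 2) (by norm_num)
    have hns : (CV a b).toAffine.Nonsingular x y := (nonsingular_iff hD).2 hy
    obtain ⟨hyA, g', hg'⟩ := hred.2.2 x y hns hx
    have e1 := eqn_of g
    have e2 := eqn_of g'
    unfold Eqn at e1 e2
    rw [hxr, ← e1] at e2
    rcases sq_eq_sq_iff_eq_or_eq_neg.1 e2 with h | h
    · refine ⟨_, hg'.trans ?_⟩
      rw [Affine.Point.some.injEq]
      exact ⟨hxr, h⟩
    · refine ⟨-Affine.Point.some x y hns, ?_⟩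
      rw [map_neg, hg']
      have g'' : (CV (v.r a) (v.r b)).toAffine.Nonsingular (v.r x) (-v.r y) := by
        rw [h, neg_neg, hxr]; exact g
      rw [neg_some' g' g'', Affine.Point.some.injEq]
      exact ⟨hxr, by rw [h, neg_neg]⟩

/-- the kernel is divisible by the primes -/
theorem kdiv_prime {l : ℕ} (hl : l.Prime) {W : Pt a b} (hW : E1 v W) :
    ∃ L : Pt a b, E1 v L ∧ l • L = W := by
  rcases W with _ | ⟨xW, yW, hxyW⟩
  · exact ⟨0, hW, smul_zero _⟩
  have hxW : xW ∉ v.A := hW xW yW hxyW rfl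
  obtain ⟨U, V, hcop, hU, hV, hmul⟩ := Pool.Agent.TH954.mulPoly K a b hD l hl.one_le
  have hl2 : 1 ≤ l ^ 2 := Nat.one_le_pow _ _ hl.pos
  have hU0 : U ≠ 0 := by
    rintro rfl
    rw [natDegree_zero] at hU
    omega
  -- normalisation
  obtain ⟨z, hz, hz0, hzw⟩ := exists_max v
    ((Finset.range (l ^ 2 + 1)).image U.coeff ∪ (Finset.range (l ^ 2 + 1)).image V.coeff)
    ⟨U.coeff (l ^ 2), Finset.mem_union_left _ (Finset.mem_image_of_mem _ (by simp)), by
      rw [← hU]; exact leadingCoeff_ne_zero.2 hU0⟩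
  have hcU : ∀ j, U.coeff j / z ∈ v.A := by
    intro j
    by_cases hj : j ≤ l ^ 2
    · exact hzw _ (Finset.mem_union_left _ (Finset.mem_image_of_mem _ (by simp; omega)))
    · rw [coeff_eq_zero_of_natDegree_lt (by omega), zero_div]
      exact v.A.zero_mem
  have hcV : ∀ j, V.coeff j / z ∈ v.A := by
    intro j
    by_cases hj : j ≤ l ^ 2
    · exact hzw _ (Finset.mem_union_right _ (Finset.mem_image_of_mem _ (by simp; omega)))
    · rw [coeff_eq_zero_of_natDegree_lt (by omega), zero_div]
      exact v.A.zero_mem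
  have hlift : ∀ W : K[X], (∀ j, W.coeff j / z ∈ v.A) →
      ∃ W' : v.A[X], W'.map v.A.subtype = C z⁻¹ * W := by
    intro W hW
    apply (mem_lifts _).1
    rw [lifts_iff_coeff_lifts]
    intro j
    refine ⟨⟨_, hW j⟩, ?_⟩
    rw [coeff_C_mul, mul_comm]
    show W.coeff j / z = W.coeff j * z⁻¹
    rw [div_eq_mul_inv]
  obtain ⟨U', hU'⟩ := hlift U hcU
  obtain ⟨V', hV'⟩ := hlift V hcV
  have evU : ∀ x : K, (U'.map v.A.subtype).eval x = z⁻¹ * U.eval x := fun x => by
    rw [hU', eval_mul, eval_C]
  have evV : ∀ x : K, (V'.map v.A.subtype).eval x = z⁻¹ * V.eval x := fun x => by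
    rw [hV', eval_mul, eval_C]
  have cfU : ∀ j, ((U'.coeff j : v.A) : K) = z⁻¹ * U.coeff j := fun j => by
    rw [← coeff_C_mul, ← hU', coeff_map]; rfl
  have cfV : ∀ j, ((V'.coeff j : v.A) : K) = z⁻¹ * V.coeff j := fun j => by
    rw [← coeff_C_mul, ← hV', coeff_map]; rfl
  have h2κ : (2 : κ) ≠ 0 := fun h => hDr (by rw [h, zero_mul])
  -- the key claim
  have hVne : V'.map v.ρ ≠ 0 := by
    intro hV0
    have hUne : U'.map v.ρ ≠ 0 := by
      intro hU0'
      have hone : ∀ (W : K[X]) (W' : v.A[X]), (∀ j, ((W'.coeff j : v.A) : K) = z⁻¹ * W.coeff j) →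
          W'.map v.ρ = 0 → ∀ j, W.coeff j ≠ z := by
        intro W W' hc h0 j hj
        have h1 : W'.coeff j = 1 := by
          apply Subtype.ext
          rw [hc j, hj, inv_mul_cancel₀ hz0]
          rfl
        have h2 := congrArg (fun f => f.coeff j) h0
        simp only [coeff_map, coeff_zero] at h2
        rw [h1, map_one] at h2
        exact one_ne_zero h2
      rcases Finset.mem_union.1 hz with h | h
      · obtain ⟨j, -, hj⟩ := Finset.mem_image.1 h
        exact hone U U' cfU hU0' j hj
      · obtain ⟨j, -, hj⟩ := Finset.mem_image.1 h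
        exact hone V V' cfV hV0 j hj
    -- almost all points are killed by `l`
    have hkill : ∀ (x' y' : κ) (g : (CV (v.r a) (v.r b)).toAffine.Nonsingular x' y'),
        (U'.map v.ρ).eval x' ≠ 0 → l • (Affine.Point.some x' y' g : Pt (v.r a) (v.r b)) = 0 := by
      intro x' y' g hne
      obtain ⟨R, hR⟩ := red_surj' hsurj ha hb hD hDr hred (Affine.Point.some x' y' g)
      rw [← hR, ← map_nsmul]
      rcases R with _ | ⟨x, y, h⟩
      · exact absurd (hR.symm.trans hred.1) (Affine.Point.some_ne_zero g)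
      have hxA : x ∈ v.A := by
        by_contra hc
        rw [hred.2.1 x y h hc] at hR
        exact Affine.Point.some_ne_zero g hR.symm
      obtain ⟨-, g', hg'⟩ := hred.2.2 x y h hxA
      rw [hg', Affine.Point.some.injEq] at hR
      obtain ⟨μ, hμ, e1, e2⟩ := hmul x y h
      rw [red_zero_iff' hred]
      intro X Y hXY hE hXA
      rw [hE] at e1 e2
      have e1' : X = μ * U.eval x := e1
      have e2' : 1 = μ * V.eval x := e2
      have e3 : z⁻¹ * U.eval x = X * (z⁻¹ * V.eval x) := by
        rw [e1']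
        linear_combination (z⁻¹ * U.eval x) * e2'
      rw [← evU, ← evV] at e3
      obtain ⟨m1, q1⟩ := r_eval U' hxA
      obtain ⟨m2, q2⟩ := r_eval V' hxA
      have e4 := congrArg v.r e3
      rw [v.r_mul hXA m2, q1, q2, hV0, eval_zero, mul_zero, hR.1] at e4
      exact hne e4
    -- the exceptional points
    have hexc : {Z : Pt (v.r a) (v.r b) | l • Z ≠ 0}.Finite := by
      have hsub : (coords '' {Z : Pt (v.r a) (v.r b) | l • Z ≠ 0}) ⊆
          ((U'.map v.ρ).roots.toFinset.biUnion (fun x =>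
            (Polynomial.nthRoots 2 (x ^ 3 + v.r a * x + v.r b)).toFinset.image
              (fun y => (some (x, y) : Option (κ × κ)))) : Set (Option (κ × κ))) := by
        rintro _ ⟨Z, hZ, rfl⟩
        rcases Z with _ | ⟨x, y, h⟩
        · exact absurd (smul_zero l) hZ
        · have hZ' : l • (Affine.Point.some x y h : Pt (v.r a) (v.r b)) ≠ 0 := hZ
          have h1 : (U'.map v.ρ).eval x = 0 := by
            by_contra hc
            exact hZ' (hkill x y h hc)
          rw [Finset.mem_coe, Finset.mem_biUnion]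
          refine ⟨x, ?_, ?_⟩
          · rw [Multiset.mem_toFinset, mem_roots hUne]
            exact h1
          · rw [Finset.mem_image]
            refine ⟨y, ?_, rfl⟩
            rw [Multiset.mem_toFinset, Polynomial.mem_nthRoots (by norm_num)]
            exact eqn_of h
      exact Set.Finite.of_finite_image ((Finset.finite_toSet _).subset hsub)
        coords_injective.injOn
    have hinf : Infinite (Pt (v.r a) (v.r b)) := by
      have hf : ∀ x : κ, ∃ y : κ, y ^ 2 = x ^ 3 + v.r a * x + v.r b := fun x =>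
        IsAlgClosed.exists_pow_nat_eq _ (by norm_num)
      choose f hf using hf
      have := IsAlgClosed.instInfinite (K := κ)
      refine Infinite.of_injective (fun x : κ => (Affine.Point.some x (f x)
        ((nonsingular_iff hDr).2 (hf x)) : Pt (v.r a) (v.r b))) ?_
      intro x x' h
      simp only [Affine.Point.some.injEq] at h
      exact h.1
    have hall : ∀ Z : Pt (v.r a) (v.r b), l • Z = 0 := by
      intro Z
      have h1 : ({Y : Pt (v.r a) (v.r b) | l • Y ≠ 0} ∪
          (fun Y => Z + Y) ⁻¹' {Y : Pt (v.r a) (v.r b) | l • Y ≠ 0}).Finite :=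
        hexc.union (hexc.preimage (add_right_injective Z).injOn)
      obtain ⟨Y, hY⟩ := h1.exists_notMem
      simp only [Set.mem_union, Set.mem_setOf_eq, Set.mem_preimage, not_or, not_not] at hY
      have h2 := hY.2
      rw [smul_add, hY.1, add_zero] at h2
      exact h2
    rcases hl.eq_two_or_odd' with h2 | hodd
    · -- `l = 2`
      subst h2
      have hne : (X ^ 3 + C (v.r a) * X + C (v.r b) : κ[X]) ≠ 0 := by
        intro h0
        have : (X ^ 3 + C (v.r a) * X + C (v.r b) : κ[X]).degree = 3 := by compute_degree!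
        rw [h0] at this
        simp at this
      have := IsAlgClosed.instInfinite (K := κ)
      obtain ⟨x, hx⟩ : ∃ x : κ, (X ^ 3 + C (v.r a) * X + C (v.r b) : κ[X]).eval x ≠ 0 := by
        by_contra hcon
        push Not at hcon
        exact hne (Polynomial.funext (by simpa using hcon))
      obtain ⟨y, hy⟩ := IsAlgClosed.exists_pow_nat_eq (x ^ 3 + v.r a * x + v.r b) (n := 2)
        (by norm_num)
      have hns : (CV (v.r a) (v.r b)).toAffine.Nonsingular x y := (nonsingular_iff hDr).2 hy
      have h3 := hall (Affine.Point.some x y hns)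
      have hns' : (CV (v.r a) (v.r b)).toAffine.Nonsingular x (-y) :=
        (nonsingular_iff hDr).2 (by unfold Eqn; rw [neg_sq, hy])
      rw [two_nsmul, add_eq_zero_iff_eq_neg, neg_some' hns hns', Affine.Point.some.injEq] at h3
      apply hx
      have h4 : 2 * y = 0 := by linear_combination h3.2
      have h5 : y = 0 := (mul_eq_zero.1 h4).resolve_left h2κ
      rw [h5] at hy
      simp only [eval_add, eval_pow, eval_X, eval_mul, eval_C]
      rw [← hy]
      ring
    · obtain ⟨e, he⟩ : ∃ e : κ, e ^ 3 + v.r a * e + v.r b = 0 := by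
        obtain ⟨z, hz⟩ := IsAlgClosed.exists_root (X ^ 3 + C (v.r a) * X + C (v.r b)) (by
            have : (X ^ 3 + C (v.r a) * X + C (v.r b)).degree = 3 := by compute_degree!
            rw [this]; norm_num)
        exact ⟨z, by simpa using hz⟩
      have hns : (CV (v.r a) (v.r b)).toAffine.Nonsingular e 0 := (nonsingular_iff hDr).2 (by
        unfold Eqn; rw [he]; ring)
      have h2 : 2 • (Affine.Point.some e 0 hns : Pt (v.r a) (v.r b)) = 0 := by
        rw [two_nsmul]
        exact add_opp hns hns rfl (by rw [neg_zero])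
      obtain ⟨j, hj⟩ := hodd
      have h3 := hall (Affine.Point.some e 0 hns)
      rw [hj, add_smul, mul_comm, mul_smul, h2, smul_zero, zero_add, one_smul] at h3
      exact Affine.Point.some_ne_zero hns h3
  -- a root which is not integral
  obtain ⟨j, hj⟩ : ∃ j, v.ρ (V'.coeff j) ≠ 0 := by
    by_contra hcon
    push Not at hcon
    apply hVne
    ext j
    rw [coeff_map, hcon j, coeff_zero]
  have hvj : v.r (z⁻¹ * V.coeff j) ≠ 0 := by
    rw [← cfV, v.r_of (Subtype.mem _)]
    exact hj
  obtain ⟨H, hH⟩ : ∃ H : K[X], H = C z⁻¹ * U - C xW * (C z⁻¹ * V) := ⟨_, rfl⟩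
  have hdeg : (C z⁻¹ * U).natDegree = l ^ 2 := by
    rw [natDegree_C_mul (inv_ne_zero hz0), hU]
  have hdegV : (C xW * (C z⁻¹ * V)).natDegree < (C z⁻¹ * U).natDegree := by
    rw [hdeg]
    exact ((natDegree_C_mul_le _ _).trans (natDegree_C_mul_le _ _)).trans_lt hV
  have hlc : H.leadingCoeff = z⁻¹ * U.leadingCoeff := by
    rw [hH, leadingCoeff_sub_of_degree_lt, leadingCoeff_mul, leadingCoeff_C]
    apply degree_lt_degree hdegV
  have hlcA : H.leadingCoeff ∈ v.A := by
    have := hcU U.natDegree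
    rw [hlc]
    have e : z⁻¹ * U.leadingCoeff = U.coeff U.natDegree / z := by
      rw [div_eq_inv_mul]; rfl
    rw [e]
    exact this
  obtain ⟨r, hr, hrA⟩ : ∃ r : K, H.eval r = 0 ∧ r ∉ v.A := by
    by_contra hcon
    push Not at hcon
    have h1 := coeff_mem hlcA (fun r hr => hcon r hr) j
    rw [hH, coeff_sub, coeff_C_mul, coeff_C_mul, coeff_C_mul] at h1
    have h2 : z⁻¹ * U.coeff j ∈ v.A := by rw [← cfU]; exact Subtype.mem _
    have h3 : xW * (z⁻¹ * V.coeff j) ∈ v.A := by
      have := v.A.sub_mem h2 h1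
      rwa [sub_sub_cancel] at this
    apply hxW
    have h4 := v.div_mem h3 hvj
    rwa [mul_div_cancel_right₀ _ (v.ne_zero_of_r_ne hvj)] at h4
  have hr' : U.eval r = xW * V.eval r := by
    rw [hH, eval_sub, eval_mul, eval_C, eval_mul, eval_mul, eval_C, eval_C] at hr
    have h1 : z⁻¹ * (U.eval r - xW * V.eval r) = 0 := by linear_combination hr
    exact sub_eq_zero.1 ((mul_eq_zero.1 h1).resolve_left (inv_ne_zero hz0))
  have hVr : V.eval r ≠ 0 := by
    intro h
    rw [h, mul_zero] at hr'
    obtain ⟨A, B, hAB⟩ := hcop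
    have := congrArg (Polynomial.eval r) hAB
    rw [eval_add, eval_mul, eval_mul, hr', h] at this
    simp at this
  obtain ⟨y, hy⟩ := IsAlgClosed.exists_pow_nat_eq (r ^ 3 + a * r + b) (n := 2) (by norm_num)
  have hns : (CV a b).toAffine.Nonsingular r y := (nonsingular_iff hD).2 hy
  obtain ⟨μ, hμ, e1, e2⟩ := hmul r y hns
  rcases hq : l • (Affine.Point.some r y hns : Pt a b) with _ | ⟨x1, y1, h1⟩
  · rw [hq] at e2
    exact absurd e2.symm (mul_ne_zero hμ hVr)
  · rw [hq] at e1 e2
    have e1' : x1 = μ * U.eval r := e1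
    have e2' : 1 = μ * V.eval r := e2
    have hx1 : x1 = xW := by
      rw [e1', hr']
      linear_combination -xW * e2'
    subst hx1
    have k1 := eqn_of h1
    have k0 := eqn_of hxyW
    unfold Eqn at k1 k0
    rw [← k0] at k1
    rcases sq_eq_sq_iff_eq_or_eq_neg.mp k1 with h | h
    · subst h
      refine ⟨_, ?_, hq⟩
      intro x y' h' e
      rw [Affine.Point.some.injEq] at e
      rw [← e.1]
      exact hrA
    · subst h
      have hns' : (CV a b).toAffine.Nonsingular r (-y) :=
        (nonsingular_iff hD).2 (by unfold Eqn; rw [neg_sq, hy])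
      refine ⟨-(Affine.Point.some r y hns : Pt a b), ?_, ?_⟩
      · rw [neg_some' hns hns']
        intro x y' h' e
        rw [Affine.Point.some.injEq] at e
        rw [← e.1]
        exact hrA
      · rw [smul_neg, hq, neg_some' h1 (by rw [neg_neg]; exact hxyW)]
        simp only [neg_neg]

/-- the kernel is divisible -/
theorem kdiv {n : ℕ} (hn : 1 ≤ n) : ∀ {W : Pt a b}, E1 v W →
    ∃ L : Pt a b, E1 v L ∧ n • L = W := by
  induction n using Nat.strong_induction_on with
  | _ n ih =>
    intro W hW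
    by_cases h1 : n = 1
    · subst h1
      exact ⟨W, hW, one_smul _ _⟩
    · have hl := Nat.minFac_prime h1
      obtain ⟨m, hm⟩ := Nat.minFac_dvd n
      have hm1 : 1 ≤ m := by
        rcases Nat.eq_zero_or_pos m with h | h
        · rw [h, mul_zero] at hm
          omega
        · exact h
      have hmn : m < n := by
        have := hl.two_le
        nlinarith
      obtain ⟨L1, hL1, e1⟩ := ih m hmn hm1 hW
      obtain ⟨L2, hL2, e2⟩ := kdiv_prime hsurj ha hb hD hDr hred hl hL1
      exact ⟨L2, hL2, by rw [hm, mul_comm, mul_smul, e2, e1]⟩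

/-- torsion points lift -/
theorem tor_lift {n : ℕ} (hn : 1 ≤ n) (r : Pt (v.r a) (v.r b)) (hr : n • r = 0) :
    ∃ T : Pt a b, n • T = 0 ∧ red T = r := by
  obtain ⟨R, hR⟩ := red_surj' hsurj ha hb hD hDr hred r
  have hW : E1 v (n • R) := by
    rw [← red_zero_iff' hred, map_nsmul, hR, hr]
  obtain ⟨L, hL, e⟩ := kdiv hsurj ha hb hD hDr hred hn hW
  exact ⟨R - L, by rw [smul_sub, e, sub_self], by
    rw [map_sub, hR, (red_zero_iff' hred L).2 hL, sub_zero]⟩

end div

end Pool.Agent.Run7.h780.ZC
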