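import Pool.Agent.W275.FML.Stm
import Pool.Agent.W370.KE.Z
import Pool.Agent.H901R3.MS.P_R1K
import Pool.Agent.H901R3.MS.P_R6K

/-!
Addition in the kernel of the reduction, coefficients in the valuation ring (after W667.FML.TAdd,
which is stated for integral coefficients).
-/

set_option autoImplicit false

namespace Pool.Agent.Run7.h780.ZC

open WeierstrassCurve Pool.Agent.H901R3.MS Pool.Agent.W275.FM Pool.Agent.W490.FM.KEY
open Pool.Agent.W275.FML Pool.Agent.W370.KE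

section core
variable {K k : Type} [Field K] [Field k] (v : Place K k) {a b : K}
  (haA : a ∈ v.A) (hbA : b ∈ v.A)

include haA hbA

theorem core2 {x₁ y₁ x₂ y₂ x₃ y₃ l c : K}
    (E1 : Eqn a b x₁ y₁) (E2 : Eqn a b x₂ y₂) (E3 : Eqn a b x₃ y₃)
    (hx1 : x₁ ∉ v.A) (hx2 : x₂ ∉ v.A)
    (L1 : y₁ = l * x₁ + c) (L2 : y₂ = l * x₂ + c) (L3 : y₃ = -(l * x₃ + c))
    (e1 : x₃ = l ^ 2 - x₁ - x₂) (e2 : x₁ * x₂ + (x₁ + x₂) * x₃ = a - 2 * l * c)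
    (e3 : x₁ * x₂ * x₃ = c ^ 2 - b)
    (hUV : -l * (1 - a * (x₂ / y₂) * (y₁⁻¹ + y₂⁻¹) - b * (y₁⁻¹ ^ 2 + y₁⁻¹ * y₂⁻¹ + y₂⁻¹ ^ 2)) =
      c * ((x₁ / y₁) ^ 2 + (x₁ / y₁) * (x₂ / y₂) + (x₂ / y₂) ^ 2 + a * y₁⁻¹ ^ 2)) :
    x₃ ∉ v.A ∧ ∃ g ∈ v.A, v.r g = 0 ∧
      x₃ / y₃ = x₁ / y₁ + x₂ / y₂ + (x₁ / y₁) * (x₂ / y₂) * g := by
  obtain ⟨-, hy1, -, -, z1A, z1r, w1A, w1r⟩ := (t_R1K K k v a b haA hbA x₁ y₁ E1).2 hx1
  obtain ⟨-, hy2, -, -, z2A, z2r, w2A, w2r⟩ := (t_R1K K k v a b haA hbA x₂ y₂ E2).2 hx2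
  have mz1 : mI v (x₁ / y₁) := ⟨z1A, z1r⟩
  have mz2 : mI v (x₂ / y₂) := ⟨z2A, z2r⟩
  have mw1 : mI v y₁⁻¹ := ⟨w1A, w1r⟩
  have mw2 : mI v y₂⁻¹ := ⟨w2A, w2r⟩
  set D0 : K := 1 - a * (x₁ / y₁) * y₁⁻¹ - b * y₁⁻¹ ^ 2 with hD0
  have hD0u : D0 ∈ v.A ∧ v.r D0 ≠ 0 := by
    refine mI.unit (y := (-(a * (x₁ / y₁)) * y₁⁻¹) + (-(b * y₁⁻¹) * y₁⁻¹)) ?_ ?_
    · exact (mI.mul_left (v.A.neg_mem (v.A.mul_mem haA z1A)) mw1).add
        (mI.mul_left (v.A.neg_mem (v.A.mul_mem hbA w1A)) mw1)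
    · rw [hD0]; ring
  have hD00 : D0 ≠ 0 := v.ne_zero_of_r_ne hD0u.2
  set D2 : K := 1 - a * (x₂ / y₂) * y₂⁻¹ - b * y₂⁻¹ ^ 2 with hD2
  have hD2u : D2 ∈ v.A ∧ v.r D2 ≠ 0 := by
    refine mI.unit (y := (-(a * (x₂ / y₂)) * y₂⁻¹) + (-(b * y₂⁻¹) * y₂⁻¹)) ?_ ?_
    · exact (mI.mul_left (v.A.neg_mem (v.A.mul_mem haA z2A)) mw2).add
        (mI.mul_left (v.A.neg_mem (v.A.mul_mem hbA w2A)) mw2)
    · rw [hD2]; ring
  have hD20 : D2 ≠ 0 := v.ne_zero_of_r_ne hD2u.2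
  have hw1 : y₁⁻¹ * D0 = (x₁ / y₁) ^ 3 := by
    have h := wz hy1 E1
    rw [hD0]
    linear_combination h
  have hw2 : y₂⁻¹ * D2 = (x₂ / y₂) ^ 3 := by
    have h := wz hy2 E2
    rw [hD2]
    linear_combination h
  -- U and V
  set U : K := 1 - a * (x₂ / y₂) * (y₁⁻¹ + y₂⁻¹) - b * (y₁⁻¹ ^ 2 + y₁⁻¹ * y₂⁻¹ + y₂⁻¹ ^ 2) with hU
  have hUu : U ∈ v.A ∧ v.r U ≠ 0 := by
    refine mI.unit (y := (-(a * (x₂ / y₂)) * (y₁⁻¹ + y₂⁻¹)) +
      (-b) * (y₁⁻¹ * y₁⁻¹ + y₁⁻¹ * y₂⁻¹ + y₂⁻¹ * y₂⁻¹)) ?_ ?_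
    · exact (mI.mul_left (v.A.neg_mem (v.A.mul_mem haA z2A)) (mw1.add mw2)).add
        (mI.mul_left (v.A.neg_mem hbA) (((mI.mul_left w1A mw1).add (mI.mul_left w1A mw2)).add
          (mI.mul_left w2A mw2)))
    · rw [hU]; ring
  have hU0 : U ≠ 0 := v.ne_zero_of_r_ne hUu.2
  set V : K := (x₁ / y₁) ^ 2 + (x₁ / y₁) * (x₂ / y₂) + (x₂ / y₂) ^ 2 + a * y₁⁻¹ ^ 2 with hV
  have mV : mI v V := by
    rw [hV]
    refine ((mI.add ?_ ?_).add ?_).add ?_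
    · rw [pow_two]; exact mI.mul_left z1A mz1
    · exact mI.mul_left z1A mz2
    · rw [pow_two]; exact mI.mul_left z2A mz2
    · rw [pow_two, ← mul_assoc]; exact mI.mul_left (v.A.mul_mem haA w1A) mw1
  -- c ≠ 0
  have hc : c ≠ 0 := by
    intro h0
    rw [h0, zero_mul] at hUV
    have hl : l = 0 := by
      rcases mul_eq_zero.1 hUV with h | h
      · exact neg_eq_zero.1 h
      · exact absurd h hU0
    apply hy1
    rw [L1, hl, h0]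
    ring
  set m : K := V / U with hm
  have mm : mI v m := by
    rw [hm, div_eq_mul_inv]
    exact mI.mul_right mV (v.inv_mem hUu.2)
  have hlm : l = -(m * c) := by
    rw [hm]
    field_simp
    linear_combination -hUV
  have y1m : y₁ = c * (1 - m * x₁) := by rw [L1, hlm]; ring
  have y2m : y₂ = c * (1 - m * x₂) := by rw [L2, hlm]; ring
  have y3m : y₃ = -(c * (1 - m * x₃)) := by rw [L3, hlm]; ring
  have n1 : 1 - m * x₁ ≠ 0 := fun h => hy1 (by rw [y1m, h, mul_zero])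
  have n2 : 1 - m * x₂ ≠ 0 := fun h => hy2 (by rw [y2m, h, mul_zero])
  have f1 : x₁ + x₂ + x₃ = m ^ 2 * c ^ 2 := by rw [e1, hlm]; ring
  have f2 : x₁ * x₂ + (x₁ + x₂) * x₃ = a + 2 * m * c ^ 2 := by rw [e2, hlm]; ring
  have hDD : (1 - m * x₁) * (1 - m * x₂) * (1 - m * x₃) = 1 + a * m ^ 2 + b * m ^ 3 := by
    linear_combination -m * f1 + m ^ 2 * f2 - m ^ 3 * e3
  have hD : (1 + a * m ^ 2 + b * m ^ 3 : K) ∈ v.A ∧ v.r (1 + a * m ^ 2 + b * m ^ 3 : K) ≠ 0 := by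
    refine mI.unit (y := (a * m) * m + (b * m ^ 2) * m) ?_ (by ring)
    exact (mI.mul_left (v.A.mul_mem haA mm.1) mm).add
      (mI.mul_left (v.A.mul_mem hbA (v.A.pow_mem mm.1 2)) mm)
  have n3 : 1 - m * x₃ ≠ 0 := by
    intro h
    apply v.ne_zero_of_r_ne hD.2
    rw [← hDD, h, mul_zero]
  have hy3 : y₃ ≠ 0 := by
    rw [y3m]
    exact neg_ne_zero.2 (mul_ne_zero hc n3)
  have hz := zsum (a := a) (b := b) hc n1 n2 n3 f1 f2 e3
  rw [← y1m, ← y2m] at hz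
  -- c⁻¹
  have hcinv : c⁻¹ = y₁⁻¹ - m * (x₁ / y₁) := by
    field_simp
    rw [y1m]
  have h2A : (2 : K) ∈ v.A := by exact_mod_cast v.nat_mem 2
  have h3A : (3 : K) ∈ v.A := by exact_mod_cast v.nat_mem 3
  -- c⁻¹ is divisible by z₁ z₂
  set q : K := ((x₁ / y₁) ^ 2 * (-a * (y₁⁻¹ + y₂⁻¹) - b * (y₁⁻¹ + y₂⁻¹) * ((x₂ / y₂) ^ 2 / D2)) -
    (x₁ / y₁ + x₂ / y₂) * D0) / (D0 * U) with hq
  have hqA : q ∈ v.A := by
    have hDU : v.r (D0 * U) ≠ 0 := by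
      rw [v.r_mul hD0u.1 hUu.1]
      exact mul_ne_zero hD0u.2 hUu.2
    refine v.div_mem (v.A.sub_mem (v.A.mul_mem (v.A.pow_mem z1A 2) (v.A.sub_mem ?_ ?_))
      (v.A.mul_mem (v.A.add_mem z1A z2A) hD0u.1)) hDU
    · exact v.A.mul_mem (v.A.neg_mem haA) (v.A.add_mem w1A w2A)
    · exact v.A.mul_mem (v.A.mul_mem hbA (v.A.add_mem w1A w2A))
        (v.div_mem (v.A.pow_mem z2A 2) hD2u.2)
  have hcq : c⁻¹ = (x₁ / y₁) * (x₂ / y₂) * q := by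
    have hw2' : y₂⁻¹ = (x₂ / y₂) * ((x₂ / y₂) ^ 2 / D2) := by
      rw [← mul_div_assoc, eq_div_iff hD20, hw2]
      ring
    have hDU0 : D0 * U ≠ 0 := mul_ne_zero hD00 hU0
    have hmU : m * U = V := by rw [hm]; field_simp
    have key : c⁻¹ * (D0 * U) = (x₁ / y₁) * (x₂ / y₂) * (q * (D0 * U)) := by
      have hqq : q * (D0 * U) = (x₁ / y₁) ^ 2 * (-a * (y₁⁻¹ + y₂⁻¹) -
          b * (y₁⁻¹ + y₂⁻¹) * ((x₂ / y₂) ^ 2 / D2)) - (x₁ / y₁ + x₂ / y₂) * D0 := by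
        rw [hq]
        field_simp
      rw [hqq, hcinv]
      linear_combination U * hw1 - (x₁ / y₁) * D0 * hmU + (x₁ / y₁) ^ 3 * hU -
        (x₁ / y₁) * D0 * hV + (-a * (x₁ / y₁) * y₁⁻¹) * hw1 +
        (-b * (x₁ / y₁) ^ 3 * (y₁⁻¹ + y₂⁻¹)) * hw2' - (x₁ / y₁) ^ 3 * hD0
    have := mul_right_cancel₀ hDU0 (key.trans (by ring) :
      c⁻¹ * (D0 * U) = ((x₁ / y₁) * (x₂ / y₂) * q) * (D0 * U))
    exact this
  have hcA : mI v c⁻¹ := by
    rw [hcq]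
    exact mI.mul_right (mI.mul_left z1A mz2) hqA
  -- z₃
  have h11 : x₃ / y₃ = -(x₃ / (c * (1 - m * x₃))) := by
    rw [y3m, div_neg]
  have hz3 : x₃ / y₃ = x₁ / y₁ + x₂ / y₂ + (x₁ / y₁) * (x₂ / y₂) *
      ((2 * a * m + 3 * b * m ^ 2) * q / (1 + a * m ^ 2 + b * m ^ 3)) := by
    have h12 : (x₁ / y₁) * (x₂ / y₂) * ((2 * a * m + 3 * b * m ^ 2) * q /
        (1 + a * m ^ 2 + b * m ^ 3)) =
        (2 * a * m + 3 * b * m ^ 2) * c⁻¹ / (1 + a * m ^ 2 + b * m ^ 3) := by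
      rw [hcq]
      ring
    rw [h12, h11]
    rw [neg_mul, neg_div] at hz
    linear_combination -hz
  have mg : mI v ((2 * a * m + 3 * b * m ^ 2) * q / (1 + a * m ^ 2 + b * m ^ 3)) := by
    rw [div_eq_mul_inv]
    refine mI.mul_right (mI.mul_right (mI.add ?_ ?_) hqA) (v.inv_mem hD.2)
    · exact mI.mul_left (v.A.mul_mem h2A haA) mm
    · rw [pow_two, ← mul_assoc]
      exact mI.mul_left (v.A.mul_mem (v.A.mul_mem h3A hbA) mm.1) mm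
  have mz3 : mI v (x₃ / y₃) := by
    rw [hz3]
    exact (mz1.add mz2).add (mI.mul_left (v.A.mul_mem z1A z2A) mg)
  have mw3 : mI v y₃⁻¹ := by
    have e : y₃⁻¹ = -c⁻¹ + m * (x₃ / y₃) := by
      have h : c * (1 - m * x₃) = -y₃ := by rw [y3m]; ring
      field_simp
      linear_combination h
    rw [e]
    exact hcA.neg.add (mI.mul_left mm.1 mz3)
  refine ⟨fun hx3 => ?_, _, mg.1, mg.2, hz3⟩
  have hy3A := (t_R1K K k v a b haA hbA x₃ y₃ E3).1 hx3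
  have h := v.r_mul hy3A mw3.1
  rw [mul_inv_cancel₀ hy3, v.r_one, mw3.2, mul_zero] at h
  exact one_ne_zero h

theorem tadd [DecidableEq K] :
    (∀ P : Pt a b, E1 v P → tt P ∈ v.A ∧ v.r (tt P) = 0 ∧ (tt P = 0 → P = 0) ∧
      E1 v (-P) ∧ tt (-P) = -tt P) ∧
    ∀ P Q : Pt a b, E1 v P → E1 v Q → E1 v (P + Q) ∧
      ∃ g ∈ v.A, v.r g = 0 ∧ tt (P + Q) = tt P + tt Q + tt P * tt Q * g := by
  refine ⟨?_, ?_⟩
  · intro P hP
    rcases P with _ | ⟨x, y, h⟩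
    · refine ⟨v.A.zero_mem, v.r_zero, fun _ => rfl, ?_, ?_⟩
      · intro x y h e
        exact absurd e.symm (Affine.Point.some_ne_zero h)
      · change (0 : K) = -0
        rw [neg_zero]
    · have hx : x ∉ v.A := hP x y h rfl
      obtain ⟨hx0, hy0, -, -, zA, zr, -, -⟩ := (t_R1K K k v a b haA hbA x y (eqn_of h)).2 hx
      have h' : (CV a b).toAffine.Nonsingular x (-y) := by
        have := (Affine.nonsingular_neg x y).2 h
        simpa [Affine.negY, CV] using this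
      refine ⟨zA, zr, fun h0 => absurd h0 (div_ne_zero hx0 hy0), ?_, ?_⟩
      · rw [neg_some' h h']
        intro x' y' g e
        injection e with e1 e2
        rw [← e1]
        exact hx
      · rw [neg_some' h h']
        change x / (-y) = -(x / y)
        rw [div_neg]
  · intro P Q hP hQ
    rcases P with _ | ⟨x₁, y₁, h₁⟩
    · have e : (Affine.Point.zero + Q : Pt a b) = Q := zero_add Q
      rw [e]
      refine ⟨hQ, 0, v.A.zero_mem, v.r_zero, ?_⟩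
      change tt Q = 0 + tt Q + 0 * tt Q * 0
      ring
    rcases Q with _ | ⟨x₂, y₂, h₂⟩
    · have e : (Affine.Point.some x₁ y₁ h₁ + Affine.Point.zero : Pt a b) =
        Affine.Point.some x₁ y₁ h₁ := add_zero _
      rw [e]
      refine ⟨hP, 0, v.A.zero_mem, v.r_zero, ?_⟩
      ring_nf
      change _ = _ + (0 : K)
      ring
    have E1 := eqn_of h₁
    have E2 := eqn_of h₂
    have hx1 : x₁ ∉ v.A := hP x₁ y₁ h₁ rfl
    have hx2 : x₂ ∉ v.A := hQ x₂ y₂ h₂ rfl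
    have hy1 : y₁ ≠ 0 := ((t_R1K K k v a b haA hbA x₁ y₁ E1).2 hx1).2.1
    have hy2 : y₂ ≠ 0 := ((t_R1K K k v a b haA hbA x₂ y₂ E2).2 hx2).2.1
    change _ ∧ ∃ g ∈ v.A, v.r g = 0 ∧ tt _ = x₁ / y₁ + x₂ / y₂ + x₁ / y₁ * (x₂ / y₂) * g
    by_cases hx : x₁ = x₂
    · by_cases hy : y₁ = -y₂
      · rw [add_opp h₁ h₂ hx hy]
        refine ⟨?_, 0, v.A.zero_mem, v.r_zero, ?_⟩
        · intro x y h e
          exact absurd e.symm (Affine.Point.some_ne_zero h)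
        · rw [hx, hy]
          change (0 : K) = _
          rw [div_neg]
          ring
      · have hyy : y₁ = y₂ := by
          unfold Eqn at E1 E2
          rw [hx] at E1
          have h3 : (y₁ - y₂) * (y₁ + y₂) = 0 := by linear_combination E1 - E2
          rcases mul_eq_zero.1 h3 with h4 | h4
          · exact sub_eq_zero.1 h4
          · exact absurd (eq_neg_of_add_eq_zero_left h4) hy
        have h2y : 2 * y₁ ≠ 0 := by
          intro h4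
          apply hy
          rw [← hyy]
          linear_combination h4
        subst hx
        subst hyy
        set l : K := (3 * x₁ ^ 2 + a) / (2 * y₁) with hl
        obtain ⟨h₃, e3⟩ := add_dbl h₁ h₂ rfl hy l (l ^ 2 - x₁ - x₁)
          (-(l * ((l ^ 2 - x₁ - x₁) - x₁) + y₁)) hl rfl rfl
        rw [e3]
        have hl' : 2 * y₁ * l = 3 * x₁ ^ 2 + a := by
          rw [hl, ← mul_div_assoc, mul_div_cancel_left₀ _ h2y]
        obtain ⟨q2, q3, q4⟩ := tang (c := y₁ - l * x₁) E1 hy1 (by ring) hl'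
          (rfl : l ^ 2 - x₁ - x₁ = l ^ 2 - x₁ - x₁)
        obtain ⟨r1, r2⟩ := core2 v haA hbA (l := l) (c := y₁ - l * x₁) E1 E1 (eqn_of h₃) hx1 hx1
          (by ring) (by ring) (by ring) rfl q2 q3 q4
        refine ⟨?_, r2⟩
        intro x y h e
        injection e with e1 e2
        rw [← e1]
        exact r1
    · have hsub : x₁ - x₂ ≠ 0 := sub_ne_zero.2 hx
      set l : K := (y₁ - y₂) / (x₁ - x₂) with hl
      obtain ⟨h₃, e3⟩ := add_ne h₁ h₂ hx l (l ^ 2 - x₁ - x₂)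
        (-(l * ((l ^ 2 - x₁ - x₂) - x₁) + y₁)) hl rfl rfl
      rw [e3]
      have L2 : y₂ = l * x₂ + (y₁ - l * x₁) := by
        have : l * (x₁ - x₂) = y₁ - y₂ := by
          rw [hl]
          field_simp
        linear_combination this
      obtain ⟨q2, q3, q4⟩ := chord (c := y₁ - l * x₁) E1 E2 hx hy1 hy2 (by ring) L2
        (rfl : l ^ 2 - x₁ - x₂ = l ^ 2 - x₁ - x₂)
      obtain ⟨r1, r2⟩ := core2 v haA hbA (l := l) (c := y₁ - l * x₁) E1 E2 (eqn_of h₃) hx1 hx2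
        (by ring) L2 (by ring) rfl q2 q3 q4
      refine ⟨?_, r2⟩
      intro x y h e
      injection e with e1 e2
      rw [← e1]
      exact r1

end core

end Pool.Agent.Run7.h780.ZC
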