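import Pool.Agent.Run7.h780.ZC.Two

/-!
# The main lemma over finite extensions of `ℚ_p`
-/

set_option autoImplicit false
set_option linter.all false

namespace Pool.Agent.Run7.h780.ZC

open WeierstrassCurve Pool.Agent.H901R3.MS Pool.Agent.W275.FML
open Pool.Agent.Run7.h507.Loc1 (plp rs Bp nrm exists_frob rs_zero rs_eq Gp)
open scoped Classical

lemma coords_of' {K κ : Type} [Field K] [Field κ] {v : Place K κ} {A B : K}
    {red : Pt A B →+ Pt (v.r A) (v.r B)} (hred : IsRedK v A B red)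
    {R : Pt A B} {x y : κ} {g : (CV (v.r A) (v.r B)).toAffine.Nonsingular x y}
    (h : red R = Affine.Point.some x y g) :
    ∃ (X Y : K) (h : (CV A B).toAffine.Nonsingular X Y), R = Affine.Point.some X Y h ∧
      X ∈ v.A ∧ Y ∈ v.A ∧ v.r X = x ∧ v.r Y = y := by
  rcases R with _ | ⟨X, Y, hXY⟩
  · exact absurd (h.symm.trans hred.1) (Affine.Point.some_ne_zero g)
  · by_cases hX : X ∈ v.A
    · obtain ⟨hY, g', hg'⟩ := hred.2.2 X Y hXY hX
      rw [hg', Affine.Point.some.injEq] at h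
      exact ⟨X, Y, hXY, rfl, hX, hY, h.1, h.2⟩
    · exact absurd (h.symm.trans (hred.2.1 X Y hXY hX)) (Affine.Point.some_ne_zero g)

lemma coords_k' {k K : Type} [Field k] [Field K] {θ : k →+* K} {a b : k} {P : Pt a b} {X Y : K}
    {h : (CV (θ a) (θ b)).toAffine.Nonsingular X Y}
    (hP : pmap θ rfl rfl P = Affine.Point.some X Y h) :
    ∃ (x y : k) (h : (CV a b).toAffine.Nonsingular x y), P = Affine.Point.some x y h ∧
      X = θ x ∧ Y = θ y := by
  rcases P with _ | ⟨x, y, hxy⟩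
  · exact absurd (hP.symm.trans (map_zero (pmap θ rfl rfl))) (Affine.Point.some_ne_zero _)
  · rw [pmap_some, Affine.Point.some.injEq] at hP
    exact ⟨x, y, hxy, rfl, hP.1.symm, hP.2.symm⟩

lemma fix_iff {p : ℕ} [Fact p.Prime] {τ : Gp p} {a b : PadicAlgCl p} (ha : τ a = a)
    (hb : τ b = b) (Z : Pt a b) :
    pmap (rh τ) ha hb Z = Z ↔ ∀ z ∈ coords Z, τ z.1 = z.1 ∧ τ z.2 = z.2 := by
  constructor
  · intro h z hz
    have h2 := congrArg coords h
    rw [coords_pmap, Option.mem_def.1 hz, Option.map_some, Option.some.injEq] at h2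
    rw [Prod.ext_iff] at h2
    exact ⟨h2.1, h2.2⟩
  · intro h
    symm
    apply pmap_unique
    rcases hq : coords Z with _ | z
    · rfl
    · obtain ⟨h1, h2⟩ := h z hq
      rw [Option.map_some, Option.some.injEq, Prod.ext_iff]
      exact ⟨h1.symm, h2.symm⟩

/-- the finite field with `p ^ N` elements in an algebraic closure -/
lemma exists_gal (p : ℕ) [hpf : Fact p.Prime] {N : ℕ} (hN : N ≠ 0) :
    ∃ (K : Type) (_ : Field K) (_ : Fintype K) (ι : K →+* AlgebraicClosure (ZMod p)),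
      Fintype.card K = p ^ N ∧ ringChar K = p ∧ (∀ y : K, ι y ^ (p ^ N) = ι y) ∧
      ∀ z : AlgebraicClosure (ZMod p), z ^ (p ^ N) = z → ∃ y, ι y = z := by
  have := Fintype.ofFinite (GaloisField p N)
  have hcard : Fintype.card (GaloisField p N) = p ^ N := by
    rw [← Nat.card_eq_fintype_card, GaloisField.card p N hN]
  let ι : GaloisField p N →+* AlgebraicClosure (ZMod p) :=
    ((IsAlgClosed.lift : GaloisField p N →ₐ[ZMod p] AlgebraicClosure (ZMod p)) : _ →+* _)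
  have hι : ∀ y : GaloisField p N, ι y ^ (p ^ N) = ι y := by
    intro y
    rw [← map_pow, ← hcard, FiniteField.pow_card]
  refine ⟨GaloisField p N, inferInstance, this, ι, hcard, ?_, hι, ?_⟩
  · exact ringChar.eq (GaloisField p N) p
  · intro z hz
    have h1 : 1 < p ^ N := Nat.one_lt_pow hN hpf.out.one_lt
    obtain ⟨f, hf⟩ : ∃ f : Polynomial (AlgebraicClosure (ZMod p)),
      f = Polynomial.X ^ (p ^ N) - Polynomial.X := ⟨_, rfl⟩
    have hfd : f.natDegree = p ^ N := by rw [hf]; exact FiniteField.X_pow_card_sub_X_natDegree_eq _ h1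
    have hf0 : f ≠ 0 := by
      intro h
      rw [h, Polynomial.natDegree_zero] at hfd
      omega
    have hsub : Finset.univ.image ι ⊆ f.roots.toFinset := by
      intro x hx
      obtain ⟨y, -, rfl⟩ := Finset.mem_image.1 hx
      rw [Multiset.mem_toFinset, Polynomial.mem_roots hf0, Polynomial.IsRoot.def, hf,
        Polynomial.eval_sub, Polynomial.eval_pow, Polynomial.eval_X, hι, sub_self]
    have heq := Finset.eq_of_subset_of_card_le hsub (by
      rw [Finset.card_image_of_injective _ ι.injective, Finset.card_univ, hcard]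
      calc f.roots.toFinset.card ≤ Multiset.card f.roots := Multiset.toFinset_card_le _
        _ ≤ f.natDegree := Polynomial.card_roots' _
        _ = p ^ N := hfd)
    have hz' : z ∈ f.roots.toFinset := by
      rw [Multiset.mem_toFinset, Polynomial.mem_roots hf0, Polynomial.IsRoot.def, hf,
        Polynomial.eval_sub, Polynomial.eval_pow, Polynomial.eval_X, hz, sub_self]
    rw [← heq] at hz'
    obtain ⟨y, -, hy⟩ := Finset.mem_image.1 hz'
    exact ⟨y, hy⟩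

section
variable {k : Type} [Field k] [IsAlgClosed k] [CharZero k] {p : ℕ} [hpf : Fact p.Prime]
  {θ : k →+* PadicAlgCl p} {a b c d al be γ c0 : k}

/-- **the main lemma** -/
theorem key2 (M : Mob a b c d al be γ c0) (hD : Disc a b) (hD' : Disc c d)
    (BB : Pt a b →+ Pt c d →+ CH a b c d)
    (hBB : ∀ P Q, BB P Q = QuotientAddGroup.mk (cyc P Q))
    (na : ‖θ a‖ ≤ 1) (nb : ‖θ b‖ ≤ 1)
    (nC : ‖θ c‖ ≤ 1) (nD : ‖θ d‖ ≤ 1) (nal : ‖θ al‖ ≤ 1) (nbe : ‖θ be‖ ≤ 1) (nG : ‖θ γ‖ ≤ 1)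
    (nC0 : ‖θ c0‖ ≤ 1) (hDq : Disc ((plp p).r (θ a)) ((plp p).r (θ b)))
    (hγ : (plp p).r (θ γ) ^ 3 + (plp p).r (θ a) * (plp p).r (θ γ) + (plp p).r (θ b) ≠ 0)
    (hc : (plp p).r (θ c0) ≠ 0) (F : IntermediateField ℚ_[p] (PadicAlgCl p))
    [FiniteDimensional ℚ_[p] F] (P : Pt a b) (hnt : ∀ n : ℕ, n ≠ 0 → n • P ≠ 0) :
    ∃ Q : Pt c d, BB P Q = 0 ∧ ∀ m : ℤ, m ≠ 0 → ¬ RatF F θ (m • Q) := by
  have h2κ : (2 : AlgebraicClosure (ZMod p)) ≠ 0 := fun h => hDq (by rw [h, zero_mul])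
  have hp2 : p ≠ 2 := by
    rintro rfl
    apply h2κ
    have : CharP (AlgebraicClosure (ZMod 2)) 2 := inferInstance
    exact_mod_cast CharP.cast_eq_zero (AlgebraicClosure (ZMod 2)) 2
  have hDA : Disc (θ a) (θ b) := disc_map θ rfl rfl hD
  have ma := mem_v.2 na
  have mb := mem_v.2 nb
  have mG := mem_v.2 nG
  have mC0 := mem_v.2 nC0
  obtain ⟨red, hred⟩ := t_R6K t_R1K t_R2K t_R3K t_R4K t_R5K (PadicAlgCl p)
    (AlgebraicClosure (ZMod p)) (plp p) (θ a) (θ b) ma mb hDq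
  -- the Frobenius element
  obtain ⟨σ₀, hσ₀⟩ := exists_frob p
  obtain ⟨TS, hTS⟩ : ∃ TS : Finset (PadicAlgCl p), TS = {θ a, θ b, θ c, θ d, θ al, θ be, θ γ,
    θ c0} ∪ (match coords P with
      | none => ∅
      | some z => {θ z.1, θ z.2}) := ⟨_, rfl⟩
  obtain ⟨n, hn, hfix⟩ := fin_order_field σ₀ TS F
  obtain ⟨N, hNd⟩ : ∃ N, N = n * 3000 := ⟨_, rfl⟩
  have hN : N ≠ 0 := by omega
  have hfixN : ∀ r : ℕ, ∀ x ∈ TS, ((σ₀ ^ N) ^ r) x = x := by
    intro r x hx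
    rw [← pow_mul, hNd, mul_assoc]
    exact (hfix _).1 x hx
  have hfixF : ∀ r : ℕ, ∀ x ∈ F, ((σ₀ ^ N) ^ r) x = x := by
    intro r x hx
    rw [← pow_mul, hNd, mul_assoc]
    exact (hfix _).2 x hx
  obtain ⟨σ, hσd⟩ : ∃ σ, σ = σ₀ ^ N := ⟨_, rfl⟩
  rw [← hσd] at hfixN hfixF
  have hres : ∀ (r : ℕ) (x : PadicAlgCl p), ‖x‖ ≤ 1 →
      (plp p).r ((σ ^ r) x) = (plp p).r x ^ ((p ^ N) ^ r) := by
    intro r x hx
    rw [hσd, ← pow_mul, r_frob hσ₀ hx, pow_mul]
  have hσ1 : ∀ x : PadicAlgCl p, ‖x‖ ≤ 1 → (plp p).r (σ x) = (plp p).r x ^ (p ^ N) := by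
    intro x hx
    have := hres 1 x hx
    rwa [pow_one, pow_one] at this
  have hfix1 : ∀ x ∈ TS, σ x = x := by
    intro x hx
    have := hfixN 1 x hx
    rwa [pow_one] at this
  -- the finite field
  obtain ⟨K, _, _, ι, hKc, hKch, hι, hιs⟩ := exists_gal p hN
  have hlift : ∀ x ∈ TS, ‖x‖ ≤ 1 → ∃ y : K, ι y = (plp p).r x := by
    intro x hx hn
    apply hιs
    rw [← hσ1 x hn, hfix1 x hx]
  obtain ⟨A, hA⟩ := hlift (θ a) (by simp [hTS]) na
  obtain ⟨B, hB⟩ := hlift (θ b) (by simp [hTS]) nb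
  obtain ⟨G, hG⟩ := hlift (θ γ) (by simp [hTS]) nG
  obtain ⟨C0, hC0⟩ := hlift (θ c0) (by simp [hTS]) nC0
  obtain ⟨x₁, y₁, hE, hy1, hx1, hsq⟩ := exists_nonsquare' (F := K) (a := A) (b := B) (γ := G)
    (c0 := C0) (by rw [hKch]; exact hp2) (by
      rw [hKc]
      have h1 : 3000 ≤ N := by
        rw [hNd]
        have : 1 ≤ n := Nat.one_le_iff_ne_zero.2 hn
        omega
      exact h1.trans (Nat.lt_pow_self hpf.out.one_lt).le)
    (by
      intro h
      apply hγ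
      rw [← hA, ← hB, ← hG, ← map_pow, ← map_mul, ← map_add, ← map_add, h, map_zero])
    (by
      rintro rfl
      rw [map_zero] at hC0
      exact hc hC0.symm)
  have hDAB : Disc A B := by
    intro h
    apply hDq
    rw [← hA, ← hB]
    have := congrArg ι h
    rw [map_zero] at this
    rw [← this]
    simp only [map_mul, map_add, map_pow, map_ofNat]
  have hR1ns := (nonsingular_iff hDAB).2 hE
  obtain ⟨R₁, hR₁⟩ : ∃ R₁ : Pt A B, R₁ = Affine.Point.some x₁ y₁ hR1ns := ⟨_, rfl⟩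
  obtain ⟨θP, hθP⟩ : ∃ θP : Pt (θ a) (θ b), θP = pmap θ rfl rfl P := ⟨_, rfl⟩
  have hTP : ∀ z ∈ coords θP, z.1 ∈ TS ∧ z.2 ∈ TS := by
    intro z hz
    rw [hθP, coords_pmap] at hz
    rcases hq : coords P with _ | w
    · rw [hq] at hz
      simp at hz
    · rw [hq] at hz hTS
      simp only [Option.map_some, Option.mem_def, Option.some.injEq] at hz
      rw [← hz, hTS]
      simp
  obtain ⟨P₁, hP₁⟩ : ∃ P₁ : Pt A B, pmap ι hA hB P₁ = red θP := by
    rcases hq : red θP with _ | ⟨u, w, g⟩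
    · exact ⟨0, map_zero _⟩
    · obtain ⟨X, Y, hXY, e, hXA, hYA, hX, hY⟩ := coords_of' hred hq
      have h1 := hTP (X, Y) (by rw [e]; rfl)
      obtain ⟨X', hX'⟩ := hlift X h1.1 (mem_v.1 hXA)
      obtain ⟨Y', hY'⟩ := hlift Y h1.2 (mem_v.1 hYA)
      have g' : (CV ((plp p).r (θ a)) ((plp p).r (θ b))).toAffine.Nonsingular (ι X') (ι Y') := by
        rw [hX', hY', hX, hY]; exact g
      refine ⟨Affine.Point.some X' Y' (ns_desc ι hA hB g'), ?_⟩
      rw [pmap_some, Affine.Point.some.injEq, hX', hY', hX, hY]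
      exact ⟨rfl, rfl⟩
  have : Finite (Pt A B) := Finite.of_injective coords coords_injective
  obtain ⟨h, hh⟩ : ∃ h, h = Nat.card (Pt A B) := ⟨_, rfl⟩
  have hh0 : h ≠ 0 := hh ▸ Nat.card_pos.ne'
  have hkill : ∀ Z : Pt A B, h • Z = 0 := by
    intro Z
    rw [hh]
    exact card_nsmul_eq_zero'
  have fa : σ (θ a) = θ a := hfix1 _ (by simp [hTS])
  have fb : σ (θ b) = θ b := hfix1 _ (by simp [hTS])
  obtain ⟨T, r, hr, hT0, hTred, hTfix⟩ := exists_T2 σ hσ1 fa fb na nb hDA hDq hred ι hι hA hB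
    (R₁ - P₁) (by omega) (hkill _)
  obtain ⟨T₀, hT₀⟩ := tor_mem θ (rfl : θ a = θ a) (rfl : θ b = θ b) hD h (by omega) T hT0
  have hT₀0 : h • T₀ = 0 := by
    apply pmap_injective θ (rfl : θ a = θ a) (rfl : θ b = θ b)
    rw [map_nsmul, hT₀, hT0, map_zero]
  -- the automorphism
  obtain ⟨τ, hτd⟩ : ∃ τ, τ = σ ^ r := ⟨_, rfl⟩
  have hτ : ∀ x : PadicAlgCl p, ‖x‖ ≤ 1 → (plp p).r (τ x) = (plp p).r x ^ ((p ^ N) ^ r) := by
    rw [hτd]; exact hres r
  have hτT : ∀ x ∈ TS, τ x = x := by rw [hτd]; exact hfixN r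
  have hτF : ∀ x ∈ F, τ x = x := by rw [hτd]; exact hfixF r
  have ta : τ (θ a) = θ a := hτT _ (by simp [hTS])
  have tb : τ (θ b) = θ b := hτT _ (by simp [hTS])
  -- the small multiple
  have hWE : E1 (plp p) (h • θP) := by
    rw [← red_zero_iff' hred, map_nsmul, ← hP₁, ← map_nsmul, hkill, map_zero]
  have hp0 : (0 : ℝ) < (p : ℝ)⁻¹ := by
    have := hpf.out.pos
    positivity
  obtain ⟨m, hm, hsmall⟩ := ctt_small na nb hWE hp0
  have hsm := hsmall 1
  rw [one_mul] at hsm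
  have hmWE : E1 (plp p) (m • (h • θP)) := (ctt_nsmul na nb hWE m).1
  -- the two points
  have hRred : pmap ι hA hB R₁ = red θP + red T := by
    rw [← hP₁, hTred, ← map_add, add_sub_cancel]
  have k0 : pmap θ rfl rfl (P + T₀) = θP + T := by rw [map_add, hT₀, hθP]
  have k1 : pmap θ rfl rfl ((1 + m * h) • P + T₀) = (θP + T) + m • (h • θP) := by
    rw [map_add, map_nsmul, hT₀, ← hθP, add_smul, one_smul, mul_smul]
    abel
  have red0 : red (θP + T) = Affine.Point.some (ι x₁) (ι y₁) (ns_map ι hA hB hR1ns) := by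
    rw [map_add, ← hRred, hR₁, pmap_some]
  have red1 : red ((θP + T) + m • (h • θP)) =
      Affine.Point.some (ι x₁) (ι y₁) (ns_map ι hA hB hR1ns) := by
    rw [map_add, red0, (red_zero_iff' hred _).2 hmWE, add_zero]
  obtain ⟨X₀, Y₀, H₀, E₀, mX₀, mY₀, rX₀, rY₀⟩ := coords_of' hred red0
  obtain ⟨X₁, Y₁, H₁, E₁', mX₁, mY₁, rX₁, rY₁⟩ := coords_of' hred red1
  rw [E₀] at k0
  rw [E₁'] at k1
  obtain ⟨x₀, y₀, h₀, e₀, rfl, rfl⟩ := coords_k' k0
  obtain ⟨x₂, y₂, h₂, e₂, rfl, rfl⟩ := coords_k' k1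
  -- the fixed coordinates
  have fP : pmap (rh τ) ta tb θP = θP := (fix_iff ta tb θP).2 fun z hz =>
    ⟨hτT _ (hTP z hz).1, hτT _ (hTP z hz).2⟩
  have fT : pmap (rh τ) ta tb T = T := (fix_iff ta tb T).2 fun z hz => by
    rw [hτd]; exact hTfix z hz
  have f0 : pmap (rh τ) ta tb (θP + T) = θP + T := by rw [map_add, fP, fT]
  have f1 : pmap (rh τ) ta tb ((θP + T) + m • (h • θP)) = (θP + T) + m • (h • θP) := by
    rw [map_add, f0, map_nsmul, map_nsmul, fP]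
  rw [E₀, fix_iff] at f0
  rw [E₁', fix_iff] at f1
  obtain ⟨fX₀, fY₀⟩ := f0 (θ x₀, θ y₀) rfl
  obtain ⟨fX₁, fY₁⟩ := f1 (θ x₂, θ y₂) rfl
  simp only at fX₀ fY₀ fX₁ fY₁
  -- the two abscissas
  have hιy : ι y₁ ≠ 0 := (map_ne_zero ι).2 hy1
  have hne : x₀ ≠ x₂ := by
    intro hx
    have q0 := eqn_of h₀
    have q1 := eqn_of h₂
    unfold Eqn at q0 q1
    rw [← hx, ← q0] at q1
    rcases sq_eq_sq_iff_eq_or_eq_neg.1 q1 with hy | hy
    · have hPP : P + T₀ = (1 + m * h) • P + T₀ := by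
        rw [e₀, e₂, Affine.Point.some.injEq]
        exact ⟨hx, hy.symm⟩
      have h3 := add_right_cancel hPP
      rw [add_smul, one_smul] at h3
      exact hnt (m * h) (mul_ne_zero hm hh0) (by
        have := congrArg (fun z => z - P) h3
        simpa using this.symm)
    · have h4 : ι y₁ = -ι y₁ := by
        calc ι y₁ = (plp p).r (θ y₂) := rY₁.symm
          _ = (plp p).r (-θ y₀) := by rw [hy, map_neg]
          _ = -ι y₁ := by rw [(plp p).r_neg mY₀, rY₀]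
      have h5 : 2 * ι y₁ = 0 := by linear_combination h4
      exact (mul_ne_zero h2κ hιy) h5
  have hclose : ‖θ x₀ - θ x₂‖ < (p : ℝ)⁻¹ := by
    rcases hq : m • (h • θP) with _ | ⟨w₁, w₂, hw⟩
    · exfalso
      have hq' : m • (h • θP) = 0 := hq
      rw [hq', add_zero, E₀, Affine.Point.some.injEq] at E₁'
      exact hne (θ.injective E₁'.1)
    · have hw1 : w₁ ∉ (plp p).A := hmWE w₁ w₂ hw hq
      have hw1' : 1 < ‖w₁‖ := by rw [mem_v, not_le] at hw1; exact hw1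
      have hxw : θ x₀ ≠ w₁ := fun h => hw1 (h ▸ mX₀)
      obtain ⟨h₃, e3⟩ := add_ne H₀ hw hxw _ _ _ rfl rfl rfl
      rw [hq, E₀, e3, Affine.Point.some.injEq] at E₁'
      have hnear := near_alg na nb (mem_v.1 mX₀) (eqn_of H₀) (eqn_of hw) hw1' rfl rfl
      rw [E₁'.1] at hnear
      rw [norm_sub_rev]
      refine hnear.trans_lt ?_
      rw [hq] at hsm
      exact hsm
  have hub : (plp p).r (θ c0) * ((plp p).r (θ x₀) - (plp p).r (θ γ)) = ι (C0 * (x₁ - G)) := by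
    rw [map_mul, map_sub, hC0, hG, rX₀]
  have hmain := two_pts2 M hD hD' BB hBB nC nD nal nbe nG nC0 h2κ hτ
    (hτT _ (by simp [hTS])) (hτT _ (by simp [hTS])) (hτT _ (by simp [hTS]))
    (hτT _ (by simp [hTS])) (hτT _ (by simp [hTS])) (hτT _ (by simp [hTS])) h₀ h₂
    (mem_v.1 mX₀) (mem_v.1 mY₀) (mem_v.1 mX₁) (mem_v.1 mY₁) (rX₀.trans rX₁.symm)
    (rY₀.trans rY₁.symm) (by rw [rY₀]; exact hιy) fX₀ fY₀ fX₁ fY₁
    (by
      rw [hub]
      apply (map_ne_zero ι).2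
      intro h0
      exact hsq (h0 ▸ ⟨0, by ring⟩))
    (by
      intro s hs
      rw [hub] at hs
      have hodd : Odd (p ^ N) := (hpf.out.odd_of_ne_two hp2).pow
      exact frob_neg ι hodd hιs hι hsq hs hr)
    hne hclose
  rw [← e₀, ← e₂] at hmain
  have hfin : ∀ (N : ℕ) (P' : Pt a b) (Q : Pt c d), N ≠ 0 → h • P' = N • P → 2 • BB P' Q = 0 →
      (∀ m : ℤ, m ≠ 0 → ¬ RatF F θ (m • Q)) →
      ∃ Q : Pt c d, BB P Q = 0 ∧ ∀ m : ℤ, m ≠ 0 → ¬ RatF F θ (m • Q) := by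
    intro N P' Q hN hP' hQ hQm
    refine ⟨(2 * N) • Q, ?_, ?_⟩
    · rw [map_nsmul, mul_smul]
      have e1 : N • BB P Q = h • BB P' Q := by
        rw [← AddMonoidHom.nsmul_apply, ← map_nsmul, ← hP', map_nsmul, AddMonoidHom.nsmul_apply]
      rw [e1, smul_comm, hQ, smul_zero]
    · intro m hm
      have e2 : m • ((2 * N) • Q) = (m * ((2 * N : ℕ) : ℤ)) • Q := by
        rw [← natCast_zsmul Q (2 * N), ← mul_smul]
      rw [e2]
      apply hQm
      apply mul_ne_zero hm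
      exact_mod_cast mul_ne_zero two_ne_zero hN
  rcases hmain with ⟨Q, hQ, hQn, hQτ⟩ | ⟨Q, hQ, hQn, hQτ⟩
  · exact hfin h (P + T₀) Q hh0 (by rw [smul_add, hT₀0, add_zero]) hQ
      (anti2 _ _ hQτ hQn F hτF)
  · exact hfin (h * (1 + m * h)) ((1 + m * h) • P + T₀) Q (mul_ne_zero hh0 (by omega))
      (by rw [smul_add, hT₀0, add_zero, mul_smul]) hQ (anti2 _ _ hQτ hQn F hτF)

end

end Pool.Agent.Run7.h780.ZC
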