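import Pool.Agent.Run7.h780.ZC.Frb

/-!
# Points close to each other
-/

set_option autoImplicit false
set_option linter.all false

namespace Pool.Agent.Run7.h780.ZC

open WeierstrassCurve Pool.Agent.H901R3.MS Pool.Agent.W275.FML
open scoped Classical

section
variable {K : Type} [NormedField K] [IsUltrametricDist K]

lemma g_le {x y : K} {r : ℝ} (hx : ‖x‖ ≤ r) (hy : ‖y‖ ≤ r) : ‖x + y‖ ≤ r :=
  (IsUltrametricDist.norm_add_le_max x y).trans (max_le hx hy)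

lemma g_lt {x y : K} {r : ℝ} (hx : ‖x‖ < r) (hy : ‖y‖ < r) : ‖x + y‖ < r :=
  (IsUltrametricDist.norm_add_le_max x y).trans_lt (max_lt hx hy)

lemma g_eq {x y : K} (h : ‖y‖ < ‖x‖) : ‖x + y‖ = ‖x‖ := by
  apply le_antisymm (g_le le_rfl h.le)
  by_contra hcon
  rw [not_le] at hcon
  have h : ‖(x + y) + (-y)‖ < ‖x‖ := g_lt hcon (by rw [norm_neg]; exact h)
  rw [add_neg_cancel_right] at h
  exact lt_irrefl _ h

lemma g_two : ‖(2 : K)‖ ≤ 1 := by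
  have : (2 : K) = 1 + 1 := by norm_num
  rw [this]
  exact g_le (by rw [norm_one]) (by rw [norm_one])

lemma g_three : ‖(3 : K)‖ ≤ 1 := by
  have : (3 : K) = 2 + 1 := by norm_num
  rw [this]
  exact g_le g_two (by rw [norm_one])

lemma g_mul {x y : K} (hx : ‖x‖ ≤ 1) (hy : ‖y‖ ≤ 1) : ‖x * y‖ ≤ 1 := by
  rw [norm_mul]
  exact mul_le_one₀ hx (norm_nonneg _) hy

lemma g_pow {x : K} (hx : ‖x‖ ≤ 1) (n : ℕ) : ‖x ^ n‖ ≤ 1 := by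
  rw [norm_pow]
  exact pow_le_one₀ (norm_nonneg _) hx

lemma g_sub {x y : K} (hx : ‖x‖ ≤ 1) (hy : ‖y‖ ≤ 1) : ‖x - y‖ ≤ 1 := by
  rw [sub_eq_add_neg]
  exact g_le hx (by rw [norm_neg]; exact hy)

variable {a b : K}

/-- sizes of the coordinates of a point close to the origin -/
lemma size_y (ha : ‖a‖ ≤ 1) (hb : ‖b‖ ≤ 1) {x y : K} (hE : Eqn a b x y) (hx : 1 < ‖x‖) :
    ‖y‖ ^ 2 = ‖x‖ ^ 3 := by
  unfold Eqn at hE
  have h1 : ‖a * x + b‖ < ‖x ^ 3‖ := by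
    rw [norm_pow]
    have h3 : ‖x‖ < ‖x‖ ^ 3 := by
      calc ‖x‖ = ‖x‖ ^ 1 := (pow_one _).symm
        _ < ‖x‖ ^ 3 := pow_lt_pow_right₀ hx (by norm_num)
    apply g_lt
    · rw [norm_mul]
      calc ‖a‖ * ‖x‖ ≤ 1 * ‖x‖ := by gcongr
        _ < ‖x‖ ^ 3 := by rw [one_mul]; exact h3
    · linarith
  have h2 : x ^ 3 + a * x + b = x ^ 3 + (a * x + b) := by ring
  rw [← norm_pow, hE, h2, g_eq h1, norm_pow]

/-- adding a point close to the origin -/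
lemma near_alg (ha : ‖a‖ ≤ 1) (hb : ‖b‖ ≤ 1) {x y w₁ w₂ l x₃ : K} (hx : ‖x‖ ≤ 1)
    (hE : Eqn a b x y) (hW : Eqn a b w₁ w₂) (hw : 1 < ‖w₁‖) (hl : l = (y - w₂) / (x - w₁))
    (hx₃ : x₃ = l ^ 2 - x - w₁) : ‖x₃ - x‖ ≤ ‖w₁ / w₂‖ := by
  have hs := size_y ha hb hW hw
  have hy : ‖y‖ ≤ 1 := by
    have h1 : ‖y‖ ^ 2 ≤ 1 := by
      rw [← norm_pow, hE]
      exact g_le (g_le (g_pow hx 3) (g_mul ha hx)) hb
    by_contra hcon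
    rw [not_le] at hcon
    have : 1 < ‖y‖ ^ 2 := one_lt_pow₀ hcon two_ne_zero
    linarith
  have hw20 : 0 < ‖w₂‖ := by
    rcases (norm_nonneg w₂).lt_or_eq with h | h
    · exact h
    · rw [← h] at hs
      have : 0 < ‖w₁‖ ^ 3 := by positivity
      norm_num at hs
      rw [← hs] at this
      norm_num at this
  have hw21 : ‖w₁‖ ≤ ‖w₂‖ := by
    by_contra hcon
    rw [not_le] at hcon
    have h1 : ‖w₂‖ ^ 2 < ‖w₁‖ ^ 2 := by gcongr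
    have h2 : ‖w₁‖ ^ 2 < ‖w₁‖ ^ 3 := pow_lt_pow_right₀ hw (by norm_num)
    linarith
  have hd : ‖x - w₁‖ = ‖w₁‖ := by
    have e : x - w₁ = -(w₁ + -x) := by ring
    rw [e, norm_neg, g_eq]
    rw [norm_neg]
    linarith
  have hd0 : x - w₁ ≠ 0 := by
    intro h
    rw [h, norm_zero] at hd
    linarith
  have key : (x₃ - x) * (x - w₁) ^ 2 = (3 * x ^ 2 + a) * w₁ + -(2 * y * w₂) +
      (b + y ^ 2 - 2 * x ^ 3) := by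
    unfold Eqn at hE hW
    rw [hx₃, hl]
    field_simp
    linear_combination hW
  have hR : ‖(x₃ - x) * (x - w₁) ^ 2‖ ≤ ‖w₂‖ := by
    rw [key]
    apply g_le
    · apply g_le
      · rw [norm_mul]
        calc ‖3 * x ^ 2 + a‖ * ‖w₁‖ ≤ 1 * ‖w₁‖ := by
              gcongr
              exact g_le (g_mul g_three (g_pow hx 2)) ha
          _ ≤ ‖w₂‖ := by rw [one_mul]; exact hw21
      · rw [norm_neg, norm_mul]
        calc ‖2 * y‖ * ‖w₂‖ ≤ 1 * ‖w₂‖ := by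
              gcongr
              exact g_mul g_two hy
          _ = ‖w₂‖ := one_mul _
    · have : ‖b + y ^ 2 - 2 * x ^ 3‖ ≤ 1 :=
        g_sub (g_le hb (g_pow hy 2)) (g_mul g_two (g_pow hx 3))
      linarith
  rw [norm_mul, norm_pow, hd] at hR
  rw [norm_div, le_div_iff₀ hw20]
  have h5 : ‖x₃ - x‖ * ‖w₂‖ * (‖w₁‖ ^ 2) ≤ ‖w₁‖ * (‖w₁‖ ^ 2) := by
    calc ‖x₃ - x‖ * ‖w₂‖ * (‖w₁‖ ^ 2) = (‖x₃ - x‖ * ‖w₁‖ ^ 2) * ‖w₂‖ := by ring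
      _ ≤ ‖w₂‖ * ‖w₂‖ := by gcongr
      _ = ‖w₁‖ * (‖w₁‖ ^ 2) := by rw [← pow_two, hs]; ring
  exact le_of_mul_le_mul_right h5 (by positivity)

/-- the difference of two points with the same reduction -/
lemma diff_alg (ha : ‖a‖ ≤ 1) (hb : ‖b‖ ≤ 1) {x₀ y₀ x₁ y₁ : K} (nx₀ : ‖x₀‖ ≤ 1) (nx₁ : ‖x₁‖ ≤ 1)
    (h₀ : (CV a b).toAffine.Nonsingular x₀ y₀) (h₁ : (CV a b).toAffine.Nonsingular x₁ y₁)
    (hne : x₀ ≠ x₁) (hlt : ‖x₀ - x₁‖ < 1) (hy : ‖y₀ + y₁‖ = 1) :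
    ∃ (X Y : K) (h : (CV a b).toAffine.Nonsingular X Y),
      (Affine.Point.some x₀ y₀ h₀ - Affine.Point.some x₁ y₁ h₁ : Pt a b) =
        Affine.Point.some X Y h ∧ 1 < ‖X‖ ∧ ‖X / Y‖ = ‖x₀ - x₁‖ := by
  have h₁' : (CV a b).toAffine.Nonsingular x₁ (-y₁) := by
    have := (Affine.nonsingular_neg x₁ y₁).2 h₁
    simpa [Affine.negY, CV] using this
  obtain ⟨h₃, e⟩ := add_ne h₀ h₁' hne _ _ _ rfl rfl rfl
  refine ⟨_, _, h₃, by rw [sub_eq_add_neg, neg_some' h₁ h₁', e], ?_, ?_⟩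
  · have hpos : 0 < ‖x₀ - x₁‖ := norm_pos_iff.2 (sub_ne_zero.2 hne)
    have h1 : ‖((y₀ - -y₁) / (x₀ - x₁)) ^ 2‖ = (‖x₀ - x₁‖ ^ 2)⁻¹ := by
      rw [sub_neg_eq_add, norm_pow, norm_div, hy, one_div, inv_pow]
    have h2 : 1 < (‖x₀ - x₁‖ ^ 2)⁻¹ := by
      rw [one_lt_inv₀ (by positivity)]
      exact pow_lt_one₀ hpos.le hlt two_ne_zero
    have e1 : ((y₀ - -y₁) / (x₀ - x₁)) ^ 2 - x₀ - x₁ =
        ((y₀ - -y₁) / (x₀ - x₁)) ^ 2 + -(x₀ + x₁) := by ring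
    rw [e1, g_eq, h1]
    · exact h2
    · rw [h1, norm_neg]
      exact (g_le nx₀ nx₁).trans_lt h2
  · have hpos : 0 < ‖x₀ - x₁‖ := norm_pos_iff.2 (sub_ne_zero.2 hne)
    obtain ⟨X, hX⟩ : ∃ X, X = ((y₀ - -y₁) / (x₀ - x₁)) ^ 2 - x₀ - x₁ := ⟨_, rfl⟩
    have h1 : ‖((y₀ - -y₁) / (x₀ - x₁)) ^ 2‖ = (‖x₀ - x₁‖ ^ 2)⁻¹ := by
      rw [sub_neg_eq_add, norm_pow, norm_div, hy, one_div, inv_pow]
    have h2 : 1 < (‖x₀ - x₁‖ ^ 2)⁻¹ := by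
      rw [one_lt_inv₀ (by positivity)]
      exact pow_lt_one₀ hpos.le hlt two_ne_zero
    have e1 : ((y₀ - -y₁) / (x₀ - x₁)) ^ 2 - x₀ - x₁ =
        ((y₀ - -y₁) / (x₀ - x₁)) ^ 2 + -(x₀ + x₁) := by ring
    have h3 : ‖X‖ = (‖x₀ - x₁‖ ^ 2)⁻¹ := by
      rw [hX, e1, g_eq, h1]
      rw [h1, norm_neg]
      exact (g_le nx₀ nx₁).trans_lt h2
    have hE := eqn_of h₃
    rw [← hX] at hE ⊢
    have h4 := size_y ha hb hE (h3 ▸ h2)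
    generalize -((y₀ - -y₁) / (x₀ - x₁) * (X - x₀) + y₀) = Y at h4 ⊢
    have h5 : ‖X / Y‖ ^ 2 = ‖x₀ - x₁‖ ^ 2 := by
      rw [norm_div, div_pow, h4]
      have : 0 < ‖X‖ := by rw [h3]; positivity
      have e2 : ‖X‖ ^ 2 / ‖X‖ ^ 3 = ‖X‖⁻¹ := by field_simp
      rw [e2, h3, inv_inv]
    exact (pow_left_inj₀ (norm_nonneg _) (norm_nonneg _) two_ne_zero).1 h5

end

end Pool.Agent.Run7.h780.ZC
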