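import Pool.Agent.Run7.h780.ZC.Defs

/-!
# Places of `Ω` over `t = 0` and `t = ∞`
-/

set_option autoImplicit false
set_option linter.all false

namespace Pool.Agent.Run7.h780.ZC

open WeierstrassCurve Pool.Agent.H901R3.MS Polynomial

variable {k : Type} [Field k]

lemma io_eq (e : k) : io k e = algebraMap (RatFunc k) (Om k) (algebraMap k (RatFunc k) e) :=
  IsScalarTower.algebraMap_apply k (RatFunc k) (Om k) e

lemma tv_aeval (g : k[X]) : aeval (tv k) g = algebraMap (RatFunc k) (Om k)
    (algebraMap k[X] (RatFunc k) g) := by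
  have h : aeval (tv k) g = algebraMap (RatFunc k) (Om k) (aeval (RatFunc.X : RatFunc k) g) := by
    rw [tv, aeval_algebraMap_apply]
  rw [h]
  congr 1
  rw [← RatFunc.algebraMap_X, aeval_algebraMap_apply]
  congr 1
  exact Polynomial.aeval_X_left_apply g

lemma tv_transc {g : k[X]} (h : aeval (tv k) g = 0) : g = 0 := by
  rw [tv_aeval] at h
  have h1 := (map_eq_zero _).1 h
  exact (map_eq_zero_iff _ (RatFunc.algebraMap_injective k)).1 h1

lemma tv_ne : tv k ≠ 0 := by
  intro h
  have := tv_transc (k := k) (g := X) (by rw [aeval_X, h])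
  exact X_ne_zero this

lemma tvi_transc {g : k[X]} (h : aeval (tv k)⁻¹ g = 0) : g = 0 := by
  have hu : IsUnit (tv k) := (tv_ne).isUnit
  let _ : Invertible (tv k) := invertibleOfNonzero tv_ne
  have h1 : eval₂ (algebraMap k (Om k)) (⅟(tv k)) (reflect g.natDegree (reflect g.natDegree g)) = 0 := by
    rw [reflect_reflect, invOf_eq_inv]
    exact h
  rw [eval₂_reflect_eq_zero_iff] at h1
  · have h2 := tv_transc (g := reflect g.natDegree g) h1
    rwa [reflect_eq_zero_iff] at h2
  · exact Polynomial.natDegree_reflect_le.trans (by simp)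

/-- a valuation ring which contains the constants and where `u` is not a unit -/
lemma exists_valuation {u : Om k} (hu : ∀ g : k[X], aeval u g = 0 → g = 0) :
    ∃ w : ValuationSubring (Om k), (∀ e : k, io k e ∈ w) ∧ w.valuation u < 1 := by
  set A : Subring (Om k) := (Algebra.adjoin k {u}).toSubring with hA
  have huA : u ∈ A := Algebra.subset_adjoin (Set.mem_singleton u)
  set I : Ideal A := Ideal.span {⟨u, huA⟩} with hI
  have hI1 : I ≠ ⊤ := by
    intro h
    rw [Ideal.eq_top_iff_one, hI, Ideal.mem_span_singleton'] at h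
    obtain ⟨⟨a, ha⟩, h⟩ := h
    have ha' : a ∈ Algebra.adjoin k {u} := ha
    rw [Algebra.adjoin_singleton_eq_range_aeval] at ha'
    obtain ⟨g, rfl⟩ := ha'
    have h1 : aeval u g * u = 1 := congrArg Subtype.val h
    have h2 := hu (g * X - 1) (by rw [map_sub, map_mul, aeval_X, map_one, h1, sub_self])
    have h3 := congrArg (Polynomial.eval 0) h2
    simp at h3
  obtain ⟨B, hB1, hB2⟩ := Ideal.image_subset_nonunits_valuationSubring I hI1
  refine ⟨B, fun e => hB1 ((Algebra.adjoin k {u}).algebraMap_mem e), ?_⟩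
  have h1 : u ∈ B.nonunits := hB2 ⟨⟨u, huA⟩, Ideal.subset_span rfl, rfl⟩
  exact h1

/-- every element is algebraic over `k(t)` -/
lemma exists_rel (x : Om k) : ∃ G : k[X][X], G ≠ 0 ∧
    G.eval₂ (aeval (tv k) : k[X] →ₐ[k] Om k).toRingHom x = 0 := by
  have h1 : IsAlgebraic (RatFunc k) x := Algebra.IsAlgebraic.isAlgebraic x
  have h2 : IsAlgebraic k[X] x := (IsFractionRing.isAlgebraic_iff k[X] (RatFunc k) (Om k)).2 h1
  obtain ⟨G, hG, hG0⟩ := h2
  refine ⟨G, hG, ?_⟩
  rw [← hG0, aeval_def]
  congr 1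
  ext g
  · change aeval (tv k) (C g) = algebraMap k[X] (Om k) (C g)
    rw [aeval_C]
    rfl
  · change aeval (tv k) X = algebraMap k[X] (Om k) X
    rw [aeval_X, tv, IsScalarTower.algebraMap_apply k[X] (RatFunc k) (Om k), RatFunc.algebraMap_X]

lemma exists_rel_inv (x : Om k) : ∃ G : k[X][X], G ≠ 0 ∧
    G.eval₂ (aeval (tv k)⁻¹ : k[X] →ₐ[k] Om k).toRingHom x = 0 := by
  obtain ⟨G, hG, hG0⟩ := exists_rel x
  set D : ℕ := G.support.sup fun i => (G.coeff i).natDegree with hD
  have hdeg : ∀ i, (G.coeff i).natDegree ≤ D := by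
    intro i
    by_cases hi : i ∈ G.support
    · exact Finset.le_sup (f := fun i => (G.coeff i).natDegree) hi
    · rw [Polynomial.notMem_support_iff.1 hi]
      simp
  let _ : Invertible (tv k) := invertibleOfNonzero tv_ne
  refine ⟨∑ i ∈ G.support, monomial i (reflect D (G.coeff i)), ?_, ?_⟩
  · intro h
    apply hG
    ext1 i
    have h1 := congrArg (fun p : k[X][X] => p.coeff i) h
    simp only [finset_sum_coeff, coeff_monomial, Polynomial.coeff_zero] at h1
    rw [Finset.sum_ite_eq'] at h1
    rw [Polynomial.coeff_zero]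
    by_cases hi : i ∈ G.support
    · rw [if_pos hi, reflect_eq_zero_iff] at h1
      exact h1
    · exact Polynomial.notMem_support_iff.1 hi
  · rw [eval₂_finset_sum]
    have h2 : ∀ i, (aeval (tv k)⁻¹ : k[X] →ₐ[k] Om k) (reflect D (G.coeff i)) * tv k ^ D =
        aeval (tv k) (G.coeff i) := by
      intro i
      have := eval₂_reflect_mul_pow (algebraMap k (Om k)) (tv k) D (G.coeff i) (hdeg i)
      rw [invOf_eq_inv] at this
      exact this
    have h3 : (∑ i ∈ G.support, eval₂ (aeval (tv k)⁻¹ : k[X] →ₐ[k] Om k).toRingHom x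
        (monomial i (reflect D (G.coeff i)))) * tv k ^ D = 0 := by
      rw [← hG0, eval₂_eq_sum, Polynomial.sum_def, Finset.sum_mul]
      refine Finset.sum_congr rfl fun i _ => ?_
      rw [eval₂_monomial]
      change aeval (tv k)⁻¹ (reflect D (G.coeff i)) * x ^ i * tv k ^ D =
        aeval (tv k) (G.coeff i) * x ^ i
      rw [← h2]
      ring
    exact (mul_eq_zero.1 h3).resolve_right (pow_ne_zero _ tv_ne)

/-- a relation which is not divisible by the first variable -/
lemma exists_primitive {u x : Om k} (hu0 : u ≠ 0) : ∀ (n : ℕ) (G : k[X][X]),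
    G.leadingCoeff.natDegree = n → G ≠ 0 →
    G.eval₂ (aeval u : k[X] →ₐ[k] Om k).toRingHom x = 0 →
    ∃ G' : k[X][X], G'.map (evalRingHom 0) ≠ 0 ∧
      G'.eval₂ (aeval u : k[X] →ₐ[k] Om k).toRingHom x = 0 := by
  intro n
  induction n using Nat.strong_induction_on with
  | _ n ih =>
    intro G hn hG hG0
    by_cases h : G.map (evalRingHom 0) = 0
    · have h1 : C X ∣ G := by
        rw [C_dvd_iff_dvd_coeff]
        intro i
        rw [X_dvd_iff]
        have h2 := congrArg (fun p : k[X] => p.coeff i) h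
        simp only [coeff_map, Polynomial.coeff_zero, coe_evalRingHom] at h2
        rw [coeff_zero_eq_eval_zero]
        exact h2
      obtain ⟨G1, rfl⟩ := h1
      have hG1 : G1 ≠ 0 := right_ne_zero_of_mul hG
      have hl : (C X * G1).leadingCoeff = X * G1.leadingCoeff := by
        rw [leadingCoeff_mul, leadingCoeff_C]
      have hd : G1.leadingCoeff.natDegree < n := by
        rw [← hn, hl, natDegree_mul X_ne_zero (leadingCoeff_ne_zero.2 hG1), natDegree_X]
        omega
      refine ih _ hd G1 rfl hG1 ?_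
      rw [eval₂_mul, eval₂_C] at hG0
      have : (aeval u : k[X] →ₐ[k] Om k).toRingHom X = u := by
        change aeval u X = u
        rw [aeval_X]
      rw [this] at hG0
      exact (mul_eq_zero.1 hG0).resolve_left hu0
    · exact ⟨G, h, hG0⟩

lemma val_prod {w : ValuationSubring (Om k)} {x : Om k} (hw : ∀ e : k, io k e ∈ w) (hx : x ∈ w)
    (h : ∀ e : k, ¬ w.valuation (x - io k e) < 1) (s : Multiset k) :
    w.valuation ((s.map (fun a => x - io k a)).prod) = 1 := by
  induction s using Multiset.induction_on with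
  | empty => simp
  | cons a s ih =>
    rw [Multiset.map_cons, Multiset.prod_cons, map_mul, ih, mul_one]
    refine le_antisymm ((w.valuation_le_one_iff _).2 (sub_mem hx (hw a))) (not_lt.1 (h a))

lemma val_const {w : ValuationSubring (Om k)} (hw : ∀ e : k, io k e ∈ w) {e : k} (he : e ≠ 0) :
    w.valuation (io k e) = 1 := by
  have h1 : w.valuation (io k e) ≤ 1 := (w.valuation_le_one_iff _).2 (hw e)
  have h2 : w.valuation (io k e⁻¹) ≤ 1 := (w.valuation_le_one_iff _).2 (hw _)
  have h3 : w.valuation (io k e) * w.valuation (io k e⁻¹) = 1 := by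
    rw [← map_mul, ← map_mul, mul_inv_cancel₀ he, map_one, map_one]
  refine le_antisymm h1 ?_
  by_contra hcon
  push Not at hcon
  have : w.valuation (io k e) * w.valuation (io k e⁻¹) < 1 := mul_lt_one_of_lt_of_le hcon h2
  rw [h3] at this
  exact lt_irrefl _ this

/-- the residue field is the field of constants -/
lemma exists_residue [IsAlgClosed k] {u : Om k} {w : ValuationSubring (Om k)} (hu0 : u ≠ 0)
    (hw : ∀ e : k, io k e ∈ w) (hu : w.valuation u < 1) {x : Om k} (hx : x ∈ w)
    (hG : ∃ G : k[X][X], G ≠ 0 ∧ G.eval₂ (aeval u : k[X] →ₐ[k] Om k).toRingHom x = 0) :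
    ∃ e : k, w.valuation (x - io k e) < 1 := by
  obtain ⟨G, hG0, hG1⟩ := hG
  have huw : u ∈ w := (w.valuation_le_one_iff u).1 hu.le
  obtain ⟨G', hG', hG'1⟩ := exists_primitive hu0 _ G rfl hG0 hG1
  set g : k[X] := G'.map (evalRingHom 0) with hg
  have h1 : (C X : k[X][X]) ∣ G' - g.map C := by
    rw [C_dvd_iff_dvd_coeff]
    intro i
    rw [coeff_sub, coeff_map, hg, coeff_map, coe_evalRingHom, ← coeff_zero_eq_eval_zero]
    exact X_dvd_sub_C
  obtain ⟨H, hH⟩ := h1
  have hmem : ∀ b : k[X], aeval u b ∈ w := by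
    intro b
    rw [aeval_eq_sum_range]
    refine sum_mem fun i _ => ?_
    rw [Algebra.smul_def]
    exact mul_mem (hw _) (pow_mem huw _)
  have hHm : H.eval₂ (aeval u : k[X] →ₐ[k] Om k).toRingHom x ∈ w := by
    rw [eval₂_eq_sum_range]
    exact sum_mem fun i _ => mul_mem (hmem _) (pow_mem hx _)
  have h2 : aeval x g = -(u * H.eval₂ (aeval u : k[X] →ₐ[k] Om k).toRingHom x) := by
    have h3 : G' = g.map C + C X * H := by rw [← hH]; ring
    have h4 := hG'1
    rw [h3, eval₂_add, eval₂_mul, eval₂_C, eval₂_map] at h4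
    have h5 : (aeval u : k[X] →ₐ[k] Om k).toRingHom X = u := by
      change aeval u X = u
      rw [aeval_X]
    have h6 : ((aeval u : k[X] →ₐ[k] Om k).toRingHom).comp C = algebraMap k (Om k) := by
      ext e
      change aeval u (C e) = _
      rw [aeval_C]
    rw [h5, h6] at h4
    rw [aeval_def]
    exact eq_neg_of_add_eq_zero_left h4
  have h3 : w.valuation (aeval x g) < 1 := by
    rw [h2, Valuation.map_neg, map_mul]
    exact mul_lt_one_of_lt_of_le hu ((w.valuation_le_one_iff _).2 hHm)
  by_contra hcon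
  push Not at hcon
  have h4 : g = C g.leadingCoeff * (g.roots.map fun a => X - C a).prod :=
    (IsAlgClosed.splits g).eq_prod_roots
  have h5 : aeval x g = io k g.leadingCoeff * (g.roots.map (fun a => x - io k a)).prod := by
    conv_lhs => rw [h4]
    rw [map_mul, aeval_C, map_multiset_prod, Multiset.map_map]
    congr 2
    refine Multiset.map_congr rfl fun a _ => ?_
    simp
  rw [h5, map_mul, val_const hw (leadingCoeff_ne_zero.2 hG'),
    val_prod hw hx (fun e he => absurd he (not_lt.2 (hcon e))), mul_one] at h3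
  exact lt_irrefl _ h3

/-- a valuation ring as a place with values in the field of constants -/
theorem exists_place [IsAlgClosed k] {u : Om k} {w : ValuationSubring (Om k)} (hu0 : u ≠ 0)
    (hw : ∀ e : k, io k e ∈ w) (hu : w.valuation u < 1)
    (hG : ∀ x : Om k, ∃ G : k[X][X], G ≠ 0 ∧
      G.eval₂ (aeval u : k[X] →ₐ[k] Om k).toRingHom x = 0) :
    ∃ v : Place (Om k) k, (∀ x, x ∈ v.A ↔ x ∈ w) ∧ (∀ e : k, v.r (io k e) = e) ∧
      ∀ x, w.valuation x < 1 ↔ x ∈ v.A ∧ v.r x = 0 := by
  have huniq : ∀ (x : Om k) (e e' : k), w.valuation (x - io k e) < 1 →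
      w.valuation (x - io k e') < 1 → e = e' := by
    intro x e e' h1 h2
    by_contra hne
    have h3 : w.valuation (io k (e - e')) < 1 := by
      have : io k (e - e') = (x - io k e') - (x - io k e) := by rw [map_sub]; ring
      rw [this]
      exact Valuation.map_sub_lt _ h2 h1
    rw [val_const hw (sub_ne_zero.2 hne)] at h3
    exact lt_irrefl _ h3
  choose f hf using fun x : w => exists_residue hu0 hw hu x.2 (hG x)
  have hval : ∀ x : w, w.valuation (x : Om k) ≤ 1 := fun x => (w.valuation_le_one_iff _).2 x.2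
  have hfc : ∀ (e : k), f ⟨io k e, hw e⟩ = e := fun e =>
    huniq _ _ _ (hf _) (by simp)
  let ρ : w.toSubring →+* k :=
    { toFun := f
      map_one' := huniq 1 _ _ (hf 1) (by simp)
      map_zero' := huniq 0 _ _ (hf 0) (by simp)
      map_add' := by
        intro x y
        refine huniq (x + y) _ _ (hf (x + y)) ?_
        have : ((x : Om k) + y) - io k (f x + f y) = ((x : Om k) - io k (f x)) + (y - io k (f y)) := by
          rw [map_add]; ring
        rw [this]
        exact Valuation.map_add_lt _ (hf x) (hf y)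
      map_mul' := by
        intro x y
        refine huniq (x * y) _ _ (hf (x * y)) ?_
        have : ((x : Om k) * y) - io k (f x * f y) =
            ((x : Om k) - io k (f x)) * y + io k (f x) * (y - io k (f y)) := by
          rw [map_mul]; ring
        rw [this]
        refine Valuation.map_add_lt _ ?_ ?_
        · rw [map_mul]
          exact mul_lt_one_of_lt_of_le (hf x) (hval y)
        · rw [map_mul, mul_comm]
          exact mul_lt_one_of_lt_of_le (hf y) ((w.valuation_le_one_iff _).2 (hw _)) }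
  have hρ : ∀ x : w.toSubring, w.valuation (x : Om k) < 1 ↔ ρ x = 0 := by
    intro x
    constructor
    · intro h
      exact huniq (x : Om k) _ _ (hf x) (by simpa using h)
    · intro h
      have h1 := hf x
      have h2 : f x = 0 := h
      rw [h2, map_zero, sub_zero] at h1
      exact h1
  refine ⟨⟨w.toSubring, ρ, ?_, ?_⟩, fun x => Iff.rfl, ?_, ?_⟩
  · intro x hx
    have h1 : x⁻¹ ∈ w := (w.mem_or_inv_mem x).resolve_left hx
    refine ⟨h1, (hρ ⟨x⁻¹, h1⟩).1 ?_⟩
    have h2 : 1 < w.valuation x := by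
      rw [← not_le, w.valuation_le_one_iff]
      exact hx
    change w.valuation x⁻¹ < 1
    rw [map_inv₀]
    exact inv_lt_one_of_one_lt₀ h2
  · intro x hx
    have h1 : ¬ w.valuation (x : Om k) < 1 := fun h => hx ((hρ x).1 h)
    have h2 : w.valuation (x : Om k) = 1 := le_antisymm (hval x) (not_lt.1 h1)
    change (x : Om k)⁻¹ ∈ w
    rw [← w.valuation_le_one_iff, map_inv₀, h2, inv_one]
  · intro e
    rw [Place.r_of _ (hw e)]
    exact hfc e
  · intro x
    constructor
    · intro h
      have hx : x ∈ w := (w.valuation_le_one_iff x).1 h.le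
      refine ⟨hx, ?_⟩
      rw [Place.r_of _ (show x ∈ w.toSubring from hx)]
      exact (hρ ⟨x, hx⟩).1 h
    · rintro ⟨hx, h⟩
      rw [Place.r_of _ hx] at h
      exact (hρ ⟨x, hx⟩).2 h

/-- places over `t = 0` and `t = ∞` -/
theorem exists_places (k : Type) [Field k] [IsAlgClosed k] :
    ∃ (w w' : ValuationSubring (Om k)) (v v' : Place (Om k) k),
      (∀ e : k, io k e ∈ w) ∧ w.valuation (tv k) < 1 ∧
      (∀ e : k, io k e ∈ w') ∧ w'.valuation (tv k)⁻¹ < 1 ∧
      ((∀ x, x ∈ v.A ↔ x ∈ w) ∧ (∀ e : k, v.r (io k e) = e) ∧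
        ∀ x, w.valuation x < 1 ↔ x ∈ v.A ∧ v.r x = 0) ∧
      ((∀ x, x ∈ v'.A ↔ x ∈ w') ∧ (∀ e : k, v'.r (io k e) = e) ∧
        ∀ x, w'.valuation x < 1 ↔ x ∈ v'.A ∧ v'.r x = 0) := by
  obtain ⟨w, hw, hu⟩ := exists_valuation (k := k) (u := tv k) (fun g h => tv_transc h)
  obtain ⟨w', hw', hu'⟩ := exists_valuation (k := k) (u := (tv k)⁻¹) (fun g h => tvi_transc h)
  obtain ⟨v, hv⟩ := exists_place tv_ne hw hu exists_rel
  obtain ⟨v', hv'⟩ := exists_place (inv_ne_zero tv_ne) hw' hu' exists_rel_inv
  exact ⟨w, w', v, v', hw, hu, hw', hu', hv, hv'⟩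

end Pool.Agent.Run7.h780.ZC
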