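import Pool.Agent.Run7.h780.ZC.Near
import Pool.Agent.Run7.h780.ZC.KDiv

/-!
# Torsion points fixed by a Frobenius element
-/

set_option autoImplicit false
set_option linter.all false

namespace Pool.Agent.Run7.h780.ZC

open WeierstrassCurve Pool.Agent.H901R3.MS Pool.Agent.W275.FML
open Pool.Agent.Run7.h507.Loc1 (plp rs Bp nrm exists_frob rs_zero rs_eq Gp)
open scoped Classical

lemma frob_neg {K κ : Type} [Field K] [Field κ] (ι : K →+* κ) {q : ℕ} (hq : Odd q)
    (hfix : ∀ z : κ, z ^ q = z → ∃ y, ι y = z) (hι : ∀ y : K, ι y ^ q = ι y) {u : K}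
    (hu : ¬ IsSquare u) {s : κ} (hs : s ^ 2 = ι u) {r : ℕ} (hr : Odd r) : s ^ (q ^ r) = -s := by
  have h1 : s ^ q = -s := by
    have h2 : (s ^ q) ^ 2 = s ^ 2 := by
      rw [← pow_mul, mul_comm, pow_mul, hs, hι]
    rcases sq_eq_sq_iff_eq_or_eq_neg.1 h2 with h | h
    · exfalso
      obtain ⟨y, hy⟩ := hfix s h
      apply hu
      refine ⟨y, ι.injective ?_⟩
      rw [map_mul, hy, ← hs, pow_two]
    · exact h
  obtain ⟨m, rfl⟩ := hr
  induction m with
  | zero => rw [mul_zero, zero_add, pow_one]; exact h1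
  | succ m ih =>
    have e : q ^ (2 * (m + 1) + 1) = q ^ (2 * m + 1) * q * q := by ring
    rw [e, pow_mul, pow_mul, ih, hq.neg_pow, h1, neg_neg, h1]

section
variable {p : ℕ} [hpf : Fact p.Prime]

/-- an automorphism as a homomorphism of rings -/
noncomputable abbrev rh (τ : Gp p) : PadicAlgCl p →+* PadicAlgCl p := τ.toAlgHom.toRingHom

lemma pmap_iter (σ : Gp p) {a b : PadicAlgCl p} (ha : σ a = a) (hb : σ b = b) (T : Pt a b)
    (r : ℕ) (ha' : (σ ^ r) a = a) (hb' : (σ ^ r) b = b) :
    (pmap (rh σ) ha hb)^[r] T = pmap (rh (σ ^ r)) ha' hb' T := by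
  apply pmap_unique
  induction r with
  | zero =>
    rw [Function.iterate_zero, id_eq]
    rcases T with _ | ⟨x, y, h⟩
    · rfl
    · rfl
  | succ r ih =>
    have key : ∀ (r : ℕ), coords ((pmap (rh σ) ha hb)^[r] T) =
        (coords T).map (Prod.map (rh (σ ^ r)) (rh (σ ^ r))) := by
      intro r
      induction r with
      | zero =>
        rw [Function.iterate_zero, id_eq]
        rcases T with _ | ⟨x, y, h⟩
        · rfl
        · rfl
      | succ r ih =>
        rw [Function.iterate_succ', Function.comp_apply, coords_pmap, ih, Option.map_map]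
        congr 1
        funext z
        simp only [Function.comp_apply, Prod.map_apply]
        rw [Prod.mk.injEq]
        constructor
        · show σ ((σ ^ r) z.1) = (σ ^ (r + 1)) z.1
          rw [pow_succ']; rfl
        · show σ ((σ ^ r) z.2) = (σ ^ (r + 1)) z.2
          rw [pow_succ']; rfl
    exact key (r + 1)

/-- torsion points with a given reduction, fixed by an odd power -/
theorem exists_T2 (σ : Gp p) {q : ℕ}
    (hσ : ∀ x : PadicAlgCl p, ‖x‖ ≤ 1 → (plp p).r (σ x) = (plp p).r x ^ q)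
    {a b : PadicAlgCl p} (ha : σ a = a) (hb : σ b = b) (na : ‖a‖ ≤ 1) (nb : ‖b‖ ≤ 1)
    (hD : Disc a b) (hDr : Disc ((plp p).r a) ((plp p).r b))
    {red : Pt a b →+ Pt ((plp p).r a) ((plp p).r b)} (hred : IsRedK (plp p) a b red)
    {K : Type} [Field K] (ι : K →+* AlgebraicClosure (ZMod p)) (hι : ∀ y : K, ι y ^ q = ι y)
    {A B : K} (hA : ι A = (plp p).r a) (hB : ι B = (plp p).r b) (T₁ : Pt A B) {h : ℕ}
    (hh : 1 ≤ h) (hT₁ : h • T₁ = 0) :
    ∃ (T : Pt a b) (r : ℕ), Odd r ∧ h • T = 0 ∧ red T = pmap ι hA hB T₁ ∧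
      ∀ z ∈ coords T, (σ ^ r) z.1 = z.1 ∧ (σ ^ r) z.2 = z.2 := by
  have hsurj : ∀ c : AlgebraicClosure (ZMod p), ∃ x ∈ (plp p).A, (plp p).r x = c := by
    intro c
    obtain ⟨x, hx, hc⟩ := v_surj c
    exact ⟨x, mem_v.2 hx, hc⟩
  have hma := mem_v.2 na
  have hmb := mem_v.2 nb
  obtain ⟨T₀, hT₀, hT₀r⟩ := tor_lift hsurj hma hmb hD hDr hred hh (pmap ι hA hB T₁)
    (by rw [← map_nsmul, hT₁, map_zero])
  -- the finite set
  let X := {T : Pt a b // h • T = 0 ∧ red T = pmap ι hA hB T₁}
  let G : AddSubgroup (Pt a b) := (nsmulAddMonoidHom h).ker ⊓ red.ker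
  have memG : ∀ T : Pt a b, T ∈ G ↔ h • T = 0 ∧ red T = 0 := fun T => Iff.rfl
  have hfin := (Pool.Agent.TH954.torCount (PadicAlgCl p) a b hD h hh).1
  have hGf : Finite G := by
    have : (G : Set (Pt a b)).Finite := hfin.subset fun T hT => ((memG T).1 hT).1
    exact this.to_subtype
  have hXf : Finite X := by
    have : {T : Pt a b | h • T = 0 ∧ red T = pmap ι hA hB T₁}.Finite :=
      hfin.subset fun T hT => hT.1
    exact this.to_subtype
  let e : X ≃ G :=
    { toFun := fun T => ⟨T.1 - T₀, (memG _).2 ⟨by rw [smul_sub, T.2.1, hT₀, sub_zero],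
        by rw [map_sub, T.2.2, hT₀r, sub_self]⟩⟩
      invFun := fun g => ⟨g.1 + T₀, by rw [smul_add, ((memG _).1 g.2).1, hT₀, zero_add],
        by rw [map_add, ((memG _).1 g.2).2, hT₀r, zero_add]⟩
      left_inv := fun T => Subtype.ext (by simp)
      right_inv := fun g => Subtype.ext (by simp) }
  have hodd : Odd (Nat.card X) := by
    rw [Nat.card_congr e, ← Nat.not_even_iff_odd, even_iff_two_dvd]
    intro hd
    have : Fact (Nat.Prime 2) := ⟨Nat.prime_two⟩
    obtain ⟨g, hg⟩ := exists_prime_addOrderOf_dvd_card' 2 hd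
    have hg2 : 2 • (g : Pt a b) = 0 := by
      have h1 := addOrderOf_nsmul_eq_zero g
      rw [hg] at h1
      exact congrArg Subtype.val h1
    have hg0 : (g : Pt a b) ≠ 0 := by
      intro h0
      have h1 : g = 0 := Subtype.ext h0
      rw [h1, addOrderOf_zero] at hg
      omega
    have hE : E1 (plp p) (g : Pt a b) := (red_zero_iff' hred _).1 ((memG _).1 g.2).2
    rcases hq : (g : Pt a b) with _ | ⟨x, y, hxy⟩
    · exact hg0 hq
    · have hxA : x ∉ (plp p).A := hE x y hxy hq
      obtain ⟨-, hy0, -⟩ := (t_R1K _ _ (plp p) a b hma hmb x y (eqn_of hxy)).2 hxA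
      have hxy' : (CV a b).toAffine.Nonsingular x (-y) := by
        rw [nonsingular_iff hD]
        have := eqn_of hxy
        unfold Eqn at this ⊢
        rw [neg_sq, this]
      rw [hq, two_nsmul, add_eq_zero_iff_eq_neg, neg_some' hxy hxy', Affine.Point.some.injEq]
        at hg2
      have h2 : (2 : PadicAlgCl p) ≠ 0 := two_ne_zero
      apply hy0
      have h4 : 2 * y = 0 := by linear_combination hg2.2
      exact (mul_eq_zero.1 h4).resolve_left h2
  -- the permutation
  let g : Pt a b →+ Pt a b := pmap (rh σ) ha hb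
  have hgred : ∀ T : Pt a b, red T = pmap ι hA hB T₁ → red (g T) = pmap ι hA hB T₁ := by
    intro T hT
    rcases T with _ | ⟨x, y, hxy⟩
    · have h0 : g Affine.Point.zero = Affine.Point.zero := map_zero g
      rw [h0]
      exact hT
    · have e1 : g (Affine.Point.some x y hxy) = Affine.Point.some (σ x) (σ y)
          (ns_map (rh σ) ha hb hxy) := pmap_some (rh σ) ha hb hxy
      rw [e1]
      by_cases hx : x ∈ (plp p).A
      · obtain ⟨hyA, g₁, hg₁⟩ := hred.2.2 x y hxy hx
        rw [hg₁] at hT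
        have hσx : σ x ∈ (plp p).A := by
          rw [mem_v, nrm]; exact mem_v.1 hx
        obtain ⟨hσy, g₂, hg₂⟩ := hred.2.2 (σ x) (σ y) (ns_map (rh σ) ha hb hxy) hσx
        rw [hg₂]
        rcases T₁ with _ | ⟨x₁, y₁, h₁⟩
        · exact absurd (hT.trans (map_zero (pmap ι hA hB))) (Affine.Point.some_ne_zero g₁)
        · rw [pmap_some, Affine.Point.some.injEq] at hT ⊢
          rw [hσ x (mem_v.1 hx), hσ y (mem_v.1 hyA), hT.1, hT.2, hι, hι]
          exact ⟨rfl, rfl⟩
      · have hσx : σ x ∉ (plp p).A := by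
          rw [mem_v, nrm]; exact hx
        rw [hred.2.1 x y hxy hx] at hT
        rw [hred.2.1 _ _ _ hσx]
        exact hT
  have hginj : Function.Injective g := pmap_injective (rh σ) ha hb
  let f : X → X := fun T => ⟨g T.1, by rw [← map_nsmul, T.2.1, map_zero], hgred _ T.2.2⟩
  have hf : Function.Injective f := fun T T' hTT => Subtype.ext
    (hginj (congrArg (fun z : X => z.1) hTT))
  let π : Equiv.Perm X := Equiv.ofBijective f (Finite.injective_iff_bijective.1 hf)
  obtain ⟨T, r, hr, hT⟩ := exists_odd hodd π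
  have hiter : ∀ n : ℕ, ((π ^ n) T).1 = g^[n] T.1 := by
    intro n
    induction n with
    | zero => rfl
    | succ n ih =>
      rw [pow_succ', Function.iterate_succ', Function.comp_apply, ← ih]
      rfl
  refine ⟨T.1, r, hr, T.2.1, T.2.2, ?_⟩
  have ha' : (σ ^ r) a = a := by
    have := pow_fix (σ := σ) (n := 1) (x := a) (by rw [pow_one]; exact ha) r
    rwa [one_mul] at this
  have hb' : (σ ^ r) b = b := by
    have := pow_fix (σ := σ) (n := 1) (x := b) (by rw [pow_one]; exact hb) r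
    rwa [one_mul] at this
  have h1 := hiter r
  rw [hT, pmap_iter σ ha hb T.1 r ha' hb'] at h1
  intro z hz
  have h2 := congrArg coords h1
  rw [coords_pmap, Option.mem_def.1 hz, Option.map_some, Option.some.injEq] at h2
  rw [Prod.ext_iff] at h2
  exact ⟨h2.1.symm, h2.2.symm⟩

end

end Pool.Agent.Run7.h780.ZC
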