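import Pool.Agent.Run7.h780.ZC.TorF
import Pool.Agent.Run7.h780.ZC.Curve

/-!
# Two points close to each other give a point of infinite order on the second curve
-/

set_option autoImplicit false
set_option linter.all false

namespace Pool.Agent.Run7.h780.ZC

open WeierstrassCurve Pool.Agent.H901R3.MS Pool.Agent.W275.FML
open Pool.Agent.Run7.h507.Loc1 (plp rs Bp nrm exists_frob rs_zero rs_eq Gp)
open scoped Classical

/-- `θ P` is defined over `F` -/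
def RatF {k : Type} [Field k] {p : ℕ} [Fact p.Prime]
    (F : IntermediateField ℚ_[p] (PadicAlgCl p)) (θ : k →+* PadicAlgCl p) {a b : k}
    (P : Pt a b) : Prop :=
  ∀ z ∈ coords P, θ z.1 ∈ F ∧ θ z.2 ∈ F

section
variable {k : Type} [Field k] {p : ℕ} [hpf : Fact p.Prime] {θ : k →+* PadicAlgCl p}

/-- a point which is mapped to its opposite -/
theorem anti2 {c d : k} {τ : Gp p} (hc : τ (θ c) = θ c) (hd : τ (θ d) = θ d) {Q : Pt c d}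
    (hQ : pmap (rh τ) hc hd (pmap θ rfl rfl Q) = -pmap θ rfl rfl Q)
    (hnt : ∀ n : ℕ, n ≠ 0 → n • Q ≠ 0) (F : IntermediateField ℚ_[p] (PadicAlgCl p))
    (hF : ∀ x ∈ F, τ x = x) (m : ℤ) (hm : m ≠ 0) : ¬ RatF F θ (m • Q) := by
  intro h
  have h1 : pmap (rh τ) hc hd (pmap θ rfl rfl (m • Q)) = pmap θ rfl rfl (m • Q) := by
    symm
    apply pmap_unique
    rw [coords_pmap, Option.map_map]
    rcases hq : coords (m • Q) with _ | z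
    · rfl
    · obtain ⟨h2, h3⟩ := h z hq
      rw [Option.map_some, Option.map_some, Option.some.injEq]
      simp only [Function.comp_apply, Prod.map_apply]
      rw [Prod.ext_iff]
      exact ⟨(hF _ h2).symm, (hF _ h3).symm⟩
  rw [map_zsmul, map_zsmul, hQ, smul_neg] at h1
  have h2 : (2 * m) • pmap θ (rfl : θ c = θ c) (rfl : θ d = θ d) Q = 0 := by
    rw [two_mul, add_smul]
    nth_rewrite 1 [← h1]
    exact neg_add_cancel _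
  have h3 : (2 * m) • Q = 0 := by
    apply pmap_injective θ (rfl : θ c = θ c) (rfl : θ d = θ d)
    rw [map_zsmul, h2, map_zero]
  apply hnt (2 * m).natAbs (Int.natAbs_ne_zero.2 (mul_ne_zero two_ne_zero hm))
  rcases Int.natAbs_eq (2 * m) with e | e
  · rw [← natCast_zsmul, ← e]
    exact h3
  · rw [e, neg_smul, neg_eq_zero, natCast_zsmul] at h3
    exact h3

variable [IsAlgClosed k] [CharZero k] {a b c d al be γ c0 : k}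

/-- **two points close to each other** -/
theorem two_pts2 (M : Mob a b c d al be γ c0) (hD : Disc a b) (hD' : Disc c d)
    (BB : Pt a b →+ Pt c d →+ CH a b c d)
    (hBB : ∀ P Q, BB P Q = QuotientAddGroup.mk (cyc P Q))
    (nC : ‖θ c‖ ≤ 1) (nD : ‖θ d‖ ≤ 1) (nal : ‖θ al‖ ≤ 1) (nbe : ‖θ be‖ ≤ 1) (nG : ‖θ γ‖ ≤ 1)
    (nC0 : ‖θ c0‖ ≤ 1) (h2κ : (2 : AlgebraicClosure (ZMod p)) ≠ 0) {τ : Gp p} {q : ℕ}
    (hτ : ∀ x : PadicAlgCl p, ‖x‖ ≤ 1 → (plp p).r (τ x) = (plp p).r x ^ q)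
    (fc : τ (θ c) = θ c) (fd : τ (θ d) = θ d) (fal : τ (θ al) = θ al) (fbe : τ (θ be) = θ be)
    (fγ : τ (θ γ) = θ γ) (fc0 : τ (θ c0) = θ c0)
    {x₀ y₀ x₁ y₁ : k} (h₀ : (CV a b).toAffine.Nonsingular x₀ y₀)
    (h₁ : (CV a b).toAffine.Nonsingular x₁ y₁)
    (nX₀ : ‖θ x₀‖ ≤ 1) (nY₀ : ‖θ y₀‖ ≤ 1) (nX₁ : ‖θ x₁‖ ≤ 1) (nY₁ : ‖θ y₁‖ ≤ 1)
    (rX : (plp p).r (θ x₀) = (plp p).r (θ x₁)) (rY : (plp p).r (θ y₀) = (plp p).r (θ y₁))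
    (rY0 : (plp p).r (θ y₀) ≠ 0)
    (fX₀ : τ (θ x₀) = θ x₀) (fY₀ : τ (θ y₀) = θ y₀) (fX₁ : τ (θ x₁) = θ x₁)
    (fY₁ : τ (θ y₁) = θ y₁)
    (hu0 : (plp p).r (θ c0) * ((plp p).r (θ x₀) - (plp p).r (θ γ)) ≠ 0)
    (hneg : ∀ s : AlgebraicClosure (ZMod p),
      s ^ 2 = (plp p).r (θ c0) * ((plp p).r (θ x₀) - (plp p).r (θ γ)) → s ^ q = -s)
    (hne : x₀ ≠ x₁) (hclose : ‖θ x₀ - θ x₁‖ < (p : ℝ)⁻¹) :
    (∃ Q : Pt c d, 2 • BB (Affine.Point.some x₀ y₀ h₀) Q = 0 ∧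
      (∀ n : ℕ, n ≠ 0 → n • Q ≠ 0) ∧
      pmap (rh τ) fc fd (pmap θ rfl rfl Q) = -pmap θ rfl rfl Q) ∨
    (∃ Q : Pt c d, 2 • BB (Affine.Point.some x₁ y₁ h₁) Q = 0 ∧
      (∀ n : ℕ, n ≠ 0 → n • Q ≠ 0) ∧
      pmap (rh τ) fc fd (pmap θ rfl rfl Q) = -pmap θ rfl rfl Q) := by
  have mG := mem_v.2 nG
  have mC0 := mem_v.2 nC0
  have mX₀ := mem_v.2 nX₀
  have mX₁ := mem_v.2 nX₁
  have mY₀ := mem_v.2 nY₀
  have mY₁ := mem_v.2 nY₁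
  have mal := mem_v.2 nal
  have mbe := mem_v.2 nbe
  obtain ⟨ub, hub⟩ : ∃ ub, ub = (plp p).r (θ c0) * ((plp p).r (θ x₀) - (plp p).r (θ γ)) :=
    ⟨_, rfl⟩
  rw [← hub] at hu0 hneg
  have rXG₀' : (plp p).r (θ x₀) - (plp p).r (θ γ) ≠ 0 := by
    intro h
    apply hu0
    rw [hub, h, mul_zero]
  have rXG₀ : (plp p).r (θ x₀ - θ γ) ≠ 0 := by rw [(plp p).r_sub mX₀ mG]; exact rXG₀'
  have rXG : (plp p).r (θ x₀ - θ γ) = (plp p).r (θ x₁ - θ γ) := by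
    rw [(plp p).r_sub mX₀ mG, (plp p).r_sub mX₁ mG, rX]
  have rXG₁ : (plp p).r (θ x₁ - θ γ) ≠ 0 := rXG ▸ rXG₀
  have XG₀ := (plp p).ne_zero_of_r_ne rXG₀
  have XG₁ := (plp p).ne_zero_of_r_ne rXG₁
  have xγ₀ : x₀ ≠ γ := by
    rintro rfl
    exact XG₀ (sub_self _)
  have xγ₁ : x₁ ≠ γ := by
    rintro rfl
    exact XG₁ (sub_self _)
  have m₀ : θ (c0 * (x₀ - γ)) ∈ (plp p).A := by
    rw [map_mul, map_sub]
    exact (plp p).A.mul_mem mC0 ((plp p).A.sub_mem mX₀ mG)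
  have m₁ : θ (c0 * (x₁ - γ)) ∈ (plp p).A := by
    rw [map_mul, map_sub]
    exact (plp p).A.mul_mem mC0 ((plp p).A.sub_mem mX₁ mG)
  have r₀ : (plp p).r (θ (c0 * (x₀ - γ))) = ub := by
    rw [map_mul, map_sub, (plp p).r_mul mC0 ((plp p).A.sub_mem mX₀ mG), (plp p).r_sub mX₀ mG, hub]
  have r₁ : (plp p).r (θ (c0 * (x₁ - γ))) = ub := by
    rw [map_mul, map_sub, (plp p).r_mul mC0 ((plp p).A.sub_mem mX₁ mG), ← rXG,
      (plp p).r_sub mX₀ mG, hub]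
  -- square roots
  have hsq : ∀ s z : k, s ^ 2 = z → θ z ∈ (plp p).A → θ s ∈ (plp p).A ∧
      (plp p).r (θ s) ^ 2 = (plp p).r (θ z) := by
    intro s z hs hz
    have hsA : θ s ∈ (plp p).A := by
      apply (plp p).mem_of_pow_mem (n := 2) (by norm_num)
      rw [← map_pow, hs]
      exact hz
    exact ⟨hsA, by rw [← (plp p).r_pow hsA, ← map_pow, hs]⟩
  obtain ⟨s₀, hs₀⟩ := IsAlgClosed.exists_pow_nat_eq (c0 * (x₀ - γ)) (n := 2) (by norm_num)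
  obtain ⟨s₁', hs₁'⟩ := IsAlgClosed.exists_pow_nat_eq (c0 * (x₁ - γ)) (n := 2) (by norm_num)
  obtain ⟨ms₀, rs₀⟩ := hsq s₀ _ hs₀ m₀
  rw [r₀] at rs₀
  obtain ⟨s₁, hs₁, rs01⟩ : ∃ s₁ : k, s₁ ^ 2 = c0 * (x₁ - γ) ∧
      (plp p).r (θ s₁) = (plp p).r (θ s₀) := by
    obtain ⟨ms, rs⟩ := hsq s₁' _ hs₁' m₁
    rw [r₁, ← rs₀] at rs
    rcases sq_eq_sq_iff_eq_or_eq_neg.1 rs with h | h
    · exact ⟨s₁', hs₁', h⟩
    · exact ⟨-s₁', by rw [neg_sq, hs₁'], by rw [map_neg, (plp p).r_neg ms, h, neg_neg]⟩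
  obtain ⟨ms₁, rs₁⟩ := hsq s₁ _ hs₁ m₁
  rw [r₁] at rs₁
  have rs₀0 : (plp p).r (θ s₀) ≠ 0 := by
    intro h
    apply hu0
    rw [← rs₀, h]
    ring
  -- the automorphism changes the sign
  have hsgn : ∀ s x : k, s ^ 2 = c0 * (x - γ) → τ (θ x) = θ x → θ s ∈ (plp p).A →
      (plp p).r (θ s) ^ 2 = ub → τ (θ s) = -θ s := by
    intro s x hs hx hsA hsr
    have h1 : (τ (θ s)) ^ 2 = (θ s) ^ 2 := by
      rw [← map_pow, ← map_pow, hs, map_mul, map_sub, map_mul, map_sub, fc0, hx, fγ]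
    rcases sq_eq_sq_iff_eq_or_eq_neg.1 h1 with h | h
    · exfalso
      have h2 := hτ (θ s) (mem_v.1 hsA)
      rw [h, hneg _ hsr] at h2
      have h3 : 2 * (plp p).r (θ s) = 0 := by linear_combination h2
      have h4 := (mul_eq_zero.1 h3).resolve_left h2κ
      apply hu0
      rw [← hsr, h4]
      ring
    · exact h
  have sg₀ := hsgn s₀ x₀ hs₀ fX₀ ms₀ rs₀
  have sg₁ := hsgn s₁ x₁ hs₁ fX₁ ms₁ rs₁
  -- the points on the second curve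
  have hQ₀ := M.ns hD' (RingHom.id k) (x := x₀) (y := y₀) (s := s₀) xγ₀ (eqn_of h₀) hs₀
  have hQ₁ := M.ns hD' (RingHom.id k) (x := x₁) (y := y₁) (s := s₁) xγ₁ (eqn_of h₁) hs₁
  simp only [RingHom.id_apply] at hQ₀ hQ₁
  have hrel₀ := curve_rel M hD hD' BB hBB h₀ xγ₀ hs₀ hQ₀
  have hrel₁ := curve_rel M hD hD' BB hBB h₁ xγ₁ hs₁ hQ₁
  have hneg' : ∀ (x y s : k) (hQ : (CV c d).toAffine.Nonsingular ((al * x + be) / (x - γ))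
      (s * y / (x - γ) ^ 2)), τ (θ x) = θ x → τ (θ y) = θ y → τ (θ s) = -θ s →
      pmap (rh τ) fc fd (pmap θ rfl rfl (Affine.Point.some _ _ hQ)) =
        -pmap θ rfl rfl (Affine.Point.some _ _ hQ) := by
    intro x y s hQ hx hy hs
    rw [pmap_some, pmap_some]
    have g := ns_map θ (rfl : θ c = θ c) (rfl : θ d = θ d) hQ
    have g' : (CV (θ c) (θ d)).toAffine.Nonsingular (θ ((al * x + be) / (x - γ)))
        (-θ (s * y / (x - γ) ^ 2)) := by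
      have := (Affine.nonsingular_neg _ _).2 g
      simpa [Affine.negY, CV] using this
    rw [neg_some' g g', Affine.Point.some.injEq]
    constructor
    · show τ (θ ((al * x + be) / (x - γ))) = _
      simp only [map_div₀, map_add, map_mul, map_sub, fal, fbe, fγ, hx]
    · show τ (θ (s * y / (x - γ) ^ 2)) = _
      simp only [map_div₀, map_mul, map_sub, map_pow, fγ, hx, hy, hs]
      ring
  -- integrality and residues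
  have mXG₀ : θ x₀ - θ γ ∈ (plp p).A := (plp p).A.sub_mem mX₀ mG
  have mXG₁ : θ x₁ - θ γ ∈ (plp p).A := (plp p).A.sub_mem mX₁ mG
  have rXG₀2 : (plp p).r ((θ x₀ - θ γ) ^ 2) ≠ 0 := by
    rw [(plp p).r_pow mXG₀]; exact pow_ne_zero 2 rXG₀
  have rXG₁2 : (plp p).r ((θ x₁ - θ γ) ^ 2) ≠ 0 := by
    rw [(plp p).r_pow mXG₁]; exact pow_ne_zero 2 rXG₁
  obtain ⟨ξ₀, hξ₀⟩ : ∃ ξ₀, ξ₀ = θ ((al * x₀ + be) / (x₀ - γ)) := ⟨_, rfl⟩
  obtain ⟨ξ₁, hξ₁⟩ : ∃ ξ₁, ξ₁ = θ ((al * x₁ + be) / (x₁ - γ)) := ⟨_, rfl⟩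
  obtain ⟨η₀, hη₀⟩ : ∃ η₀, η₀ = θ (s₀ * y₀ / (x₀ - γ) ^ 2) := ⟨_, rfl⟩
  obtain ⟨η₁, hη₁⟩ : ∃ η₁, η₁ = θ (s₁ * y₁ / (x₁ - γ) ^ 2) := ⟨_, rfl⟩
  have eξ₀ : ξ₀ = (θ al * θ x₀ + θ be) / (θ x₀ - θ γ) := by
    rw [hξ₀]; simp only [map_div₀, map_add, map_mul, map_sub]
  have eξ₁ : ξ₁ = (θ al * θ x₁ + θ be) / (θ x₁ - θ γ) := by
    rw [hξ₁]; simp only [map_div₀, map_add, map_mul, map_sub]
  have eη₀ : η₀ = θ s₀ * θ y₀ / (θ x₀ - θ γ) ^ 2 := by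
    rw [hη₀]; simp only [map_div₀, map_mul, map_sub, map_pow]
  have eη₁ : η₁ = θ s₁ * θ y₁ / (θ x₁ - θ γ) ^ 2 := by
    rw [hη₁]; simp only [map_div₀, map_mul, map_sub, map_pow]
  have mξ₀ : ξ₀ ∈ (plp p).A := by
    rw [eξ₀]
    exact (plp p).div_mem ((plp p).A.add_mem ((plp p).A.mul_mem mal mX₀) mbe) rXG₀
  have mξ₁ : ξ₁ ∈ (plp p).A := by
    rw [eξ₁]
    exact (plp p).div_mem ((plp p).A.add_mem ((plp p).A.mul_mem mal mX₁) mbe) rXG₁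
  have mη₀ : η₀ ∈ (plp p).A := by
    rw [eη₀]
    exact (plp p).div_mem ((plp p).A.mul_mem ms₀ mY₀) rXG₀2
  have mη₁ : η₁ ∈ (plp p).A := by
    rw [eη₁]
    exact (plp p).div_mem ((plp p).A.mul_mem ms₁ mY₁) rXG₁2
  have rη : (plp p).r η₀ = (plp p).r η₁ := by
    rw [eη₀, eη₁, (plp p).r_div ((plp p).A.mul_mem ms₀ mY₀) rXG₀2,
      (plp p).r_div ((plp p).A.mul_mem ms₁ mY₁) rXG₁2, (plp p).r_mul ms₀ mY₀,
      (plp p).r_mul ms₁ mY₁, rs01, rY, (plp p).r_pow mXG₀, (plp p).r_pow mXG₁, rXG]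
  have rη0 : (plp p).r η₀ ≠ 0 := by
    rw [eη₀, (plp p).r_div ((plp p).A.mul_mem ms₀ mY₀) rXG₀2, (plp p).r_mul ms₀ mY₀]
    exact div_ne_zero (mul_ne_zero rs₀0 rY0) rXG₀2
  have hsum : ‖η₀ + η₁‖ = 1 := by
    have h1 : (plp p).r (η₀ + η₁) ≠ 0 := by
      rw [(plp p).r_add mη₀ mη₁, ← rη, ← two_mul]
      exact mul_ne_zero h2κ rη0
    have h2 : ‖η₀ + η₁‖ ≤ 1 := mem_v.1 ((plp p).A.add_mem mη₀ mη₁)
    exact le_antisymm h2 (not_lt.1 fun h => h1 ((v_zero h2).2 h))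
  have hn₀ : ‖θ x₀ - θ γ‖ = 1 :=
    le_antisymm (mem_v.1 mXG₀) (not_lt.1 fun h => rXG₀ ((v_zero (mem_v.1 mXG₀)).2 h))
  have hn₁ : ‖θ x₁ - θ γ‖ = 1 :=
    le_antisymm (mem_v.1 mXG₁) (not_lt.1 fun h => rXG₁ ((v_zero (mem_v.1 mXG₁)).2 h))
  have hdiff : ξ₀ - ξ₁ = -((θ al * θ γ + θ be) * (θ x₀ - θ x₁)) /
      ((θ x₀ - θ γ) * (θ x₁ - θ γ)) := by
    rw [eξ₀, eξ₁, div_sub_div _ _ XG₀ XG₁]
    congr 1
    ring
  have hξlt : ‖ξ₀ - ξ₁‖ < (p : ℝ)⁻¹ := by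
    rw [hdiff, norm_div, norm_neg, norm_mul, norm_mul, hn₀, hn₁, mul_one, div_one]
    calc ‖θ al * θ γ + θ be‖ * ‖θ x₀ - θ x₁‖ ≤ 1 * ‖θ x₀ - θ x₁‖ := by
          gcongr
          exact na_le (mem_v.1 ((plp p).A.mul_mem mal mG)) nbe
      _ < (p : ℝ)⁻¹ := by rw [one_mul]; exact hclose
  have hξne : ξ₀ ≠ ξ₁ := by
    rw [← sub_ne_zero, hdiff]
    apply div_ne_zero _ (mul_ne_zero XG₀ XG₁)
    apply neg_ne_zero.2
    apply mul_ne_zero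
    · rw [← map_mul, ← map_add]
      exact (map_ne_zero θ).2 M.nd
    · rw [← map_sub]
      exact (map_ne_zero θ).2 (sub_ne_zero.2 hne)
  have hp1 : (p : ℝ)⁻¹ < 1 := by
    apply inv_lt_one_of_one_lt₀
    exact_mod_cast hpf.out.one_lt
  have g₀ := ns_map θ (rfl : θ c = θ c) (rfl : θ d = θ d) hQ₀
  have g₁ := ns_map θ (rfl : θ c = θ c) (rfl : θ d = θ d) hQ₁
  rw [← hξ₀, ← hη₀] at g₀
  rw [← hξ₁, ← hη₁] at g₁
  obtain ⟨X, Y, hXY, hDD, hX1, hXYn⟩ := diff_alg nC nD (mem_v.1 mξ₀) (mem_v.1 mξ₁) g₀ g₁ hξne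
    (hξlt.trans hp1) hsum
  have hE : E1 (plp p) (Affine.Point.some X Y hXY : Pt (θ c) (θ d)) := by
    intro x y h e
    rw [Affine.Point.some.injEq] at e
    rw [← e.1, mem_v, not_le]
    exact hX1
  have htt : ‖tt (Affine.Point.some X Y hXY : Pt (θ c) (θ d))‖ < (p : ℝ)⁻¹ := by
    show ‖X / Y‖ < _
    rw [hXYn]
    exact hξlt
  have hnt := fun (n : ℕ) (hn : n ≠ 0) =>
    cE1_nontorsion nC nD hE htt (Affine.Point.some_ne_zero hXY) hn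
  have p₀ : pmap θ rfl rfl (Affine.Point.some _ _ hQ₀) = Affine.Point.some ξ₀ η₀ g₀ := by
    rw [pmap_some, Affine.Point.some.injEq]
    exact ⟨hξ₀.symm, hη₀.symm⟩
  have p₁ : pmap θ rfl rfl (Affine.Point.some _ _ hQ₁) = Affine.Point.some ξ₁ η₁ g₁ := by
    rw [pmap_some, Affine.Point.some.injEq]
    exact ⟨hξ₁.symm, hη₁.symm⟩
  have hor : (∀ n : ℕ, n ≠ 0 → n • (Affine.Point.some _ _ hQ₀ : Pt c d) ≠ 0) ∨
      (∀ n : ℕ, n ≠ 0 → n • (Affine.Point.some _ _ hQ₁ : Pt c d) ≠ 0) := by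
    by_contra hcon
    push Not at hcon
    obtain ⟨⟨n, hn, hn0⟩, ⟨m, hm, hm0⟩⟩ := hcon
    apply hnt (n * m) (mul_ne_zero hn hm)
    have e0 : n • (Affine.Point.some ξ₀ η₀ g₀ : Pt (θ c) (θ d)) = 0 := by
      rw [← p₀, ← map_nsmul, hn0, map_zero]
    have e1 : m • (Affine.Point.some ξ₁ η₁ g₁ : Pt (θ c) (θ d)) = 0 := by
      rw [← p₁, ← map_nsmul, hm0, map_zero]
    rw [← hDD, smul_sub, mul_comm n m, mul_smul, e0, smul_zero, mul_comm m n, mul_smul, e1,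
      smul_zero, sub_zero]
  rcases hor with h | h
  · exact Or.inl ⟨_, hrel₀, h, hneg' x₀ y₀ s₀ hQ₀ fX₀ fY₀ sg₀⟩
  · exact Or.inr ⟨_, hrel₁, h, hneg' x₁ y₁ s₁ hQ₁ fX₁ fY₁ sg₁⟩

end

end Pool.Agent.Run7.h780.ZC
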